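import Pool.Agent.Lib.MP_651af7_nt.Rt.Defs

/-! Sums over the places in `S` and outside `S`. -/

namespace Pool.Agent.Lib.MP_651af7_nt.Tb

open Finset Height NumberField Real
open Rt (Pl av mu)

variable {k : Type} [Field k] [NumberField k] {S : Finset (FinitePlace k)}
  {f g : AbsoluteValue k ℝ → ℝ}

/-- The local term vanishes at almost all places. -/
def FS (f : AbsoluteValue k ℝ → ℝ) : Prop := {w : FinitePlace k | f w.1 ≠ 0}.Finite

/-- The sum over the infinite places and the places of `S`. -/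
noncomputable def iS (S : Finset (FinitePlace k)) (f : AbsoluteValue k ℝ → ℝ) : ℝ :=
  ∑ s : Pl S, mu s * f (av s)

/-- The sum over the other places. -/
noncomputable def oS (S : Finset (FinitePlace k)) (f : AbsoluteValue k ℝ → ℝ) : ℝ :=
  ∑ᶠ w ∈ (S : Set (FinitePlace k))ᶜ, f w.1

/-- The logarithm of the largest coordinate. -/
noncomputable def ls {ι : Type} (x : ι → k) (w : AbsoluteValue k ℝ) : ℝ := log (⨆ i, w (x i))

theorem FS.comp₂ (hf : FS f) (hg : FS g) (F : ℝ → ℝ → ℝ) (h : F 0 0 = 0) :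
    FS fun w => F (f w) (g w) :=
  (Set.Finite.union hf hg).subset fun w hw => by
    by_contra hc
    simp only [Set.mem_union, Set.mem_ofPred_eq, not_or, not_not] at hc
    exact hw (by simp only [hc.1, hc.2, h])

theorem FS.add (hf : FS f) (hg : FS g) : FS fun w => f w + g w := hf.comp₂ hg _ (add_zero 0)

theorem FS.sub (hf : FS f) (hg : FS g) : FS fun w => f w - g w := hf.comp₂ hg _ (sub_zero 0)

theorem FS.mul (c : ℝ) (hf : FS f) : FS fun w => c * f w :=
  hf.comp₂ hf (fun a _ => c * a) (mul_zero c)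

theorem FS.abs (hf : FS f) : FS fun w => |f w| := hf.comp₂ hf (fun a _ => |a|) abs_zero

theorem FS.sum {τ : Type} (s : Finset τ) {f : τ → AbsoluteValue k ℝ → ℝ} (h : ∀ i, FS (f i)) :
    FS fun w => ∑ i ∈ s, f i w :=
  (Set.Finite.biUnion s.finite_toSet fun i _ => h i).subset fun w hw => by
    obtain ⟨i, hi, h1⟩ := exists_ne_zero_of_sum_ne_zero hw
    exact Set.mem_biUnion hi h1

theorem fs_log (c : k) : FS fun w => log (w c) := by
  rcases eq_or_ne c 0 with rfl | hc
  · simp [FS]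
  exact Set.Finite.subset (FinitePlace.hasFiniteMulSupport hc) fun w hw h => hw (by
    have h1 : w.1 c = 1 := h
    exact (congrArg log h1).trans log_one)

theorem fs_ls {ι : Type} [Finite ι] (x : ι → k) : FS (ls x) := by
  rcases isEmpty_or_nonempty ι with _ | _
  · simp [FS, ls]
  refine (Set.finite_iUnion fun i => fs_log (x i)).subset fun w hw => ?_
  obtain ⟨i, hi⟩ := exists_eq_ciSup_of_finite (f := fun i => w.1 (x i))
  exact Set.mem_iUnion.2 ⟨i, fun h => hw (by rw [ls, ← hi]; exact h)⟩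

theorem oS_eq (hf : FS f) {U : Finset (FinitePlace k)} (hU : hf.toFinset ⊆ U) [DecidableEq
    (FinitePlace k)] : oS S f = ∑ w ∈ U \ S, f w.1 := by
  refine finsum_mem_eq_sum_of_inter_support_eq _ (Set.ext fun w => ?_)
  simp only [Set.mem_inter_iff, Set.mem_compl_iff, mem_coe, Function.mem_support, mem_sdiff]
  exact ⟨fun h => ⟨⟨hU (hf.mem_toFinset.2 h.2), h.1⟩, h.2⟩, fun h => ⟨h.1.2, h.2⟩⟩

theorem oS_add (hf : FS f) (hg : FS g) : oS S (fun w => f w + g w) = oS S f + oS S g :=
  finsum_mem_add_distrib' (hf.subset fun _ h => h.2) (hg.subset fun _ h => h.2)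

theorem oS_mul (c : ℝ) (hf : FS f) : oS S (fun w => c * f w) = c * oS S f := by
  classical
  rw [oS_eq (hf.mul c) (U := (hf.mul c).toFinset ∪ hf.toFinset) subset_union_left,
    oS_eq hf subset_union_right, mul_sum]

theorem oS_sub (hf : FS f) (hg : FS g) : oS S (fun w => f w - g w) = oS S f - oS S g := by
  have := oS_add (S := S) hf (hg.mul (-1))
  rw [oS_mul _ hg] at this
  simpa only [neg_mul, one_mul, ← sub_eq_add_neg] using this

theorem oS_sum {τ : Type} (s : Finset τ) {f : τ → AbsoluteValue k ℝ → ℝ} (h : ∀ i, FS (f i)) :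
    oS S (fun w => ∑ i ∈ s, f i w) = ∑ i ∈ s, oS S (f i) := by
  classical
  induction s using Finset.induction_on with
  | empty => simp [oS]
  | insert a s ha ih =>
    simp only [sum_insert ha]
    rw [oS_add (h a) (FS.sum s h), ih]

theorem oS_mono (hf : FS f) (hg : FS g) (h : ∀ w : FinitePlace k, w ∉ S → f w.1 ≤ g w.1) :
    oS S f ≤ oS S g := by
  classical
  rw [oS_eq hf (U := hf.toFinset ∪ hg.toFinset) subset_union_left, oS_eq hg subset_union_right]
  exact sum_le_sum fun w hw => h w (mem_sdiff.1 hw).2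

theorem oS_nonneg (h : ∀ w, 0 ≤ f w) : 0 ≤ oS S f :=
  finsum_nonneg fun _ => finsum_nonneg fun _ => h _

theorem iS_add : iS S (fun w => f w + g w) = iS S f + iS S g := by
  simp only [iS, mul_add, sum_add_distrib]

theorem iS_sub : iS S (fun w => f w - g w) = iS S f - iS S g := by
  simp only [iS, mul_sub, sum_sub_distrib]

theorem iS_mul (c : ℝ) : iS S (fun w => c * f w) = c * iS S f := by
  simp only [iS, mul_sum, mul_left_comm]

theorem iS_sum {τ : Type} (s : Finset τ) {f : τ → AbsoluteValue k ℝ → ℝ} :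
    iS S (fun w => ∑ i ∈ s, f i w) = ∑ i ∈ s, iS S (f i) := by
  simp only [iS, mul_sum]
  exact sum_comm

theorem iS_mono (h : ∀ s : Pl S, f (av s) ≤ g (av s)) : iS S f ≤ iS S g :=
  sum_le_sum fun s _ => mul_le_mul_of_nonneg_left (h s) (Nat.cast_nonneg _)

theorem iS_nonneg (h : ∀ w, 0 ≤ f w) : 0 ≤ iS S f :=
  sum_nonneg fun _ _ => mul_nonneg (Nat.cast_nonneg _) (h _)

theorem iS_eq : iS S f = ∑ w : InfinitePlace k, w.mult * f w.1 + ∑ w ∈ S, f w.1 := by
  rw [iS, Fintype.sum_sum_type, ← sum_coe_sort S]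
  simp [mu, av]

theorem ht_split (S : Finset (FinitePlace k)) {ι : Type} [Finite ι] {x : ι → k} (hx : x ≠ 0) :
    logHeight x = iS S (ls x) + oS S (ls x) := by
  classical
  have h0 : ∀ w : AbsoluteValue k ℝ, 0 < ⨆ i, w (x i) := fun w =>
    let ⟨a, ha⟩ := Function.ne_iff.1 hx
    (w.pos ha).trans_le (Finite.le_ciSup (fun a => w (x a)) a)
  have h1 := fs_ls x
  have h2 : ∏ᶠ w : FinitePlace k, ⨆ i, w (x i) = ∏ w ∈ h1.toFinset ∪ S, ⨆ i, w (x i) :=
    finprod_eq_prod_of_mulSupport_subset _ fun w hw => mem_coe.2 (mem_union_left _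
      (h1.mem_toFinset.2 fun e => hw (eq_one_of_pos_of_log_eq_zero (h0 w.1) e)))
  rw [logHeight_eq_log_mulHeight, NumberField.mulHeight_eq hx, h2,
    log_mul (prod_ne_zero_iff.2 fun w _ => pow_ne_zero _ (h0 w.1).ne')
      (prod_ne_zero_iff.2 fun w _ => (h0 w.1).ne'),
    log_prod fun w _ => pow_ne_zero _ (h0 w.1).ne', log_prod fun w _ => (h0 w.1).ne', iS_eq,
    oS_eq h1 (U := h1.toFinset ∪ S) subset_union_left, ← sum_sdiff subset_union_right]
  simp only [log_pow, ls]
  rw [add_assoc, add_comm (∑ w ∈ S, _)]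
  rfl

/-- The product formula. -/
theorem pf_split (S : Finset (FinitePlace k)) {c : k} (hc : c ≠ 0) :
    iS S (fun w => log (w c)) + oS S (fun w => log (w c)) = 0 := by
  have h := ht_split S (x := fun _ : Unit => c) fun e => hc (congrFun e ())
  rw [logHeight_eq_zero_of_subsingleton] at h
  have e : ls (fun _ : Unit => c) = fun w => log (w c) := funext fun w => by rw [ls, ciSup_unique]
  rw [← e, ← h]

omit [NumberField k] in
theorem le_ls {ι : Type} [Finite ι] (x : ι → k) (w : AbsoluteValue k ℝ) {i : ι} (h : x i ≠ 0) :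
    log (w (x i)) ≤ ls x w := log_le_log (w.pos h) (Finite.le_ciSup (fun a => w (x a)) i)

omit [NumberField k] in
theorem exists_ls {ι : Type} [Finite ι] {x : ι → k} (hx : x ≠ 0) (w : AbsoluteValue k ℝ) :
    ∃ i, x i ≠ 0 ∧ ls x w = log (w (x i)) := by
  obtain ⟨a, ha⟩ := Function.ne_iff.1 hx
  have : Nonempty ι := ⟨a⟩
  obtain ⟨i, hi⟩ := exists_eq_ciSup_of_finite (f := fun i => w (x i))
  refine ⟨i, fun e => ?_, by rw [ls, hi]⟩
  have := (w.pos ha).trans_le (Finite.le_ciSup (fun a => w (x a)) a)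
  rw [← hi, e, map_zero] at this
  exact this.false

omit [NumberField k] in
theorem le_exp_ls {ι : Type} [Finite ι] (x : ι → k) (w : AbsoluteValue k ℝ) (i : ι) :
    w (x i) ≤ exp (ls x w) := by
  rcases eq_or_ne (x i) 0 with h | h
  · rw [h, map_zero]
    exact (exp_pos _).le
  · exact (log_le_iff_le_exp (w.pos h)).1 (le_ls x w h)

omit [NumberField k] in
theorem ls_le {ι : Type} [Finite ι] {x : ι → k} (hx : x ≠ 0) {w : AbsoluteValue k ℝ} {b : ℝ}
    (h : ∀ i, w (x i) ≤ exp b) : ls x w ≤ b := by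
  obtain ⟨i, h1, h2⟩ := exists_ls hx w
  rw [h2, log_le_iff_le_exp (w.pos h1)]
  exact h i

end Pool.Agent.Lib.MP_651af7_nt.Tb
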