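import Pool.Agent.Lib.MP_651af7_nt.Tb.Eng
import Pool.Agent.Lib.MP_651af7_nt.Fc.Ev

/-! The subspace inequality for functions on the total space, with the height of the subbundle. -/

namespace Pool.Agent.Lib.MP_651af7_nt.Tb

open MvPolynomial Finset Height NumberField Matrix Filter Av As Bx Ds Fc Real
open IntermediateField (adjoin)
open Rt (Pl av mu)
open Es (vol mn)
open Ex (lx)

variable {k K ι β : Type} [Field k] [Field K] [Algebra k K] [Fintype ι]

/-- `y` is a generic point of the variety of `J`, which is birational to an abelian variety, and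
the function field of `J` is algebraically closed in `K`. -/
structure Dt (J : Ideal (MvPolynomial ι k)) (y : ι → K) : Prop where
  var : Var J
  ab : ∃ (m : ℕ) (J' : Ideal (MvPolynomial (Fin m) (AlgebraicClosure k))), Abelian J' ∧
    Birat (J.map (MvPolynomial.map (algebraMap k (AlgebraicClosure k)))) J'
  one : ∃ a, y a = 1
  gen : ∀ (P : MvPolynomial ι k) (d : ℕ), P.IsHomogeneous d → (aeval y P = 0 ↔ P ∈ J)
  cl : ∀ z : K, IsAlgebraic (adjoin k (Set.range y)) z → z ∈ adjoin k (Set.range y)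

variable {J : Ideal (MvPolynomial ι k)} {y : ι → K} {𝓕 : Filter β} {v : β → K → k}

omit [Fintype ι] in
theorem frac (hy : ∃ a, y a = 1) {τ : Type} [Fintype τ] (z : τ → adjoin k (Set.range y)) :
    ∃ (e : ℕ) (A : τ → MvPolynomial ι k) (B : MvPolynomial ι k), (∀ i, (A i).IsHomogeneous e) ∧
      B.IsHomogeneous e ∧ aeval y B ≠ 0 ∧ ∀ i, aeval y (A i) = aeval y B * z i := by
  classical
  have h1 : ∀ i, ∃ A B : MvPolynomial ι k, aeval y B ≠ 0 ∧ aeval y A = aeval y B * z i := by
    intro i
    obtain ⟨A, B, e⟩ := (IntermediateField.mem_adjoin_range_iff k y _).1 (z i).2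
    by_cases hB : aeval y B = 0
    · exact ⟨0, 1, by simp, by simp [e, hB]⟩
    · exact ⟨A, B, hB, by rw [e, mul_div_cancel₀ _ hB]⟩
  choose A B hB hA using h1
  obtain ⟨a, ha⟩ := hy
  let Q : Option τ → MvPolynomial ι k := fun o =>
    o.elim (∏ i, B i) fun i => A i * ∏ j ∈ univ.erase i, B j
  choose R h2 h3 using fun o => As.exists_homog a (Q o) (d := univ.sup fun o => (Q o).totalDegree)
    (le_sup (f := fun o => (Q o).totalDegree) (mem_univ o))
  refine ⟨_, fun i => R (some i), R none, fun i => h2 _, h2 _, ?_, fun i => ?_⟩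
  · rw [h3 _ _ _ ha]
    exact (map_prod (aeval y) B univ).trans_ne (prod_ne_zero_iff.2 fun i _ => hB i)
  · rw [h3 _ _ _ ha, h3 _ _ _ ha]
    simp only [Q, Option.elim, ← mul_prod_erase univ B (mem_univ i), map_mul, hA]
    ring

theorem Dt.gn (D : Dt J y) (h : Sp 𝓕 v) : Gn 𝓕 J fun p a => v p (y a) := by
  obtain ⟨a, ha⟩ := D.one
  refine ⟨h.one.mono fun p hp e => one_ne_zero (hp.symm.trans (ha ▸ congrFun e a)), ?_,
    fun P d h1 h2 => ?_⟩
  · obtain ⟨s, hs⟩ : J.FG := IsNoetherian.noetherian J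
    have h1 : ∀ P ∈ s, ∀ᶠ p in 𝓕, eval (fun a => v p (y a)) P = 0 := fun P hP => by
      have h2 : aeval y P = 0 := by
        rw [← sum_homogeneousComponent P, map_sum]
        exact sum_eq_zero fun d _ => (D.gen _ d (homogeneousComponent_isHomogeneous d P)).2
          (D.var.hom P (hs ▸ Ideal.subset_span hP) d)
      filter_upwards [h.aeval y P, h.zero] with p h3 h4
      rw [← h3, h2, h4]
    refine ((eventually_all_finset s).2 h1).mono fun p hp => ?_
    exact hs ▸ (Ideal.span_le (I := RingHom.ker (eval fun a => v p (y a)))).2 hp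
  · filter_upwards [h.aeval y P, h.ne (mt (D.gen P d h1).1 h2)] with p h3 h4
    rwa [← h3]

theorem Dt.hi [CharZero k] (D : Dt J y) (h : Sp 𝓕 v) {r : ℕ} {t : Fin r → K}
    (ht : LinearIndependent (adjoin k (Set.range y)) t) (L : Type) [Field L] [Algebra k L]
    [FiniteDimensional k L] : HI 𝓕 (fun p a => algebraMap k L (v p (y a)))
      fun p l => algebraMap k L (v p (t l)) := by
  intro α U j hj w hw h0
  let φ : K →+* Up U L :=
    { toFun := fun η => germ U fun m => algebraMap k L (v (j m) η)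
      map_one' := (germ_eq U (g := 1)).2 ((hj.eventually h.one).mono fun m hm => by simp [hm])
      map_zero' := germ_eq_zero.2 ((hj.eventually h.zero).mono fun m hm => by simp [hm])
      map_add' := fun a b => by
        rw [← map_add, germ_eq]
        exact (hj.eventually (h.add a b)).mono fun m hm => by simp [hm]
      map_mul' := fun a b => by
        rw [← map_mul, germ_eq]
        exact (hj.eventually (h.mul a b)).mono fun m hm => by simp [hm] }
  let : Algebra k (Up U L) := ((algebraMap L _).comp (algebraMap k L)).toAlgebra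
  let : Algebra (adjoin k (Set.range y)) (Up U L) := (φ.comp (algebraMap _ K)).toAlgebra
  have : IsScalarTower k L (Up U L) := .of_algebraMap_eq fun _ => rfl
  have : IsScalarTower k (adjoin k (Set.range y)) (Up U L) := .of_algebraMap_eq fun c =>
    (germ_eq U).2 ((hj.eventually (h.const c)).mono fun m hm => congrArg _ hm.symm)
  refine ind { φ with commutes' := fun _ => rfl } (fun z hz => ⟨⟨z, D.cl z hz⟩, rfl⟩) ht
    (fun l => alg_of_cl (k := k) ?_ (hw l)) h0
  rintro _ ⟨a, rfl⟩
  exact ⟨⟨y a, IntermediateField.subset_adjoin _ _ ⟨a, rfl⟩⟩, rfl⟩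

/-- The maximal minors. -/
def mne {R E : Type} [CommRing R] {r : ℕ} (B : Matrix E (Fin r) R) (f : Fin r → E) : R :=
  (B.submatrix f id).det

omit [Fintype ι] in
theorem sp_det (h : Sp 𝓕 v) {σ : Type} [Fintype σ] [DecidableEq σ]
    (M : Matrix σ σ (adjoin k (Set.range y))) :
    ∀ᶠ p in 𝓕, v p (M.det : adjoin k (Set.range y)) = (M.map fun z => v p z).det := by
  filter_upwards [h.aeval (fun s : σ × σ => (M s.1 s.2 : K))
    (Matrix.of fun i j => X (i, j) : Matrix σ σ (MvPolynomial (σ × σ) k)).det] with p hp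
  rw [AlgHom.map_det, RingHom.map_det] at hp
  have e := RingHom.map_det (algebraMap (adjoin k (Set.range y)) K) M
  refine (congrArg (v p) (e.trans (congrArg det ?_))).trans (hp.trans (congrArg det ?_))
  · ext i j
    simp
  · ext i j
    simp

omit [Fintype ι] in
theorem sp_row (h : Sp 𝓕 v) {r : ℕ} (t : Fin r → K) (c : Fin r → adjoin k (Set.range y)) :
    ∀ᶠ p in 𝓕, v p (∑ m, c m • t m) = ∑ m, v p (c m) * v p (t m) := by
  filter_upwards [h.sum univ fun m => c m • t m,
    eventually_all.2 fun m => h.mul (c m) (t m)] with p h1 h2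
  rw [h1]
  exact sum_congr rfl fun m _ => h2 m

variable [NumberField k]

theorem Dt.sub (D : Dt J y) (h : Sp 𝓕 v) {r : ℕ} {t : Fin r → K}
    (ht : LinearIndependent (adjoin k (Set.range y)) t) {E T : Type} [Fintype E] [Fintype T]
    (B : Matrix E (Fin r) (adjoin k (Set.range y))) {f : Fin r → E} (hB : mne B f ≠ 0)
    (G : T → Matrix (Fin r) (Fin r) (adjoin k (Set.range y))) (hG : ∀ τ, (G τ).det ≠ 0) {ε : ℝ}
    (hε : 0 < ε) : ∃ W ∈ 𝓕, ∀ S : Finset (FinitePlace k), ∃ C : ℝ, ∀ p ∈ W, ∀ c : Pl S → T,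
      vol (fun s l => lx (av s) (fun i => v p (∑ m, B i m • t m)) (v p (∑ m, G (c s) l m • t m))) +
        logHeight (mne (B.map fun z => v p z)) ≤ r * logHeight (fun i => v p (∑ m, B i m • t m)) +
          ε * (logHeight (fun a => v p (y a)) + logHeight fun i => v p (∑ m, B i m • t m)) + C := by
  classical
  obtain ⟨e, A, Q, a1, a2, a3, a4⟩ := frac D.one
    (Sum.elim (fun u : T × Fin r × Fin r => G u.1 u.2.1 u.2.2) fun u : E × Fin r => B u.1 u.2)
  let q := Fintype.equivFin E
  let M : T → Matrix (Fin r) (Fin r) (MvPolynomial ι k) := fun τ => of fun i j => A (.inl (τ, i, j))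
  let N : Matrix (Fin (Fintype.card E)) (Fin r) (MvPolynomial ι k) :=
    of fun i j => A (.inr (q.symm i, j))
  obtain ⟨m, J', j1, j2⟩ := D.ab
  obtain ⟨W, hW, h1⟩ := sbb_model D.var j1 j2 (D.gn h) (D.hi h ht) _ T e N (q ∘ f) M
    (fun i j => a1 _) (fun τ i j => a1 _) ε hε
  have b0 : ∀ᶠ p in 𝓕, ∀ u, eval (fun a => v p (y a)) (A u) = eval (fun a => v p (y a)) Q *
      v p (Sum.elim (fun u : T × Fin r × Fin r => G u.1 u.2.1 u.2.2)
        (fun u : E × Fin r => B u.1 u.2) u : adjoin k (Set.range y)) :=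
    eventually_all.2 fun u => by
      filter_upwards [h.aeval y (A u), h.aeval y Q, h.mul (aeval y Q) _] with p h2 h3 h4
      rw [← h2, a4, h4, h3]
  have b1 : ∀ {s : Matrix (Fin r) (Fin r) (adjoin k (Set.range y))}, s.det ≠ 0 →
      ∀ᶠ p in 𝓕, (s.map fun z => v p z).det ≠ 0 := fun {s} hs => by
    filter_upwards [sp_det h s, h.ne (a := (s.det : adjoin k (Set.range y)))
      (fun e => hs (Subtype.ext e))] with p h2 h3
    rwa [← h2]
  have b2 : ∀ u : T × Fin r, ∀ᶠ p in 𝓕, v p (∑ m, G u.1 u.2 m • t m) ≠ 0 := fun ⟨τ, l⟩ =>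
    h.ne fun e => hG τ (det_eq_zero_of_row_eq_zero l (Fintype.linearIndependent_iff.1 ht _ e))
  have b3 := (D.gn h).gen Q e a2 (mt (D.gen Q e a2).2 a3)
  refine ⟨_, inter_mem hW ((b0.and b3).and (((b1 hB).and (eventually_all.2 fun τ => b1 (hG τ))).and
    ((eventually_all.2 b2).and ((eventually_all.2 fun i => sp_row h t (B i)).and
      (eventually_all.2 fun u : T × Fin r => sp_row h t (G u.1 u.2)))))), fun S => ?_⟩
  obtain ⟨C, hC⟩ := h1 S
  refine ⟨C, fun p ⟨p1, ⟨p2, p3⟩, ⟨p4, p5⟩, p6, p7, p8⟩ c => ?_⟩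
  have e1 : ∀ τ, (M τ).map (eval fun a => v p (y a)) =
      eval (fun a => v p (y a)) Q • (G τ).map fun z => v p z := fun τ => by
    ext i j
    exact p2 (.inl (τ, i, j))
  have e2 : N.map (eval fun a => v p (y a)) =
      eval (fun a => v p (y a)) Q • (B.map fun z => v p z).submatrix q.symm id := by
    ext i j
    exact p2 (.inr (q.symm i, j))
  have e3 : ((B.map fun z => v p z).submatrix q.symm id *ᵥ fun m => v p (t m)) =
      (fun i => v p (∑ m, B i m • t m)) ∘ q.symm := funext fun i => (p7 _).symm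
  have e4 : ∀ τ l, (((G τ).map fun z => v p z) *ᵥ fun m => v p (t m)) l =
      v p (∑ m, G τ l m • t m) := fun τ l => (p8 (τ, l)).symm
  have e5 : mn ((B.map fun z => v p z).submatrix q.symm id) =
      mne (B.map fun z => v p z) ∘ (Equiv.refl (Fin r)).arrowCongr q.symm := rfl
  have e6 : ∀ (w : AbsoluteValue k ℝ) (Y : E → k) (l : k), lx w (Y ∘ q.symm) l = lx w Y l :=
    fun w Y l => congrArg (fun s => Real.log (s / w l)) (q.symm.iSup_comp (g := fun i => w (Y i)))
  have h2 := hC p p1 c
  simp only [e1, e2, Matrix.smul_mulVec, Pi.smul_apply, smul_eq_mul, det_smul, Es.mn_smul,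
    lx_smul _ p3, logHeight_smul_eq_logHeight _ p3, e3, e4, e5, e6, logHeight_comp_equiv,
    logHeight_smul_eq_logHeight _ (pow_ne_zero r p3)] at h2
  refine h2 (mul_ne_zero (pow_ne_zero _ p3) ?_) (fun s => mul_ne_zero (pow_ne_zero _ p3) (p5 _))
    fun s l => mul_ne_zero p3 (p6 (_, l))
  have e7 : (Equiv.refl (Fin r)).arrowCongr q.symm (q ∘ f) = f := funext fun l => by simp
  rw [Function.comp_apply, e7]
  exact p4

/-- Faltings' theorem for the functions on the base. -/
theorem Dt.fal (D : Dt J y) (h : Sp 𝓕 v) (z : adjoin k (Set.range y)) :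
    Ev 𝓕 (fun p => logHeight fun i => v p (y i)) fun p w E => w (v p z) ≤ exp E := by
  rcases eq_or_ne z 0 with rfl | hz
  · exact (ev_const (fun _ => logHeight_nonneg _) 0).mono (h.zero.mono fun p hp w E _ _ => by
      simp [hp, (exp_pos E).le])
  intro ε hε
  obtain ⟨W, hW, h1⟩ := D.sub h (t := fun _ : Fin 1 => 1)
    (linearIndependent_unique_iff.2 one_ne_zero) (1 : Matrix (Fin 1) (Fin 1) _) (f := id)
    (by simp [mne]) (fun b : Bool => Matrix.of fun _ _ => if b then z⁻¹ else 1)
    (fun b => by cases b <;> simp [hz]) hε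
  refine ⟨_, inter_mem hW (h.one.and (h.inv (z : K))), fun S => (h1 S).imp fun C hC p hp => ?_⟩
  refine ⟨fun s => log⁺ (av s (v p z)), fun s => posLog_nonneg, ?_, fun s E e => ?_⟩
  · have h2 := hC p hp.1 fun s => decide (1 ≤ av s (v p z))
    simp only [vol, univ_unique, sum_singleton, logHeight_eq_zero_of_subsingleton,
      mul_zero, zero_add, add_zero, lx, ciSup_unique, Matrix.of_apply, one_apply_eq, one_smul,
      hp.2.1, map_one] at h2
    refine le_trans (sum_le_sum fun s _ => mul_le_mul_of_nonneg_left ?_ (Nat.cast_nonneg _)) h2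
    by_cases h3 : 1 ≤ av s (v p z)
    · simp [h3, Algebra.smul_def, hp.2.2, posLog_eq_log (abs_eq_self.2 ((av s).nonneg _) ▸ h3 :)]
    · simp [h3, hp.2.1, (posLog_eq_zero_iff _).2 (abs_eq_self.2 ((av s).nonneg _) ▸
        (not_le.1 h3).le :)]
  · refine le_trans ?_ (exp_le_exp.2 e)
    simp only [posLog_eq_log_max_one ((av s).nonneg _)]
    rw [exp_log (by positivity)]
    exact le_max_right _ _

end Pool.Agent.Lib.MP_651af7_nt.Tb
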