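import Pool.Agent.Lib.MP_651af7_nt.Tb.Gc3

/-! Specialisation of polynomials and matrices over the function field of the base. -/

namespace Pool.Agent.Lib.MP_651af7_nt.Tb

open MvPolynomial Finset Height NumberField Matrix Filter Fc Real
open IntermediateField (adjoin)

variable {k K β : Type} [Field k] [Field K] [Algebra k K] {n N r : ℕ} {F : IntermediateField k K}
  {𝓕 : Filter β} {v : β → K → k}

/-- The polynomial with the coefficients `g (coeff ν P)`. -/
noncomputable def spz (g : K → k) (d : Fin n →₀ ℕ) (P : MvPolynomial (Fin n) F) :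
    MvPolynomial (Fin n) k := ∑ ν ∈ Iic d, monomial ν (g (coeff ν P : F))

theorem coeff_spz {g : K → k} (hg : g 0 = 0) {d : Fin n →₀ ℕ} {P : MvPolynomial (Fin n) F}
    (hd : ∀ ν ∈ P.support, ν ≤ d) (ν : Fin n →₀ ℕ) : coeff ν (spz g d P) = g (coeff ν P : F) := by
  classical
  simp only [spz, coeff_sum, coeff_monomial, sum_ite_eq', mem_Iic]
  split_ifs with h
  · rfl
  · rw [notMem_support_iff.1 (mt (hd ν) h)]
    exact hg.symm

theorem supp_spz (g : K → k) (d : Fin n →₀ ℕ) (P : MvPolynomial (Fin n) F) :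
    ∀ ν ∈ (spz g d P).support, ν ≤ d := fun ν hν => by
  classical
  by_contra h
  simp [spz, coeff_sum, coeff_monomial, h] at hν

theorem sp_lam (h : Sp 𝓕 v) {f : Bool → MvPolynomial (Fin n) F} {d : Fin n →₀ ℕ}
    (hd : ∀ b, ∀ ν ∈ (f b).support, ν ≤ d) (a b : Fin n →₀ ℕ) :
    ∀ᶠ p in 𝓕, Lam (fun b => spz (v p) d (f b)) a b = (Lam f a b).map fun z => v p z := by
  classical
  have h1 : ∀ u : Box a × Bool × Box b, ∀ᶠ p in 𝓕,
      Lam (fun b => spz (v p) d (f b)) a b u.1 u.2 = v p (Lam f a b u.1 u.2 : F) := fun u => by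
    filter_upwards [h.zero, h.const (if u.2.1 then 1 else -1),
      h.mul (algebraMap k K (if u.2.1 then 1 else -1)) (coeff (u.2.2.1 - u.1.1) (f !u.2.1) : F)]
      with p h2 h3 h4
    simp only [Lam, coeff_monomial_mul', coeff_spz h2 (hd _)]
    by_cases e : u.1.1 ≤ u.2.2.1
    · rw [if_pos e, if_pos e, ← h3, ← h4]
      cases u.2.1 <;> simp
    · rw [if_neg e, if_neg e]
      exact h2.symm
  exact (eventually_all.2 h1).mono fun p hp => Matrix.ext fun γ e => hp (γ, e)

theorem sp_mul (h : Sp 𝓕 v) {A B C : Type} [Finite A] [Fintype B] [Finite C] (P : Matrix A B F)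
    (Q : Matrix B C F) :
    ∀ᶠ p in 𝓕, ((P * Q).map fun z => v p z) = (P.map fun z => v p z) * Q.map fun z => v p z := by
  have h1 : ∀ u : A × C, ∀ᶠ p in 𝓕, v p ((P * Q) u.1 u.2 : F) =
      ∑ i, v p (P u.1 i) * v p (Q i u.2) := fun u => by
    filter_upwards [h.sum univ fun i => (P u.1 i : K) * Q i u.2,
      eventually_all.2 fun i => h.mul (P u.1 i) (Q i u.2)] with p h2 h3
    rw [Matrix.mul_apply]
    push_cast
    rw [h2]
    exact sum_congr rfl fun i _ => h3 i
  exact (eventually_all.2 h1).mono fun p hp => Matrix.ext fun i j => hp (i, j)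

theorem sp_mon (h : Sp 𝓕 v) (t : Fin n → K) (e : Fin n → ℕ) (z : K) :
    ∀ᶠ p in 𝓕, v p ((∏ j, t j ^ e j) * z) = (∏ j, v p (t j) ^ e j) * v p z := by
  filter_upwards [h.mul (∏ j, t j ^ e j) z, h.prod univ fun j => t j ^ e j,
    eventually_all.2 fun j => h.pow (t j) (e j)] with p h1 h2 h3
  rw [h1, h2, prod_congr rfl fun j _ => h3 j]

theorem sp_twi (h : Sp 𝓕 v) {E : Type} [Finite E] (η : Fin n × Fin N → F) (α : E → Fin n →₀ ℕ)
    (B : Matrix E (Fin r) F) : ∀ᶠ p in 𝓕, ((twi η α B).map fun z => v p z) =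
      twi (fun s => v p (η s)) α (B.map fun z => v p z) := by
  have h1 : ∀ u : (E × (Fin n → Fin N)) × Fin r, ∀ᶠ p in 𝓕, v p (twi η α B u.1 u.2 : F) =
      twi (fun s => v p (η s)) α (B.map fun z => v p z) u.1 u.2 := fun u => by
    filter_upwards [sp_mon h (fun j => (η (j, u.1.2 j) : K)) (α u.1.1) (B u.1.1 u.2)] with p hp
    simp only [twi]
    push_cast
    exact hp
  exact (eventually_all.2 h1).mono fun p hp => Matrix.ext fun i j => hp (i, j)

theorem aeval_mon (t : Fin n → K) (κ : Fin n →₀ ℕ) (Q : MvPolynomial (Fin n) F) :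
    aeval t (monomial κ 1 * Q) = (∏ j, t j ^ κ j) * aeval t Q := by
  rw [map_mul, aeval_monomial, map_one, one_mul, Finsupp.prod_fintype _ _ fun _ => pow_zero _]

theorem sp_box (h : Sp 𝓕 v) (t : Fin n → K) (κ : Fin n →₀ ℕ) {Q : MvPolynomial (Fin n) F}
    {b : Fin n →₀ ℕ} (hQ : ∀ μ ∈ Q.support, μ ≤ b) :
    ∀ᶠ p in 𝓕, v p (aeval t (monomial κ 1 * Q)) = (∏ j, v p (t j) ^ κ j) *
      ∑ μ : Box b, v p (coeff μ.1 Q : F) * ∏ j, v p (t j) ^ μ.1 j := by
  have e : aeval t Q = ∑ μ : Box b, (∏ j, t j ^ μ.1 j) * (coeff μ.1 Q : F) := by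
    rw [sum_coe_sort (Iic b) fun μ => (∏ j, t j ^ μ j) * ((coeff μ Q : F) : K), aeval_def,
      eval₂_eq']
    refine (sum_congr rfl fun μ _ => mul_comm _ _).trans (sum_subset
      (fun μ hμ => mem_Iic.2 (hQ μ hμ)) fun μ _ hμ => ?_)
    rw [notMem_support_iff.1 hμ]
    exact mul_zero _
  filter_upwards [sp_mon h t κ (aeval t Q),
    h.sum univ fun μ : Box b => (∏ j, t j ^ μ.1 j) * (coeff μ.1 Q : F),
    eventually_all.2 fun μ : Box b => sp_mon h t μ.1 (coeff μ.1 Q : F)] with p h1 h2 h3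
  rw [aeval_mon, h1, e, h2, sum_congr rfl fun μ _ => (h3 μ).trans (mul_comm _ _)]

theorem supp_zz {R : Type} [CommRing R] {f : Bool → MvPolynomial (Fin n) R} {d b : Fin n →₀ ℕ}
    (hd : ∀ b, ∀ ν ∈ (f b).support, ν ≤ d) {τ : Type} [Fintype τ] (c : τ → R)
    (e : τ → Bool × Box b) : ∀ μ ∈ (∑ m, c m • zz f b (e m)).support, μ ≤ b + d := fun μ hμ => by
  classical
  rw [mem_support_iff, coeff_sum] at hμ
  obtain ⟨m, -, hm⟩ := exists_ne_zero_of_sum_ne_zero hμ
  rw [coeff_smul, zz, coeff_monomial_mul'] at hm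
  split_ifs at hm with h
  · rw [← add_tsub_cancel_of_le h]
    exact add_le_add (mem_Iic.1 (e m).2.2)
      (hd (e m).1 _ (mem_support_iff.2 fun h' => hm (by simp [h'])))
  · exact absurd (smul_zero _) hm

theorem ht_poly [NumberField k] {σ τ : Type} [Finite σ] [Fintype τ] (Q : τ → MvPolynomial σ k) :
    ∃ (D : ℕ) (C : ℝ), ∀ P : σ → k, logHeight (fun i => eval P (Q i)) ≤
      D * logHeight (fun o : Option σ => o.elim 1 P) + C := by
  choose R h1 h2 using fun i => As.exists_homog none (rename some (Q i))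
    (d := univ.sup fun i => (rename some (Q i)).totalDegree)
    (le_sup (f := fun i => (rename some (Q i)).totalDegree) (mem_univ i))
  obtain ⟨C, hC⟩ := logHeight_eval_le' h1
  refine ⟨_, C, fun P => le_of_eq_of_le (congrArg _ (funext fun i => ?_))
    ((hC _).trans_eq (add_comm _ _))⟩
  have := h2 i k (fun o => o.elim 1 P) rfl
  rw [aeval_rename] at this
  exact this.symm

end Pool.Agent.Lib.MP_651af7_nt.Tb
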