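import Pool.Agent.Lib.MP_651af7_nt.Tb.Ph
import Pool.Agent.Lib.MP_651af7_nt.Hy.Main

/-! The coefficients of two polynomials in the fibre coordinates: codimension two on the base. -/

namespace Pool.Agent.Lib.MP_651af7_nt.Tb

open MvPolynomial Finset Height NumberField Matrix Filter Bx Ds Fc Real
open IntermediateField (adjoin)
open Rt (Pl av mu)
open Av (td rat)

variable {k K : Type} [Field k] [Field K] [Algebra k K] {n N : ℕ}
  {I : Ideal (MvPolynomial (Fin n × Fin N) k)} {ξ : Fin n × Fin N → K}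
  {y : (Fin n → Fin N) → K} {t : Fin n → K} {η : Fin n × Fin N → adjoin k (Set.range y)}

theorem cod_deg {μ : Fin n → ℕ} {P : MvPolynomial (Fin n × Fin N) k} {d : Fin n × Fin N →₀ ℕ}
    (hd : coeff d (cp μ P) ≠ 0) (j : Fin n) : μ j = ∑ s, if j = s.1 then d s else 0 := by
  have h := weightedHomogeneousComponent_isWeightedHomogeneous
    (w := fun s : Fin n × Fin N => (Pi.single s.1 1 : Fin n → ℕ)) μ P hd
  rw [← h, Finsupp.weight_apply, Finsupp.sum_fintype _ _ (by simp), Finset.sum_apply]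
  exact sum_congr rfl fun s _ => by simp [Pi.single_apply]

theorem cod_hom (μ : Fin n → ℕ) (P : MvPolynomial (Fin n × Fin N) k) :
    (cp μ P).IsHomogeneous (∑ j, μ j) := fun d hd => by
  simp only [cod_deg hd]
  rw [sum_comm, Finsupp.weight_apply, Finsupp.sum_fintype _ _ (by simp)]
  simp

theorem cod_scale {S : Type} [CommRing S] [Algebra k S] (T : Fin n → S) (u : Fin n × Fin N → S)
    (μ : Fin n → ℕ) (P : MvPolynomial (Fin n × Fin N) k) :
    aeval (fun s => T s.1 * u s) (cp μ P) = (∏ j, T j ^ μ j) * aeval u (cp μ P) := by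
  rw [aeval_def, aeval_def, eval₂_eq', eval₂_eq', mul_sum]
  refine sum_congr rfl fun d hd => ?_
  simp only [cod_deg (mem_support_iff.1 hd), mul_pow, prod_mul_distrib, ← prod_pow_eq_pow_sum]
  rw [Finset.prod_comm, mul_left_comm]
  simp

/-- The coordinates of the Segre embedding that differ from `a` in one block. -/
theorem cod_seg {S : Type} [CommRing S] [Algebra k S] (u : Fin n × Fin N → S) (a : Fin n → Fin N)
    (μ : Fin n → ℕ) (P : MvPolynomial (Fin n × Fin N) k) :
    aeval (fun b : Fin n → Fin N => ∏ j, u (j, b j))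
      (rename (fun s => Function.update a s.1 s.2) (cp μ P)) =
      (∏ i, u (i, a i) ^ ∑ j ∈ univ.erase i, μ j) * aeval u (cp μ P) := by
  have e : (fun b : Fin n → Fin N => ∏ j, u (j, b j)) ∘
      (fun s : Fin n × Fin N => Function.update a s.1 s.2) =
      fun s => (∏ i ∈ univ.erase s.1, u (i, a i)) * u s := funext fun s => by
    rw [Function.comp_apply, ← prod_erase_mul _ _ (mem_univ s.1), Function.update_self]
    exact congrArg (· * _) (prod_congr rfl fun i hi => by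
      rw [Function.update_of_ne (ne_of_mem_erase hi)])
  rw [aeval_rename, e, cod_scale (fun j => ∏ i ∈ univ.erase j, u (i, a i))]
  simp only [← prod_pow, ← prod_pow_eq_pow_sum]
  rw [prod_comm' (t' := univ) (s' := fun i => univ.erase i) (by simp [eq_comm])]

theorem cod_rel (a b : Fin n → Fin N) :
    X a * ∏ j, X (Function.update a j (b j)) - X b * X a ^ n ∈ base I := by
  rw [base, Ideal.mem_comap]
  convert I.zero_mem
  simp only [map_sub, map_mul, map_prod, map_pow, aeval_X, sub_eq_zero]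
  rw [Finset.prod_comm, ← prod_pow, ← prod_mul_distrib, ← prod_mul_distrib]
  refine prod_congr rfl fun i _ => ?_
  rw [← prod_erase_mul _ _ (mem_univ i), Function.update_self, prod_congr rfl fun j hj => by
    rw [Function.update_of_ne (ne_of_mem_erase hj).symm], prod_const, card_erase_of_mem
    (mem_univ i), card_univ, Fintype.card_fin, ← mul_assoc, ← pow_succ',
    Nat.sub_add_cancel i.pos, mul_comm]

theorem cod_td [CharZero k] {κ E : Type} [Fintype κ] [Field E] [Algebra k E]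
    {J : Ideal (MvPolynomial κ k)} {g : ℕ} (hs : Smooth J g) {x : κ → E} (h0 : x ≠ 0)
    (hx : ∀ P ∈ J, aeval x P = 0) : td k (Set.range x) ≤ g + 1 := by
  obtain ⟨σ, j, hj, h1, h2, -⟩ := Av.exists_td_basis_range k x
  have := Finite.of_injective j hj
  obtain ⟨m, ⟨e⟩⟩ := Finite.exists_equiv_fin σ
  obtain ⟨S, Δ, c, h3, h4⟩ := Hy.exists_chart hs h0 hx
  have h5 := (Hy.le_rank hx (z := fun i => X (j (e.symm i))) (by
    simp only [aeval_X]
    exact h1.comp _ e.symm.injective)).trans (h3.rank_le h4)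
  rw [← h2, ENat.card_congr e, ENat.card_eq_coe_fintype_card, Fintype.card_fin]
  exact_mod_cast h5

theorem Su.cod_td [CharZero k] (U : Su I ξ y t η) {g : ℕ} (hs : Smooth (base I) g) :
    td k (Set.range ξ) ≤ g + n := by
  obtain ⟨a, ha⟩ := U.dt.one
  have h0 : y ≠ 0 := Function.ne_iff.2 ⟨a, ha.trans_ne one_ne_zero⟩
  have h1 : ∀ P ∈ base I, aeval (fun b => algebraMap K (RatFunc K) (y b)) P = 0 := fun P hP => by
    rw [Av.aeval_alg, ← sum_homogeneousComponent P, map_sum, sum_eq_zero fun d _ =>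
      (U.dt.gen _ d (homogeneousComponent_isHomogeneous d P)).2 (U.dt.var.hom P hP d), map_zero]
  have h2 := (Av.tr_cone (K := k) (RatFunc.transcendental_X (K := K)) h0).trans (Tb.cod_td hs
    (Function.ne_iff.2 ⟨a, by simp [ha, RatFunc.X_ne_zero]⟩)
    (Av.zero_mul_of_hom U.dt.var.hom h1 _))
  have h3 : td k (Set.range y) ≤ g := (Av.td_mono (by
    rintro _ ⟨b, rfl⟩
    exact ⟨(b, a), by simp [ha]⟩)).trans ((ENat.add_le_add_iff_right ENat.one_ne_top).1 h2)
  obtain ⟨L, hL, h4⟩ := Av.tr_cl (K := k) (Set.range y ∪ Set.range t)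
  have h5 : adjoin k (Set.range y) ≤ L :=
    IntermediateField.adjoin_le_iff.2 (Set.subset_union_left.trans h4)
  refine (Av.tr_td_le (S := Set.range y ∪ Set.range t) ?_).trans ((Av.td_union_le _ _).trans
    (add_le_add h3 ((Av.td_le_encard _).trans ?_)))
  · rintro _ ⟨s, rfl⟩
    rw [← hL, U.mul]
    exact L.mul_mem (h4 (Or.inr ⟨_, rfl⟩)) (h5 (η s).2)
  · rw [← Set.image_univ]
    simpa using Set.encard_image_le t Set.univ

/-- The forms on the base. -/
noncomputable def cY (P : MvPolynomial (Fin n × Fin N) k) (μ : Fin n → ℕ) (D : ℕ)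
    (a : Fin n → Fin N) : MvPolynomial (Fin n → Fin N) k :=
  rename (fun s => Function.update a s.1 s.2) (cp μ P) * X a ^ (D - ∑ j, μ j)

theorem cY_hom (P : MvPolynomial (Fin n × Fin N) k) {μ : Fin n → ℕ} {D : ℕ} (h : ∑ j, μ j ≤ D)
    (a : Fin n → Fin N) : (cY P μ D a).IsHomogeneous D := by
  have h1 := ((cod_hom μ P).rename_isHomogeneous (f := fun s => Function.update a s.1 s.2)).mul
    (isHomogeneous_X_pow a (D - ∑ j, μ j))
  rwa [Nat.add_sub_cancel' h] at h1

theorem cY_val {S : Type} [CommRing S] [Algebra k S] (u : Fin n × Fin N → S)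
    (P : MvPolynomial (Fin n × Fin N) k) {μ : Fin n → ℕ} {D : ℕ} (h : ∑ j, μ j ≤ D)
    (a : Fin n → Fin N) : aeval (fun b : Fin n → Fin N => ∏ j, u (j, b j)) (cY P μ D a) =
      aeval u (cp μ P) * ∏ j, u (j, a j) ^ (D - μ j) := by
  rw [cY, map_mul, cod_seg, map_pow, aeval_X, ← prod_pow, mul_right_comm, mul_comm,
    ← prod_mul_distrib]
  refine congrArg _ (prod_congr rfl fun i _ => ?_)
  have h1 := sum_erase_add univ μ (mem_univ i)
  rw [← pow_add]
  congr 1
  omega

theorem cod_low {E : Type} [Field E] [Algebra k E] {x : (Fin n → Fin N) → E} {a : Fin n → Fin N}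
    (hx : ∀ P ∈ base I, aeval x P = 0) (ha : x a ≠ 0) {g : ℕ} {j : Fin g → Fin n → Fin N}
    (hj : AlgebraicIndependent k fun l => x (j l)) :
    (g : ℕ∞) + n ≤ td k (Set.range fun s : Fin n × Fin N => algebraMap (MvPolynomial (Fin n) E)
      (FractionRing (MvPolynomial (Fin n) E)) (C (x (Function.update a s.1 s.2)) * X s.1)) + 1 := by
  set w := fun s : Fin n × Fin N => algebraMap (MvPolynomial (Fin n) E)
    (FractionRing (MvPolynomial (Fin n) E)) (C (x (Function.update a s.1 s.2)) * X s.1)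
  let i := algebraMap E (FractionRing (MvPolynomial (Fin n) E))
  let T : Fin n → FractionRing (MvPolynomial (Fin n) E) :=
    IsScalarTower.toAlgHom E (MvPolynomial (Fin n) E) _ ∘ X
  have hT : AlgebraicIndependent E T :=
    (MvPolynomial.algebraicIndependent_X _ _).map' (IsFractionRing.injective _ _)
  have hw : ∀ s, w s = i (x (Function.update a s.1 s.2)) * T s.1 := fun s => map_mul _ _ _
  have h1 := Av.card_le_td (hj.sumElim_comp hT) (S := Set.range T ∪ Set.range fun b => i (x b))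
    (by
      rintro (l | l)
      exacts [Or.inl ⟨l, rfl⟩, Or.inr ⟨j l, rfl⟩])
  obtain ⟨L, hL, h4⟩ := Av.tr_cl (K := k) (insert (i (x a)) (Set.range w))
  have c0 : i (x a) ≠ 0 := (map_ne_zero i).2 ha
  have c1 : i (x a) ∈ L := h4 (Or.inl rfl)
  have c2 : ∀ l, T l ∈ L := fun l => by
    have h2 : w (l, a l) ∈ L := h4 (Or.inr ⟨_, rfl⟩)
    rw [hw, Function.update_eq_self] at h2
    simpa [c0] using L.mul_mem (L.inv_mem c1) h2
  have c3 : ∀ l b, i (x (Function.update a l b)) ∈ L := fun l b => by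
    have h2 : w (l, b) ∈ L := h4 (Or.inr ⟨_, rfl⟩)
    rw [hw] at h2
    simpa [hT.ne_zero l] using L.mul_mem h2 (L.inv_mem (c2 l))
  rw [ENat.card_sum, add_comm] at h1
  refine le_trans (by simp) (h1.trans ((Av.tr_td_le ?_).trans (Av.td_insert_le (i (x a)) _)))
  rw [← hL]
  rintro _ (⟨l, rfl⟩ | ⟨b, rfl⟩)
  · exact c2 l
  · have h2 := congrArg i (hx _ (cod_rel a b))
    simp only [map_sub, map_mul, map_prod, map_pow, aeval_X, map_zero, sub_eq_zero] at h2
    have h3 := L.mul_mem (L.mul_mem c1 (prod_mem fun l (_ : l ∈ univ) => c3 l (b l)))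
      (L.inv_mem (pow_mem c1 n))
    rwa [h2, mul_inv_cancel_right₀ (pow_ne_zero _ c0)] at h3

theorem Su.cod_cod [CharZero k] (U : Su I ξ y t η) {g : ℕ} (hg : 0 < g) (hs : Smooth (base I) g)
    {f : Bool → MvPolynomial (Fin n × Fin N) k} (hf : Ht2 I f) {τ : Type}
    (ν : τ → Fin n →₀ ℕ) (hν : ∀ b μ, coeff μ (Ph η (f b)) ≠ 0 → μ ∈ Set.range ν) (D : ℕ) :
    Hy.Cod (base I) (fun q : (Bool × τ) × (Fin n → Fin N) => cY (f q.1.1) (ν q.1.2) D q.2) g := by
  intro E _ _ x hx hY j hj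
  have ha : x (j ⟨0, hg⟩) ≠ 0 := hj.ne_zero _
  set a := j ⟨0, hg⟩
  let u : Fin n × Fin N → E := fun s => x (Function.update a s.1 s.2)
  have h1 : ∀ μ P, cp μ P ∈ I → aeval u (cp μ P) = 0 := fun μ P hP => by
    refine (aeval_rename _ x _).symm.trans (hx _ ?_)
    rw [base, Ideal.mem_comap, cod_seg (fun s => X s), aeval_X_left_apply]
    exact I.mul_mem_left _ hP
  let φ := (IsScalarTower.toAlgHom k (MvPolynomial (Fin n) E)
    (FractionRing (MvPolynomial (Fin n) E))).comp (Ph u)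
  have h2 : ∀ P, (∀ μ : Fin n →₀ ℕ, aeval u (cp μ P) = 0) → φ P = 0 := fun P hP =>
    (map_eq_zero_iff _ (IsFractionRing.injective (MvPolynomial (Fin n) E) _)).2
      (MvPolynomial.ext _ 0 fun μ => (coeff_Ph u P μ).trans (hP μ))
  let ψ := Ideal.Quotient.liftₐ I φ fun P hP => h2 P fun μ => h1 _ _ (U.hom P hP μ)
  have hp : (RingHom.ker ψ).IsPrime := RingHom.ker_isPrime ψ
  have h3 := cod_low hx ha hj
  set w := fun s : Fin n × Fin N => algebraMap (MvPolynomial (Fin n) E)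
    (FractionRing (MvPolynomial (Fin n) E)) (C (x (Function.update a s.1 s.2)) * X s.1)
  have hw : ∀ s, ψ (Ideal.Quotient.mk I (X s)) = w s := fun s =>
    congrArg (algebraMap (MvPolynomial (Fin n) E) _) (Ph_X (k := k) u s)
  have h4 := hf _ hp (fun b => h2 _ fun μ => by
    by_cases h : μ ∈ Set.range ν
    · obtain ⟨q, rfl⟩ := h
      have h5 : aeval x (cY (f b) (ν q) D a) = 0 := hY ((b, q), a)
      rw [cY, map_mul, map_pow, aeval_X, aeval_rename] at h5
      exact (mul_eq_zero.1 h5).resolve_right (pow_ne_zero _ ha)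
    · exact h1 _ _ ((U.coeff_eq_zero _ _).1 (not_not.1 (mt (hν b μ) h)))) fun l =>
    ⟨a l, fun e => by
      have h5 := (hw _).symm.trans e
      simp [w, ha] at h5⟩
  have hI : I.IsPrime := by
    rw [show I = RingHom.ker (aeval ξ : _ →ₐ[k] K) from Ideal.ext fun P => (U.ker P).symm]
    exact RingHom.ker_isPrime _
  obtain ⟨σ, r, hr, r1, r2, -⟩ := Av.exists_td_basis_range k w
  have := Finite.of_injective r hr
  obtain ⟨m, ⟨e⟩⟩ := Finite.exists_equiv_fin σ
  obtain ⟨z, hz⟩ := Hy.indep_add_two (k := k) (RingHom.ker ψ) h4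
    (z := fun l => Ideal.Quotient.mk I (X (r (e.symm l))))
    (.of_comp (Ideal.Quotient.liftₐ (RingHom.ker ψ) ψ fun _ ha => ha) (by
      have e' : (Ideal.Quotient.liftₐ (RingHom.ker ψ) ψ fun _ ha => ha) ∘ (fun l =>
          Ideal.Quotient.mk (RingHom.ker ψ) (Ideal.Quotient.mk I (X (r (e.symm l))))) =
          (w ∘ r) ∘ e.symm := funext fun l => hw _
      rw [e']
      exact r1.comp _ e.symm.injective))
  let χ := Ideal.Quotient.liftₐ I (aeval ξ) fun P => (U.ker P).2
  have hχ : Function.Injective χ := by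
    rw [injective_iff_map_eq_zero]
    intro a ha
    obtain ⟨P, rfl⟩ := Ideal.Quotient.mk_surjective a
    exact Ideal.Quotient.eq_zero_iff_mem.2 ((U.ker P).1 ha)
  have h5 := (Av.card_le_td (hz.map' hχ) (S := Algebra.adjoin k (Set.range ξ)) fun l => by
    obtain ⟨P, hP⟩ := Ideal.Quotient.mk_surjective (z l)
    rw [Function.comp_apply, ← hP, Algebra.adjoin_range_eq_range_aeval]
    exact ⟨P, rfl⟩).trans ((Av.td_le_of_adjoin subset_rfl).trans (U.cod_td hs))
  rw [← r2, ENat.card_congr e] at h3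
  rw [ENat.card_eq_coe_fintype_card, Fintype.card_fin] at h3 h5
  have h6 : m + 2 ≤ m + 1 := by exact_mod_cast h5.trans h3
  omega

theorem Su.cod_sp (U : Su I ξ y t η) {β : Type} {𝓕 : Filter β} {v : β → K → k} (h : Sp 𝓕 v)
    (P : MvPolynomial (Fin n × Fin N) k) {μ : Fin n →₀ ℕ} {D : ℕ} (hD : ∑ j, μ j ≤ D)
    (a : Fin n → Fin N) : ∀ᶠ p in 𝓕, eval (fun a => v p (y a)) (cY P μ D a) =
      v p (coeff μ (Ph η P) : adjoin k (Set.range y)) * ∏ j, v p (η (j, a j)) ^ (D - μ j) := by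
  have h2 := cY_val (fun s => (η s : K)) P hD a
  have h3 : aeval (fun s => (η s : K)) (cp μ P) = (coeff μ (Ph η P) : adjoin k (Set.range y)) := by
    rw [coeff_Ph]
    exact Av.aeval_alg (B := K) η _
  have h0 : (fun b : Fin n → Fin N => ∏ j, (η (j, b j) : K)) = y := (funext U.seg).symm
  rw [h3, h0] at h2
  filter_upwards [h.aeval y (cY P μ D a), h.mul (coeff μ (Ph η P) : adjoin k (Set.range y))
    (∏ j, (η (j, a j) : K) ^ (D - μ j)), h.prod univ fun j => (η (j, a j) : K) ^ (D - μ j),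
    eventually_all.2 fun j => h.pow (η (j, a j) : K) (D - μ j)] with p h3 h4 h5 h6
  rw [← h3, h2, h4, h5, prod_congr rfl fun j _ => h6 j]

theorem Su.cod [NumberField k] (U : Su I ξ y t η) {β : Type} {𝓕 : Filter β} {v : β → K → k}
    (h : Sp 𝓕 v) {g : ℕ} (hg : 0 < g) (hs : Smooth (base I) g)
    {f : Bool → MvPolynomial (Fin n × Fin N) k} (hf : Ht2 I f) {τ : Type} [Fintype τ]
    (ν : τ → Fin n →₀ ℕ) (hν : ∀ b μ, coeff μ (Ph η (f b)) ≠ 0 → μ ∈ Set.range ν) (D : ℕ)
    (hD : ∀ q, ∑ j, ν q j ≤ D) {ε : ℝ} (hε : 0 < ε) :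
    ∃ W ∈ 𝓕, ∃ C : ℝ, ∀ p ∈ W, ∀ Z : (Bool × τ) × (Fin n → Fin N) → k,
      (∀ q, Z q = v p (coeff (ν q.1.2) (Ph η (f q.1.1)) : adjoin k (Set.range y)) *
        ∏ j, v p (η (j, q.2 j)) ^ (D - ν q.1.2 j)) →
      Z ≠ 0 ∧ D * logHeight (fun a => v p (y a)) - logHeight Z ≤
        ε * logHeight (fun a => v p (y a)) + C := by
  obtain ⟨m, J', ⟨A, _, co, a1, a2⟩, hb⟩ := U.dt.ab
  obtain ⟨Θ, d, C, t1, t2, t3⟩ := Hy.part_model U.dt.var hs a1 (Cu.model a1 a2) hb
    (Y := fun q : (Bool × τ) × (Fin n → Fin N) => cY (f q.1.1) (ν q.1.2) D q.2)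
    (fun q => cY_hom _ (hD q.1.2) _) (U.cod_cod hg hs hf ν hν D) hε
  have G := U.dt.gn h
  obtain ⟨W, hW, h1⟩ := ((G.ne.and G.zero).and ((G.gen Θ d t1 t2).and (eventually_all.2
    fun q : (Bool × τ) × (Fin n → Fin N) => U.cod_sp h (f q.1.1) (hD q.1.2) q.2))).exists_mem
  refine ⟨W, hW, C, fun p hp Z hZ => ?_⟩
  obtain ⟨⟨p1, p2⟩, p3, p4⟩ := h1 p hp
  have h2 := t3 _ p1 p2 p3
  simp only [p4, ← hZ] at h2
  exact h2

end Pool.Agent.Lib.MP_651af7_nt.Tb
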