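import Pool.Agent.Lib.MP_651af7_nt.Tb.Ph
import Pool.Agent.Lib.MP_651af7_nt.Hy.Chart

/-! The common zeros of the coefficients when the base is a point. -/

namespace Pool.Agent.Lib.MP_651af7_nt.Tb

open MvPolynomial Finset Height NumberField Filter Av Bx Ds Fc
open IntermediateField (adjoin)

variable {k K ι β : Type} [Field k] [NumberField k] [Field K] [Algebra k K] [Fintype ι]
  {𝓕 : Filter β} {v : β → K → k}

theorem Dt.alg {J : Ideal (MvPolynomial ι k)} {y : ι → K} (D : Dt J y) (hs : Smooth J 0) (a : ι) :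
    IsAlgebraic k (y a) := by
  by_contra ha
  obtain ⟨a₀, h0⟩ := D.one
  have hz : ∀ P ∈ J, aeval y P = 0 := fun P hP => by
    rw [← sum_homogeneousComponent P, map_sum]
    exact sum_eq_zero fun d _ =>
      (D.gen _ d (homogeneousComponent_isHomogeneous d P)).2 (D.var.hom P hP d)
  obtain ⟨S, Δ, c, h1, h2⟩ := Hy.exists_chart hs (fun e => one_ne_zero (h0.symm.trans
    (congrFun e a₀))) hz
  obtain ⟨δ, hδ⟩ := exists_derivation (algebraicIndependent_unique_type_iff (x := fun _ : Fin 1 =>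
    y a).2 ha) 1
  obtain ⟨w, hw⟩ := finrank_le_one_iff.1 (h1.rank_le h2)
  obtain ⟨c₁, e₁⟩ := hw ⟨y, tsp_self D.var.hom hz⟩
  obtain ⟨c₂, e₂⟩ := hw ⟨fun s => δ (y s), mem_tsp.2 fun P hP => by
    rw [dP_der δ δ.map_algebraMap, hz P hP, map_zero]⟩
  have h3 : c₁ * w.1 a₀ = y a₀ := congrFun (congrArg Subtype.val e₁) a₀
  have h4 : ∀ s, c₂ * w.1 s = δ (y s) := congrFun (congrArg Subtype.val e₂)
  have h5 := h4 a₀
  rw [h0] at h3 h5
  rw [δ.map_one_eq_zero, mul_eq_zero] at h5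
  have h6 := (h4 a).trans (hδ 0)
  rw [h5.resolve_right (right_ne_zero_of_mul (h3.trans_ne one_ne_zero)), zero_mul] at h6
  exact zero_ne_one h6

theorem alg_bd (h : Sp 𝓕 v) {y : ι → K} (hy : ∀ a, IsAlgebraic k (y a)) :
    ∃ C : ℝ, ∀ᶠ p in 𝓕, logHeight (fun a => v p (y a)) ≤ C := by
  classical
  choose q q0 hq using hy
  refine ⟨∑ x ∈ Fintype.piFinset fun a => (q a).roots.toFinset, logHeight x, ?_⟩
  have h1 : ∀ a, ∀ᶠ p in 𝓕, v p (y a) ∈ (q a).roots.toFinset := fun a => by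
    filter_upwards [h.aeval (fun _ : Unit => y a) (Polynomial.aeval (X ()) (q a)), h.zero]
      with p h1 h2
    rw [← Polynomial.aeval_algHom_apply, aeval_X, hq, h2, ← aeval_eq_eval,
      ← Polynomial.aeval_algHom_apply, aeval_X] at h1
    exact Multiset.mem_toFinset.2 ((Polynomial.mem_roots (q0 a)).2 h1.symm)
  filter_upwards [eventually_all.2 h1] with p hp
  exact single_le_sum (f := fun x : ι → k => logHeight x) (fun x _ => logHeight_nonneg x)
    (Fintype.mem_piFinset.2 hp)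

variable {n N : ℕ} {I : Ideal (MvPolynomial (Fin n × Fin N) k)} {ξ : Fin n × Fin N → K}
  {y : (Fin n → Fin N) → K} {t : Fin n → K} {η : Fin n × Fin N → adjoin k (Set.range y)}

theorem Su.cod0 (U : Su I ξ y t η) (h : Sp 𝓕 v) (hs : Smooth (base I) 0)
    {f : Bool → MvPolynomial (Fin n × Fin N) k} (hf : Ht2 I f) {τ : Type} [Fintype τ]
    (ν : τ → Fin n →₀ ℕ) (hν : ∀ b μ, coeff μ (Ph η (f b)) ≠ 0 → μ ∈ Set.range ν) (D : ℕ)
    {ε : ℝ} (hε : 0 < ε) :
    ∃ W ∈ 𝓕, ∃ C : ℝ, ∀ p ∈ W, ∀ Z : (Bool × τ) × (Fin n → Fin N) → k,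
      (∀ q, Z q = v p (coeff (ν q.1.2) (Ph η (f q.1.1)) : adjoin k (Set.range y)) *
        ∏ j, v p (η (j, q.2 j)) ^ (D - ν q.1.2 j)) →
      Z ≠ 0 ∧ D * logHeight (fun a => v p (y a)) - logHeight Z ≤
        ε * logHeight (fun a => v p (y a)) + C := by
  obtain ⟨C, hC⟩ := alg_bd h (U.dt.alg hs)
  choose a ha using U.one
  have hp : I.IsPrime := by
    rw [show I = RingHom.ker (aeval ξ : _ →ₐ[k] K) from Ideal.ext fun P => (U.ker P).symm]
    exact RingHom.ker_isPrime _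
  obtain ⟨b, hb⟩ : ∃ b, f b ∉ I := by
    by_contra! h0
    have h1 := hf ⊥ Ideal.isPrime_bot (fun b => Ideal.Quotient.eq_zero_iff_mem.2 (h0 b))
      fun j => ⟨a j, fun e => (U.ind.transcendental j) (by
        have h2 := (U.ker _).2 (Ideal.Quotient.eq_zero_iff_mem.1 e)
        rw [aeval_X, U.mul, ha, OneMemClass.coe_one, mul_one] at h2
        exact h2 ▸ isAlgebraic_zero)⟩
    rw [Ideal.height_bot] at h1
    exact absurd h1 (by decide)
  obtain ⟨μ, hμ⟩ := ne_zero_iff.1 (mt (U.Ph_eq_zero _).1 hb)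
  obtain ⟨q, rfl⟩ := hν b μ hμ
  refine ⟨_, (hC.and (h.one.and (h.ne (ZeroMemClass.coe_eq_zero.not.2 hμ)))), D * C,
    fun p ⟨h1, h2, h3⟩ Z hZ => ⟨Function.ne_iff.2 ⟨((b, q), a), ?_⟩, ?_⟩⟩
  · simpa only [hZ, ha, OneMemClass.coe_one, h2, one_pow, prod_const_one, mul_one,
      Pi.zero_apply] using h3
  · linarith [logHeight_nonneg Z, mul_le_mul_of_nonneg_left h1 (Nat.cast_nonneg (α := ℝ) D),
      mul_nonneg hε.le (logHeight_nonneg fun a => v p (y a))]

end Pool.Agent.Lib.MP_651af7_nt.Tb
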