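import Pool.Agent.Lib.MP_651af7_nt.Tb.Ph

/-! Two polynomials with common zeros of codimension two are coprime up to a monomial. -/

namespace Pool.Agent.Lib.MP_651af7_nt.Tb

open MvPolynomial
open IntermediateField (adjoin)

variable {k K : Type} [Field k] [Field K] [Algebra k K] {n N : ℕ}
  {I : Ideal (MvPolynomial (Fin n × Fin N) k)} {ξ : Fin n × Fin N → K}
  {y : (Fin n → Fin N) → K} {t : Fin n → K} {η : Fin n × Fin N → adjoin k (Set.range y)}

theorem not_dvd_monomial {F : Type} [Field F] {π : MvPolynomial (Fin n) F} (hπ : Prime π)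
    (h : ∀ j, ¬π ∣ X j) (μ : Fin n →₀ ℕ) {c : F} (hc : c ≠ 0) : ¬π ∣ monomial μ c := by
  rw [monomial_eq]
  intro e
  rcases hπ.dvd_or_dvd e with e | e
  · exact hπ.not_isUnit (isUnit_of_dvd_unit e (hc.isUnit.map C))
  · obtain ⟨j, -, e⟩ := (Prime.dvd_finsetProd_iff hπ _).1 e
    exact h j (hπ.dvd_of_dvd_pow e)

theorem eq_monomial {F : Type} [Field F] (c : MvPolynomial (Fin n) F) (hc : c ≠ 0)
    (h : ∀ π : MvPolynomial (Fin n) F, Prime π → π ∣ c → ∃ j, π ∣ X j) :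
    ∃ (κ : Fin n →₀ ℕ) (u : MvPolynomial (Fin n) F), IsUnit u ∧ c = monomial κ 1 * u := by
  induction c using UniqueFactorizationMonoid.induction_on_prime with
  | h₁ => exact absurd rfl hc
  | h₂ u hu => exact ⟨0, u, hu, (one_mul u).symm⟩
  | h₃ a π ha hπ ih =>
    obtain ⟨κ, u, hu, rfl⟩ := ih ha fun ρ h1 h2 => h ρ h1 (h2.mul_left π)
    obtain ⟨j, hj⟩ := h π hπ (dvd_mul_right _ _)
    obtain ⟨m, b, -, hb, rfl⟩ := (dvd_monomial_iff_exists (one_ne_zero (α := F))).1 hj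
    refine ⟨m + κ, C b * u, ((isUnit_of_dvd_one hb).map C).mul hu, ?_⟩
    rw [← mul_assoc, ← mul_assoc, monomial_mul, mul_comm _ (C b), C_mul_monomial]

/-- A prime factor of both polynomials divides a variable. -/
theorem Su.dvd_X (U : Su I ξ y t η) {τ : Type} {f : τ → MvPolynomial (Fin n × Fin N) k}
    (hf : Ht2 I f) {π : MvPolynomial (Fin n) (adjoin k (Set.range y))} (hπ : Prime π)
    (hd : ∀ b, π ∣ Ph η (f b)) : ∃ j, π ∣ X j := by
  by_contra h
  push Not at h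
  let φ : (MvPolynomial (Fin n × Fin N) k ⧸ I) →+* MvPolynomial (Fin n) (adjoin k (Set.range y)) :=
    Ideal.Quotient.lift I (Ph η).toRingHom fun P hP => (U.Ph_eq_zero P).2 hP
  have hφ : ∀ P, φ (Ideal.Quotient.mk I P) = Ph η P := fun P => rfl
  have hi : Function.Injective φ := by
    refine (injective_iff_map_eq_zero φ).2 fun a ha => ?_
    obtain ⟨P, rfl⟩ := Ideal.Quotient.mk_surjective a
    exact Ideal.Quotient.eq_zero_iff_mem.2 ((U.Ph_eq_zero P).1 ha)
  have hx : ∀ Q, ∃ s a, ¬π ∣ φ s ∧ φ a = φ s * Q := fun Q => by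
    obtain ⟨A, P, μ, c, h1, h2, h3⟩ := U.exists_Ph Q
    exact ⟨Ideal.Quotient.mk I A, Ideal.Quotient.mk I P,
      by rw [hφ, h2]; exact not_dvd_monomial hπ h μ h1, h3⟩
  have hp : (Ideal.span {π}).IsPrime := (Ideal.span_singleton_prime hπ.ne_zero).2 hπ
  have hm : ∀ a, a ∈ (Ideal.span {π}).comap φ ↔ π ∣ φ a := fun a => Ideal.mem_span_singleton
  have := φ.domain_nontrivial
  have h2 := hf ((Ideal.span {π}).comap φ) inferInstance (fun b => (hm _).2 (hd b)) fun j => by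
    obtain ⟨b, hb⟩ := U.one j
    refine ⟨b, fun e => h j ?_⟩
    rwa [hm, hφ, Ph_X, hb, C_1, one_mul] at e
  have h1 : ((Ideal.span {π}).comap φ).height ≤ (1 : ℕ) := by
    refine Ideal.height_le_iff.2 fun q hq hlt => ?_
    suffices q = ⊥ by simp [this]
    by_contra hq0
    obtain ⟨a, ha, ha0⟩ := Submodule.exists_mem_ne_zero_of_ne_bot hq0
    have hn : ∀ s, ¬π ∣ φ s → s ∉ q := fun s h1 h2 => h1 ((hm s).1 (hlt.le h2))
    obtain ⟨e, u, hu, hau⟩ := WfDvdMonoid.max_power_factor ((map_ne_zero_iff φ hi).2 ha0)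
      hπ.irreducible
    obtain ⟨s₁, p, h1, h1'⟩ := hx π
    obtain ⟨s₂, u', h2, h2'⟩ := hx u
    have e1 : p ^ e * u' = s₁ ^ e * s₂ * a := hi (by
      simp only [map_mul, map_pow, h1', h2', hau]
      ring)
    have hpq : p ∈ q := by
      rcases hq.mem_or_mem (e1 ▸ q.mul_mem_left _ ha) with h3 | h3
      · exact hq.mem_of_pow_mem _ h3
      · exact absurd h3 (hn _ fun h4 => (hπ.dvd_or_dvd (h2' ▸ h4)).elim h2 hu)
    refine hlt.not_ge fun b hb => ?_
    obtain ⟨w, hw⟩ := (hm b).1 hb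
    obtain ⟨s₃, w', h3, h3'⟩ := hx w
    have e2 : s₁ * s₃ * b = p * w' := hi (by
      simp only [map_mul, h1', h3', hw]
      ring)
    rcases hq.mem_or_mem (e2 ▸ q.mul_mem_right w' hpq) with h4 | h4
    · exact absurd h4 (hn _ fun h5 => (hπ.dvd_or_dvd (map_mul φ s₁ s₃ ▸ h5)).elim h1 h3)
    · exact h4
  exact absurd (h2.trans h1) (by decide)

theorem Su.cop (U : Su I ξ y t η) {f : Bool → MvPolynomial (Fin n × Fin N) k} (hf : Ht2 I f)
    (h0 : ∀ b, f b ∉ I) :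
    ∃ (κ : Fin n →₀ ℕ) (f' : Bool → MvPolynomial (Fin n) (adjoin k (Set.range y))),
      (∀ b, Ph η (f b) = monomial κ 1 * f' b) ∧ IsRelPrime (f' false) (f' true) := by
  have h1 : Ph η (f false) ≠ 0 := mt (U.Ph_eq_zero _).1 (h0 _)
  obtain ⟨a, b, c, hab, ha, hb⟩ :=
    UniqueFactorizationMonoid.exists_reduced_factors _ h1 (Ph η (f true))
  obtain ⟨κ, u, hu, rfl⟩ := eq_monomial c (left_ne_zero_of_mul (ha ▸ h1)) fun π hπ hc =>
    U.dvd_X hf hπ fun e => by
      cases e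
      · exact ha ▸ hc.mul_right a
      · exact hb ▸ hc.mul_right b
  refine ⟨κ, fun e => bif e then u * b else u * a, fun e => ?_, ?_⟩
  · cases e
    · exact ha.symm.trans (mul_assoc _ _ _)
    · exact hb.symm.trans (mul_assoc _ _ _)
  · exact (isRelPrime_mul_unit_left hu).2 hab

end Pool.Agent.Lib.MP_651af7_nt.Tb
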