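import Mathlib

/-! Multicones: blocks of variables, multidegrees, the base. -/

namespace Pool.Agent.Lib.MP_651af7_nt.Tb

open MvPolynomial

variable {k : Type} [Field k] {n N : ℕ}

/-- The part of `P` that has degree `μ j` in the variables of the block `j`. -/
noncomputable def cp (μ : Fin n → ℕ) (P : MvPolynomial (Fin n × Fin N) k) :
    MvPolynomial (Fin n × Fin N) k :=
  weightedHomogeneousComponent (fun s => Pi.single s.1 1) μ P

/-- The ideal of the base in the Segre embedding of the product of the projective spaces. -/
noncomputable def base (I : Ideal (MvPolynomial (Fin n × Fin N) k)) :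
    Ideal (MvPolynomial (Fin n → Fin N) k) :=
  I.comap (aeval fun a : Fin n → Fin N => ∏ j, X (j, a j) : MvPolynomial (Fin n → Fin N) k →ₐ[k] _)

/-- The products of powers of coordinates with the exponents in `Δ`, one coordinate per block. -/
def mon (Δ : Finset (Fin n → ℕ)) (v : Fin n × Fin N → k) (q : Δ × (Fin n → Fin N)) : k :=
  ∏ j, v (j, q.2 j) ^ q.1.1 j

end Pool.Agent.Lib.MP_651af7_nt.Tb
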