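import Pool.Agent.Lib.MP_651af7_nt.Fc.Mod

/-! The subspace inequality with the height of the subbundle, along a filter. -/

namespace Pool.Agent.Lib.MP_651af7_nt.Tb

open MvPolynomial Finset Height NumberField Matrix Filter Av As Bx Ds Db Module Fc
open Rt (Pl av mu)
open Es (vol mn)
open Ex (lx)

variable {k ι β : Type} [Field k] [Fintype ι] [NumberField k]

theorem mainB (A : AV k ι) (a₀ : ι) {n r : ℕ} (Ls : Finset (Fin r → MvPolynomial ι k))
    (B : Matrix (Fin n) (Fin r) (MvPolynomial ι k)) (e : Fin r → Fin n)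
    {𝓕 : Filter β} {x : β → ι → k} {t : β → Fin r → k} (hI : HI 𝓕 x t) {ε : ℝ} (hε : 0 < ε) :
    ∃ W ∈ 𝓕, ∀ (S : Finset (FinitePlace k))
      (G : Pl S → Matrix (Fin r) (Fin r) (MvPolynomial ι k)), (∀ p l, G p l ∈ Ls) →
      ∃ C : ℝ, ∀ b ∈ W, Aff A a₀ (x b) → mn (B.map (eval (x b))) e ≠ 0 →
        (∀ p, ((G p).map (eval (x b))).det ≠ 0) →
        (∀ p l, ((G p).map (eval (x b)) *ᵥ t b) l ≠ 0) →
        vol (fun p l => lx (av p) (B.map (eval (x b)) *ᵥ t b)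
          (((G p).map (eval (x b)) *ᵥ t b) l)) + logHeight (mn (B.map (eval (x b)))) ≤
          r * logHeight (B.map (eval (x b)) *ᵥ t b) +
            ε * (logHeight (x b) + logHeight (B.map (eval (x b)) *ᵥ t b)) + C := by
  classical
  obtain ⟨γ, 𝒲, hγ, H⟩ := stage1 A a₀ Ls B e hε
  choose W hW Q hQ using fun (j : Fin n) (u : Finset (Common.Subspace.PS n j → MvPolynomial ι k) ×
    Matrix (Common.Subspace.PS n j) (Fin r) (MvPolynomial ι k)) => gapT A a₀ u.1 u.2 hγ hI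
  refine ⟨⋂ j, ⋂ u ∈ 𝒲 j, W j u, iInter_mem.2 fun j => (biInter_finset_mem _).2 fun u _ => hW j u,
    fun S G hG => ?_⟩
  obtain ⟨H₀, hH₀⟩ := H S G hG
  obtain ⟨C, hC⟩ := main_smallA a₀ B e G (|H₀| + ∑ j, ∑ u ∈ 𝒲 j, |Q j u|)
  refine ⟨|C|, fun b hb hx he hdet hne => ?_⟩
  have a1 := hC (x b) (t b) hx.1
  have a2 := hH₀ (logHeight (x b) + logHeight (B.map (eval (x b)) *ᵥ t b)) (x b) (t b)
  have h1 := logHeight_nonneg (x b)
  have h2 := logHeight_nonneg (B.map (eval (x b)) *ᵥ t b)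
  have h4 := le_abs_self C
  rcases le_or_gt (logHeight (x b) + logHeight (B.map (eval (x b)) *ᵥ t b))
    (|H₀| + ∑ j, ∑ u ∈ 𝒲 j, |Q j u|) with h | h
  · have a3 : 0 ≤ r * logHeight (B.map (eval (x b)) *ᵥ t b) := by positivity
    have a4 : 0 ≤ ε * (logHeight (x b) + logHeight (B.map (eval (x b)) *ᵥ t b)) := by positivity
    linarith [a1 h he hne]
  have hs0 : 0 ≤ ∑ j, ∑ u ∈ 𝒲 j, |Q j u| := by positivity
  rcases a2 (by linarith [le_abs_self H₀]) hx (by linarith) (by linarith) he hdet hne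
    with h5 | ⟨j, u, hu, z, h5, h6, h7⟩
  · linarith [abs_nonneg C]
  have b1 : |Q j u| ≤ ∑ u ∈ 𝒲 j, |Q j u| :=
    single_le_sum (f := fun u => |Q j u|) (fun _ _ => abs_nonneg _) hu
  have b2 : ∑ u ∈ 𝒲 j, |Q j u| ≤ ∑ j, ∑ u ∈ 𝒲 j, |Q j u| :=
    single_le_sum (f := fun j => ∑ u ∈ 𝒲 j, |Q j u|) (fun _ _ => by positivity) (mem_univ j)
  exact absurd h7 (hQ j u b (Set.mem_iInter₂.1 (Set.mem_iInter.1 hb j) u hu) _ z
    (by linarith [le_abs_self (Q j u), abs_nonneg H₀]) hx (by linarith) h5 h6)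

/-- The inequality along `𝓕`. -/
def SBB {r : ℕ} (𝓕 : Filter β) (x : β → ι → k) (t : β → Fin r → k) : Prop :=
  ∀ (n : ℕ) (T : Type) [Fintype T] (d : ℕ) (B : Matrix (Fin n) (Fin r) (MvPolynomial ι k))
    (e : Fin r → Fin n) (G : T → Matrix (Fin r) (Fin r) (MvPolynomial ι k)),
    (∀ i j, (B i j).IsHomogeneous d) → (∀ τ i j, (G τ i j).IsHomogeneous d) → ∀ ε : ℝ, 0 < ε →
    ∃ W ∈ 𝓕, ∀ S : Finset (FinitePlace k), ∃ C : ℝ, ∀ b ∈ W, ∀ c : Pl S → T,
      mn (B.map (eval (x b))) e ≠ 0 → (∀ p, ((G (c p)).map (eval (x b))).det ≠ 0) →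
      (∀ p l, ((G (c p)).map (eval (x b)) *ᵥ t b) l ≠ 0) →
      vol (fun p l => lx (av p) (B.map (eval (x b)) *ᵥ t b)
        (((G (c p)).map (eval (x b)) *ᵥ t b) l)) + logHeight (mn (B.map (eval (x b)))) ≤
        r * logHeight (B.map (eval (x b)) *ᵥ t b) +
          ε * (logHeight (x b) + logHeight (B.map (eval (x b)) *ᵥ t b)) + C

omit [NumberField k] in
theorem lx_smul (v : AbsoluteValue k ℝ) {c : k} (hc : c ≠ 0) (Y : ι → k) (l : k) :
    lx v (c • Y) (c * l) = lx v Y l := by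
  have h1 : ⨆ i, v ((c • Y) i) = v c * ⨆ i, v (Y i) := iSup_mul_left v c Y
  rw [lx, lx, h1, map_mul, mul_div_mul_left _ _ (v.ne_zero hc)]

theorem sbb_birat {κ : Type} [Fintype κ] (A : AV k κ) {I : Ideal (MvPolynomial ι k)}
    (hb : Birat I A.I) {r : ℕ} {𝓕 : Filter β} {x : β → ι → k}
    {t : β → Fin r → k} (hg : Gn 𝓕 I x) (hi : HI 𝓕 x t) : SBB 𝓕 x t := by
  classical
  intro n T _ e B f G hB hG ε hε
  obtain ⟨φ, ψ, h, h'⟩ := hb
  obtain ⟨a, ha⟩ := h.hom
  obtain ⟨d, hd⟩ := h'.hom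
  obtain ⟨i, hi0⟩ := h.ne
  have hX : (X A.ao : MvPolynomial κ k) ∉ A.I := fun hx => by
    have := (A.rep_zero (R := k)).zero _ hx
    rw [aeval_X, A.o_ao, map_one] at this
    exact one_ne_zero this
  have hφ := h'.pull A.tr_prime (isHomogeneous_X k A.ao) hX
  rw [aeval_X] at hφ
  obtain ⟨y, hy⟩ : ∃ y : β → κ → k,
      y = fun b j => (eval (x b) (φ A.ao))⁻¹ * eval (x b) (φ j) := ⟨_, rfl⟩
  have hi' : HI 𝓕 y t := fun α U j hj w hw => hi α U j hj w fun l => cl_le (by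
    rintro _ ⟨c, rfl⟩
    have e1 : gv U (fun m => y (j m)) c = aeval (gv U fun m => x (j m)) (φ c) /
        aeval (gv U fun m => x (j m)) (φ A.ao) := by
      rw [aeval_germ, aeval_germ, germ_div, hy]
      simp only [div_eq_inv_mul]
    rw [e1]
    exact div_mem (gapA_aeval_mem _ _) (gapA_aeval_mem _ _)) (hw l)
  have hε' : 0 < ε / (a + 1) := by positivity
  obtain ⟨W, hW, H⟩ := mainB A A.ao (univ.image fun p : T × Fin r => (G p.1).map (aeval ψ) p.2)
    (B.map (aeval ψ)) f hi' hε'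
  refine ⟨_, inter_mem ((hg.ne.and hg.zero).and ((hg.gen _ _ (ha _) hφ).and
    (hg.gen _ _ ((hd i).aeval φ ha) hi0))) hW, fun S => ?_⟩
  choose C₁ h1 using fun c : Pl S → T => H S (fun p => (G (c p)).map (aeval ψ))
    fun p l => mem_image.2 ⟨(c p, l), mem_univ _, rfl⟩
  obtain ⟨C₀, hC₀⟩ := Finite.bddAbove_range C₁
  obtain ⟨C₃, h3⟩ := logHeight_eval_le' ha
  refine ⟨C₀ + ε / (a + 1) * C₃, ?_⟩
  rintro b ⟨⟨⟨x0, xz⟩, x1, x2⟩, bW⟩ c g0 g1 g2
  obtain ⟨c₀, hc₀, e0⟩ := h.pt (x := x b) x0 xz x2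
  obtain ⟨s, hs, e1⟩ : ∃ s : k, s ≠ 0 ∧ ∀ a, eval (y b) (ψ a) = s * x b a :=
    ⟨(eval (x b) (φ A.ao))⁻¹ ^ d * c₀, mul_ne_zero (pow_ne_zero _ (inv_ne_zero x1)) hc₀, fun a => by
      rw [hy, eval_mul_of_hom (hd a), mul_assoc, ← e0]
      rfl⟩
  have ya : Aff A A.ao (y b) := by
    rw [hy]
    exact ⟨inv_mul_cancel₀ x1, zero_mul_of_hom A.hom (h.zero (x := x b) xz) _⟩
  have eG : ∀ {m : ℕ} (M : Matrix (Fin m) (Fin r) (MvPolynomial ι k)),
      (∀ i j, (M i j).IsHomogeneous e) →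
      (M.map (aeval ψ)).map (eval (y b)) = s ^ e • M.map (eval (x b)) := by
    intro m M hM
    ext i j
    change eval (y b) (aeval ψ (M i j)) = s ^ e * eval (x b) (M i j)
    rw [← aeval_eq_eval, trans_aev, ← eval_mul_of_hom (hM i j), ← funext e1]
    rfl
  have hse := pow_ne_zero e hs
  have h4 := h1 c b bW ya
  simp only [eG B hB, eG _ (hG _), Matrix.smul_mulVec, Pi.smul_apply, smul_eq_mul, det_smul,
    Es.mn_smul, lx_smul _ hse, logHeight_smul_eq_logHeight _ hse,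
    logHeight_smul_eq_logHeight _ (pow_ne_zero r hse)] at h4
  replace h4 := h4 (mul_ne_zero (pow_ne_zero _ hse) g0)
    (fun p => mul_ne_zero (pow_ne_zero _ hse) (g1 p)) fun p l => mul_ne_zero hse (g2 p l)
  have h7 : logHeight (y b) ≤ C₃ + a * logHeight (x b) := by
    rw [hy]
    exact (logHeight_mul_left (inv_ne_zero x1) _).trans_le (h3 _)
  have h8 : ε / (a + 1) * (a * logHeight (x b)) ≤ ε * logHeight (x b) := by
    rw [← mul_assoc]
    refine mul_le_mul_of_nonneg_right ?_ (logHeight_nonneg _)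
    rw [div_mul_eq_mul_div, div_le_iff₀ (by positivity)]
    nlinarith
  have h9 := mul_le_mul_of_nonneg_right (div_le_self hε.le (show (1 : ℝ) ≤ a + 1 by
    linarith [a.cast_nonneg (α := ℝ)])) (logHeight_nonneg (B.map (eval (x b)) *ᵥ t b))
  have h10 : C₁ c ≤ C₀ := hC₀ ⟨c, rfl⟩
  linarith [mul_le_mul_of_nonneg_left h7 hε'.le]

omit [NumberField k] in
theorem lx_pow {K : Type} [Field K] [Algebra k K] {v : AbsoluteValue k ℝ} {w : AbsoluteValue K ℝ}
    {m : ℕ} (h : ∀ a : k, w (algebraMap k K a) = v a ^ m) (Y : ι → k) (l : k) :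
    lx w (fun i => algebraMap k K (Y i)) (algebraMap k K l) = m * lx v Y l := by
  have hm : m ≠ 0 := fun e => by simpa [e] using h 0
  simp only [lx, h]
  rw [sup_pow (fun a => v (Y a)) (fun _ => v.nonneg _) hm, ← Real.log_pow, div_pow]

theorem sbb_down {L : Type} [Field L] [NumberField L] [Algebra k L] {r : ℕ} {𝓕 : Filter β}
    {x : β → ι → k} {t : β → Fin r → k}
    (h : SBB 𝓕 (fun b a => algebraMap k L (x b a)) fun b l => algebraMap k L (t b l)) :
    SBB 𝓕 x t := by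
  intro n T _ e B f G hB hG ε hε
  obtain ⟨W, hW, H⟩ := h n T e (B.map (MvPolynomial.map (algebraMap k L))) f
    (fun τ => (G τ).map (MvPolynomial.map (algebraMap k L))) (fun i j => (hB i j).map _)
    (fun τ i j => (hG τ i j).map _) ε hε
  refine ⟨W, hW, fun S => ?_⟩
  obtain ⟨S', π, m, t1, t2⟩ := exists_below (K := L) S
  obtain ⟨C, hC⟩ := H S'
  have hn : (0 : ℝ) < finrank k L := Nat.cast_pos.2 finrank_pos
  refine ⟨C / finrank k L, fun b hb c g0 g1 g2 => ?_⟩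
  have eB : ∀ {m : ℕ} (M : Matrix (Fin m) (Fin r) (MvPolynomial ι k)),
      (M.map (MvPolynomial.map (algebraMap k L))).map (eval fun a => algebraMap k L (x b a)) =
        (M.map (eval (x b))).map (algebraMap k L) := by
    intro m M
    ext i j
    change eval _ (MvPolynomial.map _ (M i j)) = algebraMap k L (eval (x b) (M i j))
    rw [eval_map, ← eval₂_id, eval₂_comp_left]
    rfl
  have eX : ∀ {m : ℕ} (M : Matrix (Fin m) (Fin r) k), (M.map (algebraMap k L) *ᵥ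
      fun i => algebraMap k L (t b i)) = fun l => algebraMap k L ((M *ᵥ t b) l) :=
    fun M => funext fun l => (RingHom.map_mulVec _ _ _ l).symm
  have eM : mn ((B.map (eval (x b))).map (algebraMap k L)) =
      fun f => algebraMap k L (mn (B.map (eval (x b))) f) := funext fun f => Es.mn_map _ _ f
  have h3 := hC b hb fun p => c (π p)
  simp only [eB, eX, eM, vol, lx_pow (t1 _), ← mul_sum,
    MP_651af7_nt.Final.logHeight_algebraMap] at h3
  replace h3 := h3 ((map_ne_zero _).2 g0) (fun p => ((algebraMap k L).map_det _).symm.trans_ne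
    ((map_ne_zero _).2 (g1 _))) fun p l => (map_ne_zero _).2 (g2 _ l)
  rw [t2 fun s => ∑ l, lx (av s) (B.map (eval (x b)) *ᵥ t b)
    (((G (c s)).map (eval (x b)) *ᵥ t b) l)] at h3
  refine le_of_mul_le_mul_left ?_ hn
  rw [mul_add _ (_ + _) (C / _), mul_div_cancel₀ _ hn.ne', vol]
  linarith

theorem sbb_model {κ : Type} [Fintype κ] {I : Ideal (MvPolynomial ι k)} (hI : Var I)
    {J : Ideal (MvPolynomial κ (AlgebraicClosure k))} (hA : Abelian J)
    (hb : Birat (I.map (MvPolynomial.map (algebraMap k (AlgebraicClosure k)))) J) {r : ℕ}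
    {𝓕 : Filter β} {x : β → ι → k} {t : β → Fin r → k} (hg : Gn 𝓕 I x)
    (hi : ∀ (L : Type) [Field L] [Algebra k L] [FiniteDimensional k L],
      HI 𝓕 (fun b a => algebraMap k L (x b a)) fun b l => algebraMap k L (t b l)) :
    SBB 𝓕 x t := by
  obtain ⟨A, _, co, a1, a2⟩ := hA
  obtain ⟨m, J', co', Φ, h1, h2, h3, h4⟩ := Cu.model a1 a2
  have : Nonempty A := ⟨0⟩
  obtain ⟨K, hK, B, hB⟩ := descend (k := k) h1 h2
    (hb.trans hI.prime a1.prime h1.prime a1.exists_X (a1.birat h1 h3 h4))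
  have : NumberField K := NumberField.of_module_finite k K
  refine sbb_down (sbb_birat B hB
    ⟨hg.ne.mono fun b h h' => h (funext fun a => (map_eq_zero _).1 (congrFun h' a)),
      hg.zero.mono fun b => zero_up, fun P d hP h0 => ?_⟩ (hi K))
  obtain ⟨l, hl⟩ : ∃ l : K →ₗ[k] k, Av.cf l P ∉ I :=
    not_forall.1 fun h => h0 (map_le_up (mem_map_of_cf h))
  refine (hg.gen _ d (fun m hm => hP fun e => hm ?_) hl).mono fun b h e => h ?_
  · rw [coeff_cf, e, map_zero]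
  · rw [eval_cf, e, map_zero]

end Pool.Agent.Lib.MP_651af7_nt.Tb
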