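import Mathlib

/-! Counts of boxes and a triangular minor at a non-archimedean place. -/

namespace Pool.Agent.Lib.MP_651af7_nt.Tb

open Finset MvPolynomial

theorem diffs {ι : Type} (s : Finset ι) (t : ι → ℝ) {τ : ℝ} (h0 : ∀ i, 0 ≤ t i)
    (h1 : ∀ i, t i ≤ τ) (hτ0 : 0 ≤ τ) (hτ : τ ≤ 1) :
    (0 ≤ ∏ i ∈ s, (1 - t i) ∧ ∏ i ∈ s, (1 - t i) ≤ 1) ∧
      (1 ≤ ∏ i ∈ s, (1 + t i) ∧ ∏ i ∈ s, (1 + t i) ≤ 2 ^ #s) ∧
      ∏ i ∈ s, (1 + t i) - ∏ i ∈ s, (1 - t i) ≤ #s * 2 ^ (#s + 1) * τ ∧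
      (0 ≤ ∏ i ∈ s, (1 + t i) + ∏ i ∈ s, (1 - t i) - 2 ∧
        ∏ i ∈ s, (1 + t i) + ∏ i ∈ s, (1 - t i) - 2 ≤ #s ^ 2 * 2 ^ (#s + 1) * τ ^ 2) := by
  classical
  induction s using Finset.induction_on with
  | empty => norm_num
  | insert a s ha ih =>
    obtain ⟨⟨a1, a2⟩, ⟨a3, a4⟩, a5, a6, a7⟩ := ih
    simp only [prod_insert ha, card_insert_of_notMem ha, Nat.cast_add, Nat.cast_one, pow_succ]
      at a5 a7 ⊢
    generalize ∏ i ∈ s, (1 - t i) = Q at *
    generalize ∏ i ∈ s, (1 + t i) = P at *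
    have b0 := h0 a
    have b1 := h1 a
    have b2 : (1 : ℝ) ≤ 2 ^ #s := one_le_pow₀ one_le_two
    have b3 : (0 : ℝ) ≤ #s := Nat.cast_nonneg _
    generalize (2 : ℝ) ^ #s = E at *
    generalize (#s : ℝ) = m at *
    generalize t a = x at *
    have c1 : x * (P + Q) ≤ τ * (2 * E) := mul_le_mul b1 (by linarith) (by linarith) hτ0
    have c2 : x * (P - Q) ≤ τ * (m * (E * 2) * τ) := mul_le_mul b1 a5 (by linarith) hτ0
    have c3 : 0 ≤ E * τ := by positivity
    have c4 : 0 ≤ m * E * τ := by positivity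
    have c5 : 0 ≤ E * τ * τ := by positivity
    have c6 : 0 ≤ m * E * τ * τ := by positivity
    have c7 : 0 ≤ m * m * E * τ * τ := by positivity
    refine ⟨⟨mul_nonneg (by linarith) a1, by nlinarith⟩, ⟨by nlinarith, by nlinarith⟩,
      by nlinarith, by nlinarith, by nlinarith⟩

/-- First and second differences of the numbers of points of boxes. -/
theorem box_diffs {ι : Type} [Fintype ι] (d : ι → ℕ) {D : ℕ} (hD : ∀ i, d i ≤ D) {M : ℝ}
    (hM0 : 0 < M) (hM : (D : ℝ) ≤ M) :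
    ∏ i, (M - d i) ≤ M ^ Fintype.card ι ∧ M ^ Fintype.card ι ≤ ∏ i, (M + d i) ∧
      M * (∏ i, (M + d i) - ∏ i, (M - d i)) ≤
        Fintype.card ι * 2 ^ (Fintype.card ι + 1) * D * M ^ Fintype.card ι ∧
      0 ≤ ∏ i, (M + d i) + ∏ i, (M - d i) - 2 * M ^ Fintype.card ι ∧
      M ^ 2 * (∏ i, (M + d i) + ∏ i, (M - d i) - 2 * M ^ Fintype.card ι) ≤
        Fintype.card ι ^ 2 * 2 ^ (Fintype.card ι + 1) * D ^ 2 * M ^ Fintype.card ι := by
  obtain ⟨⟨-, a2⟩, ⟨a3, -⟩, a5, a6, a7⟩ := diffs univ (fun i => (d i : ℝ) / M) (τ := D / M)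
    (fun i => by positivity) (fun i => div_le_div_of_nonneg_right (Nat.cast_le.2 (hD i)) hM0.le)
    (by positivity) ((div_le_one hM0).2 hM)
  have e1 : ∏ i, (M + d i) = M ^ Fintype.card ι * ∏ i, (1 + (d i : ℝ) / M) := by
    rw [← card_univ, ← prod_const, ← prod_mul_distrib]
    exact prod_congr rfl fun i _ => by field_simp
  have e2 : ∏ i, (M - d i) = M ^ Fintype.card ι * ∏ i, (1 - (d i : ℝ) / M) := by
    rw [← card_univ, ← prod_const, ← prod_mul_distrib]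
    exact prod_congr rfl fun i _ => by field_simp
  rw [e1, e2]
  rw [card_univ] at a5 a7
  have h1 : 0 < M ^ Fintype.card ι := pow_pos hM0 _
  generalize M ^ Fintype.card ι = E at *
  generalize ∏ i, (1 + (d i : ℝ) / M) = P at *
  generalize ∏ i, (1 - (d i : ℝ) / M) = Q at *
  rw [← mul_div_assoc, le_div_iff₀ hM0] at a5
  rw [div_pow, ← mul_div_assoc, le_div_iff₀ (pow_pos hM0 2)] at a7
  refine ⟨by nlinarith, by nlinarith, ?_, by nlinarith, ?_⟩
  · linarith [mul_le_mul_of_nonneg_right a5 h1.le]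
  · linarith [mul_le_mul_of_nonneg_right a7 h1.le]

/-- The sum of one exponent over a box. -/
theorem box_sum {ι : Type} [Fintype ι] [DecidableEq ι] (m : ι → ℕ) (j : ι) :
    ∑ α ∈ Fintype.piFinset fun i => range (m i + 1), (α j : ℝ) =
      (∏ i, ((m i : ℝ) + 1)) * m j / 2 := by
  have h1 : ∀ α : ι → ℕ, (α j : ℝ) = ∏ i, if i = j then (α i : ℝ) else 1 := fun α => by simp
  rw [sum_congr rfl fun α _ => h1 α, ← prod_univ_sum (fun i => range (m i + 1)) fun i a => if i = j then (a : ℝ) else 1,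
    ← mul_prod_erase univ _ (mem_univ j), ← mul_prod_erase univ _ (mem_univ j)]
  have h2 : ∑ a ∈ range (m j + 1), (a : ℝ) = (m j + 1) * m j / 2 := by
    have := congrArg (Nat.cast : ℕ → ℝ) (sum_range_id_mul_two (m j + 1))
    push_cast [Nat.add_sub_cancel] at this
    linarith
  rw [prod_congr rfl fun i (hi : i ∈ univ.erase j) => show
    ∑ a ∈ range (m i + 1), (if i = j then (a : ℝ) else 1) = (m i : ℝ) + 1 by
      simp [ne_of_mem_erase hi]]
  simp only [if_true, h2]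
  ring

theorem perm_lt {Γ S : Type} [Fintype Γ] [AddCommMonoid S] [LinearOrder S]
    [IsOrderedCancelAddMonoid S] {f : Γ → S} (hf : Function.Injective f) {σ : Equiv.Perm Γ}
    (hσ : σ ≠ 1) : ∃ i, f (σ i) < f i := by
  by_contra h
  push Not at h
  have := (sum_eq_sum_iff_of_le (s := univ) fun i _ => h i).1 (Equiv.sum_comp σ f).symm
  exact hσ (Equiv.ext fun i => (hf (this i (mem_univ i))).symm)

variable {k : Type} [Field k] {w : AbsoluteValue k ℝ}

/-- A matrix that is triangular up to smaller terms. -/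
theorem det_tri (hw : IsNonarchimedean w) {Γ S : Type} [Fintype Γ] [DecidableEq Γ]
    [AddCommMonoid S] [LinearOrder S] [IsOrderedCancelAddMonoid S] {f : Γ → S}
    (hf : Function.Injective f) (M : Matrix Γ Γ k) {r c : Γ → ℝ} (hr : ∀ a, 0 < r a)
    (hc : ∀ a, 0 < c a) (h1 : ∀ a b, w (M a b) ≤ r a * c b)
    (h2 : ∀ a b, f a < f b → w (M a b) < r a * c b) (h3 : ∀ a, w (M a a) = r a * c a) :
    w M.det = ∏ a, w (M a a) := by
  have e1 : ∀ σ : Equiv.Perm Γ, w (Equiv.Perm.sign σ • ∏ i, M (σ i) i) = ∏ i, w (M (σ i) i) :=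
    fun σ => by rcases Int.units_eq_one_or (Equiv.Perm.sign σ) with h | h <;> simp [h]
  rw [Matrix.det_apply, hw.apply_sum_eq_of_lt (fun a => (w.map_neg a).symm) (mem_univ 1), e1]
  · rfl
  intro σ _ hσ
  obtain ⟨i, hi⟩ := perm_lt hf hσ
  rw [e1, e1]
  have e2 : ∏ i, w (M ((1 : Equiv.Perm Γ) i) i) = ∏ i, r (σ i) * c i := by
    rw [prod_mul_distrib, Equiv.prod_comp σ r, ← prod_mul_distrib]
    exact prod_congr rfl fun i _ => h3 i
  rw [e2, ← mul_prod_erase univ _ (mem_univ i), ← mul_prod_erase univ _ (mem_univ i)]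
  exact (mul_le_mul_of_nonneg_left (prod_le_prod (fun _ _ => w.nonneg _) fun j _ => h1 _ _)
    (w.nonneg _)).trans_lt (mul_lt_mul_of_pos_right (h2 _ _ hi)
      (prod_pos fun j _ => mul_pos (hr _) (hc _)))

/-- A coefficient of maximal weighted size that gives a minor of the multiplication by `p`. -/
theorem exists_minor (hw : IsNonarchimedean w) {σ : Type} [Fintype σ] {p : MvPolynomial σ k}
    (hp : p ≠ 0) {ρ : σ → ℝ} (hρ : ∀ j, 0 < ρ j) :
    ∃ ν ∈ p.support, (∀ μ, w (coeff μ p) / ∏ j, ρ j ^ μ j ≤ w (coeff ν p) / ∏ j, ρ j ^ ν j) ∧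
      ∀ (Γ : Type) [Fintype Γ] [DecidableEq Γ] (γ : Γ → σ →₀ ℕ), Function.Injective γ →
        w (Matrix.of fun a b => coeff (γ b + ν) (monomial (γ a) 1 * p)).det =
          w (coeff ν p) ^ Fintype.card Γ := by
  classical
  let e := Fintype.equivFin σ
  let _ : LinearOrder σ := LinearOrder.lift' e e.injective
  have : WellFoundedGT σ := Finite.to_wellFoundedGT
  let m : MonomialOrder σ := MonomialOrder.lex
  let q : (σ →₀ ℕ) → ℝ := fun μ => ∏ j, ρ j ^ μ j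
  have q0 : ∀ μ, 0 < q μ := fun μ => prod_pos fun j _ => pow_pos (hρ j) _
  have q1 : ∀ μ ν, q (μ + ν) = q μ * q ν := fun μ ν => by
    simp only [q, Finsupp.add_apply, pow_add, prod_mul_distrib]
  let n : (σ →₀ ℕ) → ℝ := fun μ => w (coeff μ p) / q μ
  obtain ⟨ν₀, h₀, h₁⟩ := exists_max_image p.support n (support_nonempty.2 hp)
  obtain ⟨ν, h₂, h₃⟩ := exists_max_image (p.support.filter fun μ => n μ = n ν₀) m.toSyn
    ⟨ν₀, mem_filter.2 ⟨h₀, rfl⟩⟩
  obtain ⟨h₂, h₄⟩ := mem_filter.1 h₂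
  have n0 : 0 < n ν := div_pos (w.pos (mem_support_iff.1 h₂)) (q0 ν)
  have n1 : ∀ μ, μ ∉ p.support → n μ = 0 := fun μ h => by simp [n, notMem_support_iff.1 h]
  have n2 : ∀ μ, n μ ≤ n ν := fun μ => by
    by_cases h : μ ∈ p.support
    · exact h₄ ▸ h₁ μ h
    · exact (n1 μ h).trans_le n0.le
  have n3 : ∀ μ, m.toSyn ν < m.toSyn μ → n μ < n ν := fun μ hμ => by
    by_cases h : μ ∈ p.support
    · exact (n2 μ).lt_of_ne fun e => hμ.not_ge (h₃ μ (mem_filter.2 ⟨h, e.trans h₄⟩))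
    · exact (n1 μ h).trans_lt n0
  refine ⟨ν, h₂, n2, fun Γ _ _ γ hγ => ?_⟩
  have k0 : ∀ a b, 0 < (q (γ a))⁻¹ * (n ν * q (γ b + ν)) := fun a b =>
    mul_pos (inv_pos.2 (q0 _)) (mul_pos n0 (q0 _))
  have k1 : ∀ a b, coeff (γ b + ν) (monomial (γ a) 1 * p) = 0 ∨ ∃ μ, γ a + μ = γ b + ν ∧
      w (coeff (γ b + ν) (monomial (γ a) 1 * p)) = (q (γ a))⁻¹ * (n μ * q (γ b + ν)) := by
    intro a b
    by_cases h : γ a ≤ γ b + ν
    · obtain ⟨μ, hμ⟩ := le_iff_exists_add.1 h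
      refine Or.inr ⟨μ, hμ.symm, ?_⟩
      have := q0 μ
      have := q0 (γ a)
      rw [hμ, coeff_monomial_mul, one_mul, q1]
      simp only [n]
      field_simp
    · exact Or.inl (by rw [coeff_monomial_mul', if_neg h])
  have k2 : ∀ a, coeff (γ a + ν) (monomial (γ a) 1 * p) = coeff ν p := fun a => by
    rw [coeff_monomial_mul, one_mul]
  rw [det_tri hw (m.toSyn.injective.comp hγ) _ (r := fun a => (q (γ a))⁻¹)
    (c := fun b => n ν * q (γ b + ν)) (fun a => inv_pos.2 (q0 _)) (fun a => mul_pos n0 (q0 _))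
    (fun a b => ?_) (fun a b hab => ?_) fun a => ?_]
  · simp only [Matrix.of_apply, k2, prod_const, card_univ]
  · rcases k1 a b with h | ⟨μ, -, h⟩
    · rw [Matrix.of_apply, h, map_zero]
      exact (k0 a b).le
    · rw [Matrix.of_apply, h]
      exact mul_le_mul_of_nonneg_left (mul_le_mul_of_nonneg_right (n2 μ) (q0 _).le)
        (inv_pos.2 (q0 _)).le
  · rcases k1 a b with h | ⟨μ, hμ, h⟩
    · rw [Matrix.of_apply, h, map_zero]
      exact k0 a b
    · rw [Matrix.of_apply, h]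
      refine mul_lt_mul_of_pos_left (mul_lt_mul_of_pos_right (n3 μ (lt_of_not_ge fun hle => ?_))
        (q0 _)) (inv_pos.2 (q0 _))
      have := add_lt_add_of_lt_of_le hab hle
      simp only [Function.comp_apply, ← map_add, hμ, lt_self_iff_false] at this
  · have := q0 ν
    have := q0 (γ a)
    rw [Matrix.of_apply, k2, q1]
    simp only [n]
    field_simp

end Pool.Agent.Lib.MP_651af7_nt.Tb
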