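import Pool.Agent.Lib.MP_651af7_nt.Tb.Su
import Pool.Agent.Lib.MP_651af7_nt.Tb.Tri

/-! A large minor of the Koszul matrix at a non-archimedean place. -/

namespace Pool.Agent.Lib.MP_651af7_nt.Tb

open MvPolynomial Finset Matrix Real

variable {F : Type} [Field F] {n : ℕ} {f : Bool → MvPolynomial (Fin n) F} {d : Fin n →₀ ℕ}

theorem ultra (w : AbsoluteValue F ℝ) (hw : IsNonarchimedean w)
    (hd : ∀ b, ∀ ν ∈ (f b).support, ν ≤ d) (a : Fin n →₀ ℕ) (lam : Fin n → ℝ) {b : Bool}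
    {ν : Fin n →₀ ℕ} (hν : coeff ν (f b) ≠ 0) :
    ∃ c : Box a → Bool × Box (a + d), Function.Injective c ∧
      ((Lam f a (a + d)).submatrix id c).det ≠ 0 ∧
      (Iic a).card * (log (w (coeff ν (f b))) - ∑ j, ν j * lam j) +
        ∑ γ, ∑ j, (((c γ).2.1 j : ℝ) - γ.1 j) * lam j ≤
      log (w ((Lam f a (a + d)).submatrix id c).det) := by
  obtain ⟨u, hu, hu'⟩ : ∃ u : F, w u = 1 ∧ u = if !b then 1 else -1 :=
    ⟨_, by cases b <;> simp, rfl⟩
  have u0 : u ≠ 0 := fun h => by simp [h] at hu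
  have hp : C u * f b ≠ 0 := mul_ne_zero (C_ne_zero.2 u0) fun h => hν (by simp [h])
  obtain ⟨μ, h1, h2, h3⟩ := exists_minor hw hp (ρ := fun j => exp (lam j)) fun j => exp_pos _
  have h4 : coeff μ (f b) ≠ 0 := by simpa [u0] using h1
  let c : Box a → Bool × Box (a + d) := fun γ =>
    (!b, ⟨γ.1 + μ, mem_Iic.2 (add_le_add (mem_Iic.1 γ.2) (hd b μ (mem_support_iff.2 h4)))⟩)
  have h5 : (Lam f a (a + d)).submatrix id c =
      of fun α β : Box a => coeff (β.1 + μ) (monomial α.1 1 * (C u * f b)) := by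
    ext α β
    simp only [Lam, c, submatrix_apply, id, of_apply, Bool.not_not, ← hu', ← mul_assoc,
      mul_comm _ (C u), C_mul_monomial, mul_one]
  have h6 := h3 (Box a) Subtype.val Subtype.val_injective
  rw [← h5, coeff_C_mul, map_mul, hu, one_mul, Fintype.card_coe] at h6
  have h7 := h2 ν
  have e : ∀ κ : Fin n →₀ ℕ, ∏ j, exp (lam j) ^ κ j = exp (∑ j, κ j * lam j) := fun κ => by
    simp only [exp_sum, exp_nat_mul]
  simp only [coeff_C_mul, map_mul, hu, one_mul, e] at h7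
  have h8 := log_le_log (div_pos (w.pos hν) (exp_pos _)) h7
  rw [log_div (w.pos hν).ne' (exp_pos _).ne', log_div (w.pos h4).ne' (exp_pos _).ne', log_exp,
    log_exp] at h8
  refine ⟨c, fun α β h => Subtype.ext (add_right_cancel (congrArg (fun e => e.2.1) h)),
    fun h => ?_, ?_⟩
  · rw [h, map_zero] at h6
    exact (pow_pos (w.pos h4) _).ne h6
  · simp only [h6, log_pow, c, Finsupp.add_apply, Nat.cast_add, add_sub_cancel_left, sum_const,
      card_univ, Fintype.card_coe, nsmul_eq_mul]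
    nlinarith [mul_le_mul_of_nonneg_left h8 (Nat.cast_nonneg (Iic a).card)]

end Pool.Agent.Lib.MP_651af7_nt.Tb
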