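import Pool.Agent.Lib.MP_651af7_nt.Tb.Lin
import Pool.Agent.Lib.MP_651af7_nt.Tb.Ult

/-! The height of the subbundle given by two coprime polynomials is bounded below. -/

namespace Pool.Agent.Lib.MP_651af7_nt.Tb

open MvPolynomial Finset Height NumberField Matrix Real
open Rt (Pl av mu)

variable {k : Type} [Field k] {n N r : ℕ}

/-- The rows of `B` times products of coordinates. -/
def twi {R E : Type} [CommRing R] (x : Fin n × Fin N → R) (α : E → Fin n →₀ ℕ)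
    (B : Matrix E (Fin r) R) : Matrix (E × (Fin n → Fin N)) (Fin r) R :=
  fun e l => (∏ j, x (j, e.2 j) ^ α e.1 j) * B e.1 l

theorem mne_twi {R E : Type} [CommRing R] (x : Fin n × Fin N → R) (α : E → Fin n →₀ ℕ)
    (B : Matrix E (Fin r) R) (e : Fin r → E) (a : Fin n → Fin N) :
    mne (twi x α B) (fun l => (e l, a)) = (∏ l, ∏ j, x (j, a j) ^ α (e l) j) * mne B e :=
  det_mul_column (fun l => ∏ j, x (j, a j) ^ α (e l) j) (B.submatrix e id)

theorem pw_le (w : AbsoluteValue k ℝ) (x : Fin n × Fin N → k) (a : Fin n → Fin N)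
    (e : Fin n → ℕ) :
    w (∏ j, x (j, a j) ^ e j) ≤ exp (∑ j, e j * ls (fun b => x (j, b)) w) := by
  rw [map_prod, exp_sum]
  refine prod_le_prod (fun j _ => w.nonneg _) fun j _ => ?_
  rw [map_pow, exp_nat_mul]
  exact pow_le_pow_left₀ (w.nonneg _) (le_exp_ls (fun b => x (j, b)) w (a j)) _

theorem log_pw (w : AbsoluteValue k ℝ) {u : Fin n → k} (hu : ∀ j, u j ≠ 0) (e : Fin n → ℕ) :
    log (w (∏ j, u j ^ e j)) = ∑ j, e j * log (w (u j)) := by
  rw [map_prod, log_prod fun j _ => (w.pos (pow_ne_zero _ (hu j))).ne']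
  simp only [map_pow, log_pow]

variable {x : Fin n × Fin N → k} {φ : Bool → MvPolynomial (Fin n) k} {a d κ : Fin n →₀ ℕ}
  {B : Matrix (Bool × Box (a + d)) (Fin r) k} {θ₀ : Fin r ⊕ Box a ≃ Bool × Box (a + d)} {D : ℕ}
  {Z : (Bool × Box d) × (Fin n → Fin N) → k}

theorem min_out (w : AbsoluteValue k ℝ) (hw : IsNonarchimedean w)
    (hx : ∀ j, (fun b => x (j, b)) ≠ 0) (hd : ∀ b, ∀ ν ∈ (φ b).support, ν ≤ d)
    (hB : Lam φ a (a + d) * B = 0) (h1 : B.submatrix (fun l => θ₀ (.inl l)) id = 1)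
    (h0 : ((Lam φ a (a + d)).submatrix id fun γ => θ₀ (.inr γ)).det ≠ 0) (hD : ∀ j, κ j + d j ≤ D)
    (hZ : ∀ q, Z q = coeff q.1.2.1 (φ q.1.1) * ∏ j, x (j, q.2 j) ^ (D - (κ + q.1.2.1) j))
    (hZ0 : Z ≠ 0) :
    (Iic a).card * ls Z w + ∑ j, (∑ e : Bool × Box (a + d), (e.2.1 j : ℝ) -
      ∑ γ : Box a, (γ.1 j : ℝ) - (Iic a).card * ((D : ℝ) - κ j)) * ls (fun b => x (j, b)) w -
      log (w ((Lam φ a (a + d)).submatrix id fun γ => θ₀ (.inr γ)).det) ≤
      ls (mne (twi x (fun e => e.2.1) B)) w := by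
  obtain ⟨⟨⟨b, ν⟩, a'⟩, q1, q2⟩ := exists_ls hZ0 w
  rw [hZ] at q1 q2
  have q3 := left_ne_zero_of_mul q1
  choose s s1 s2 using fun j => exists_ls (hx j) w
  obtain ⟨c, c1, c2, c3⟩ := ultra w hw hd a (fun j => ls (fun b => x (j, b)) w) q3
  obtain ⟨θ, hθ⟩ := exists_theta (r := r)
    (by simpa only [Fintype.card_sum, Fintype.card_fin] using Fintype.card_congr θ₀) c1
  have e1 := dual w B _ hB θ₀ θ h1
  rw [show (fun γ => θ (.inr γ)) = c from funext hθ] at e1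
  have e2 : mne B (fun l => θ (.inl l)) ≠ 0 := fun e => by
    rw [e, map_zero, zero_mul] at e1
    exact (w.pos c2).ne e1
  have e3 := congrArg log e1
  rw [log_mul (w.pos e2).ne' (w.pos h0).ne'] at e3
  have e4 : ∀ l, ∏ j, x (j, s j) ^ (θ (.inl l)).2.1 j ≠ 0 := fun l =>
    prod_ne_zero_iff.2 fun j _ => pow_ne_zero _ (s1 j)
  have e5 := le_ls (mne (twi x (fun e => e.2.1) B)) w (i := fun l => (θ (.inl l), s))
    (by rw [mne_twi]; exact mul_ne_zero (prod_ne_zero_iff.2 fun l _ => e4 l) e2)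
  rw [mne_twi, map_mul, log_mul (w.pos (prod_ne_zero_iff.2 fun l _ => e4 l)).ne' (w.pos e2).ne',
    map_prod, log_prod fun l _ => (w.pos (e4 l)).ne'] at e5
  simp only [log_pw w s1, ← s2] at e5
  have e6 : ls Z w ≤ log (w (coeff ν.1 (φ b))) +
      ∑ j, ((D : ℝ) - κ j - ν.1 j) * ls (fun b => x (j, b)) w := by
    rw [q2, map_mul, log_mul (w.pos q3).ne' (w.pos (right_ne_zero_of_mul q1)).ne']
    refine add_le_add_right ((log_le_iff_le_exp (w.pos (right_ne_zero_of_mul q1))).2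
      ((pw_le w x a' _).trans_eq (congrArg exp (sum_congr rfl fun j _ => ?_)))) _
    have : κ j + ν.1 j ≤ D := (Nat.add_le_add_left (mem_Iic.1 ν.2 j) _).trans (hD j)
    rw [Finsupp.add_apply, Nat.cast_sub this, Nat.cast_add, sub_sub]
  have e7 : ∀ j, ∑ e : Bool × Box (a + d), (e.2.1 j : ℝ) =
      ∑ l, ((θ (.inl l)).2.1 j : ℝ) + ∑ γ, ((c γ).2.1 j : ℝ) := fun j => by
    rw [← θ.sum_comp, Fintype.sum_sum_type]
    simp only [hθ]
  rw [sum_comm] at c3 e5
  have e8 := mul_le_mul_of_nonneg_left e6 (Nat.cast_nonneg (α := ℝ) (Iic a).card)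
  simp only [e7, sub_mul, add_mul, mul_sub, mul_add, sum_sub_distrib, sum_add_distrib, sum_mul,
    mul_sum, mul_assoc] at c3 e5 e8 ⊢
  linarith

variable [NumberField k] {S : Finset (FinitePlace k)}

theorem min_ge {a₀ : Fin n → Fin N} (hx : ∀ j, x (j, a₀ j) = 1)
    (hd : ∀ b, ∀ ν ∈ (φ b).support, ν ≤ d)
    (hB : Lam φ a (a + d) * B = 0) (h1 : B.submatrix (fun l => θ₀ (.inl l)) id = 1)
    (h0 : ((Lam φ a (a + d)).submatrix id fun γ => θ₀ (.inr γ)).det ≠ 0) (hD : ∀ j, κ j + d j ≤ D)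
    (hZ : ∀ q, Z q = coeff q.1.2.1 (φ q.1.1) * ∏ j, x (j, q.2 j) ^ (D - (κ + q.1.2.1) j))
    (hZ0 : Z ≠ 0) {E : Pl S → ℝ} (hE : ∀ s b ν, av s (coeff ν (φ b)) ≤ exp (E s))
    (hE' : ∀ s, av s ((Lam φ a (a + d)).submatrix id fun γ => θ₀ (.inr γ)).det⁻¹ ≤ exp (E s)) :
    (Iic a).card * (logHeight Z - D * ∑ j, logHeight fun b => x (j, b)) +
      ∑ j, (∑ e : Bool × Box (a + d), (e.2.1 j : ℝ) - ∑ γ : Box a, (γ.1 j : ℝ) +
        (Iic a).card * κ j) * oS S (ls fun b => x (j, b)) - ((Iic a).card + 1) * ∑ s, mu s * E s ≤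
      logHeight (mne (twi x (fun e => e.2.1) B)) := by
  have x0 : ∀ j, (fun b => x (j, b)) ≠ 0 := fun j e => one_ne_zero ((hx j).symm.trans (congrFun e _))
  have x1 : ∀ j w, 0 ≤ ls (fun b => x (j, b)) w := fun j w => by
    simpa only [hx, map_one, log_one] using
      le_ls (fun b => x (j, b)) w (i := a₀ j) (by rw [hx]; exact one_ne_zero)
  have m1 : mne (twi x (fun e => e.2.1) B) (fun l => (θ₀ (.inl l), a₀)) = 1 := by
    rw [mne_twi, mne, h1]
    simp [hx]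
  have m2 : 0 ≤ iS S (ls (mne (twi x (fun e => e.2.1) B))) := iS_nonneg fun w => by
    have := le_ls (mne (twi x (fun e => e.2.1) B)) w (i := fun l => (θ₀ (.inl l), a₀))
      (m1.trans_ne one_ne_zero)
    rwa [m1, map_one, log_one] at this
  have f1 := fun j => (fs_ls fun b => x (j, b)).mul (∑ e : Bool × Box (a + d), (e.2.1 j : ℝ) -
    ∑ γ : Box a, (γ.1 j : ℝ) - (Iic a).card * ((D : ℝ) - κ j))
  have f2 := (fs_ls Z).mul (Iic a).card
  have m3 := oS_mono (S := S) ((f2.add (FS.sum univ f1)).sub (fs_log _)) (fs_ls _) fun w _ =>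
    min_out w.1 (FinitePlace.add_le w) x0 hd hB h1 h0 hD hZ hZ0
  rw [oS_sub (f2.add (FS.sum univ f1)) (fs_log _), oS_add f2 (FS.sum univ f1), oS_sum _ f1,
    oS_mul _ (fs_ls _)] at m3
  simp only [oS_mul _ (fs_ls _)] at m3
  have m4 := pf_split S h0
  have m5 : -∑ s, mu s * E s ≤ iS S fun w =>
      log (w ((Lam φ a (a + d)).submatrix id fun γ => θ₀ (.inr γ)).det) := by
    rw [← sum_neg_distrib]
    refine sum_le_sum fun s _ => (mul_neg _ _).ge.trans
      (mul_le_mul_of_nonneg_left (neg_le.1 ?_) (Nat.cast_nonneg _))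
    rw [← log_inv, ← map_inv₀, log_le_iff_le_exp ((av s).pos (inv_ne_zero h0))]
    exact hE' s
  have m6 : iS S (ls Z) ≤ ∑ s, mu s * E s + D * ∑ j, iS S (ls fun b => x (j, b)) := by
    rw [← iS_sum, ← iS_mul, iS, iS, ← sum_add_distrib]
    refine sum_le_sum fun s _ => (mul_le_mul_of_nonneg_left (ls_le hZ0 fun q => ?_)
      (Nat.cast_nonneg _)).trans_eq (mul_add _ _ _)
    rw [hZ, map_mul, exp_add]
    refine mul_le_mul (hE s _ _) ((pw_le _ x _ _).trans (exp_le_exp.2 ?_)) ((av s).nonneg _)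
      (exp_pos _).le
    rw [mul_sum]
    exact sum_le_sum fun j _ =>
      mul_le_mul_of_nonneg_right (Nat.cast_le.2 (Nat.sub_le _ _)) (x1 j _)
  have m7 := mul_le_mul_of_nonneg_left m6 (Nat.cast_nonneg (α := ℝ) (Iic a).card)
  rw [ht_split S (x := mne _) fun e => one_ne_zero (m1.symm.trans (congrFun e _)), ht_split S hZ0]
  simp only [fun j => ht_split S (x0 j)]
  simp only [sub_mul, add_mul, mul_sub, mul_add, sum_sub_distrib, sum_add_distrib,
    mul_assoc, ← mul_sum] at m3 m7 ⊢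
  linarith

end Pool.Agent.Lib.MP_651af7_nt.Tb
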