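import Pool.Agent.Lib.MP_651af7_nt.Tb.Gc1

/-! Adapted bases: upper bounds for the linear forms. -/

namespace Pool.Agent.Lib.MP_651af7_nt.Tb

open MvPolynomial Finset Height NumberField Matrix Real
open Rt (Pl av mu)
open Es (vol)
open Ex (lx)

variable {k : Type} [Field k] {n N r M : ℕ}

theorem sum_cast (hr : r ≤ M) {A : Type} [Fintype A] (σ : Fin M ≃ A) (g : A → ℝ) {β : ℝ}
    (hβ : ∀ μ, 0 ≤ g μ + β) : ∑ l, g (σ (Fin.castLE hr l)) ≤ ∑ μ, g μ + ((M : ℝ) - r) * β := by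
  classical
  have h1 : ∑ l : Fin r, (g (σ (Fin.castLE hr l)) + β) ≤ ∑ μ, (g μ + β) := by
    rw [← sum_image (s := univ) (g := fun l => σ (Fin.castLE hr l)) (f := fun μ => g μ + β)
      fun _ _ _ _ e => Fin.castLE_injective hr (σ.injective e)]
    exact sum_le_sum_of_subset_of_nonneg (subset_univ _) fun μ _ _ => hβ μ
  simp only [sum_add_distrib, sum_const, card_univ, nsmul_eq_mul, ← Fintype.card_congr σ,
    Fintype.card_fin] at h1
  linarith

theorem exists_anti {A : Type} (e : Fin M ≃ A) (g : A → ℝ) :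
    ∃ σ : Fin M ≃ A, ∀ i j, i ≤ j → g (σ j) ≤ g (σ i) :=
  ⟨(Tuple.sort fun i => -g (e i)).trans e, fun _ _ h =>
    neg_le_neg_iff.1 (Tuple.monotone_sort (fun i => -g (e i)) h)⟩

variable {b κ : Fin n →₀ ℕ} {u : Fin n → k} {c : (Fin M → Box b) → Fin r → Box b → k}
  {L : (Fin M → Box b) → Fin r → k}

theorem form_loc (w : AbsoluteValue k ℝ) (hr : r ≤ M) (hM : (Iic b).card = M) (hu : ∀ j, u j ≠ 0)
    (hc : ∀ τ l (i : Fin M), i.1 < l.1 → c τ l (τ i) = 0)
    (hL : ∀ τ l, L τ l = (∏ j, u j ^ κ j) * ∑ μ, c τ l μ * ∏ j, u j ^ μ.1 j) (h0 : ∀ τ l, L τ l ≠ 0)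
    {E : ℝ} (hE : ∀ τ l μ, w (c τ l μ) ≤ exp E) :
    ∃ τ, ∑ l, log (w (L τ l)) ≤ r * (E + M) +
      ∑ j, (r * κ j + ∑ μ : Box b, (μ.1 j : ℝ)) * log (w (u j)) +
      ((M : ℝ) - r) * ∑ j, b j * |log (w (u j))| := by
  obtain ⟨σ, hσ⟩ := exists_anti (Fintype.equivFinOfCardEq ((Fintype.card_coe _).trans hM)).symm
    fun μ : Box b => ∑ j, μ.1 j * log (w (u j))
  have p0 : ∀ e : Fin n → ℕ, ∏ j, u j ^ e j ≠ 0 := fun e =>
    prod_ne_zero_iff.2 fun j _ => pow_ne_zero _ (hu j)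
  have h1 : ∀ l, log (w (L σ l)) ≤ E + M + ∑ j, κ j * log (w (u j)) +
      ∑ j, (σ (Fin.castLE hr l)).1 j * log (w (u j)) := fun l => by
    have h2 : w (∑ μ, c σ l μ * ∏ j, u j ^ μ.1 j) ≤
        exp (E + M + ∑ j, (σ (Fin.castLE hr l)).1 j * log (w (u j))) := by
      rw [← σ.sum_comp]
      refine (w.sum_le _ _).trans ((sum_le_card_nsmul _ _ (exp (E +
        ∑ j, (σ (Fin.castLE hr l)).1 j * log (w (u j)))) fun i _ => ?_).trans ?_)
      · rcases lt_or_ge i.1 l.1 with h | h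
        · rw [hc σ l i h, zero_mul, map_zero]
          exact (exp_pos _).le
        · rw [map_mul, exp_add]
          refine mul_le_mul (hE _ _ _) ?_ (w.nonneg _) (exp_pos _).le
          rw [← log_le_iff_le_exp (w.pos (p0 _)), log_pw w hu]
          exact hσ _ _ h
      · rw [card_univ, Fintype.card_fin, nsmul_eq_mul, add_right_comm, exp_add _ (M : ℝ), mul_comm]
        exact mul_le_mul_of_nonneg_left (by linarith [add_one_le_exp (M : ℝ)]) (exp_pos _).le
    have h3 := right_ne_zero_of_mul (hL σ l ▸ h0 σ l)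
    rw [hL, map_mul, log_mul (w.pos (p0 _)).ne' (w.pos h3).ne', log_pw w hu]
    linarith [(log_le_iff_le_exp (w.pos h3)).2 h2]
  have h4 := sum_cast hr σ (fun μ : Box b => ∑ j, μ.1 j * log (w (u j)))
    (β := ∑ j, b j * |log (w (u j))|) fun μ => by
      rw [← sum_add_distrib]
      refine sum_nonneg fun j _ => ?_
      have h5 : (μ.1 j : ℝ) ≤ b j := Nat.cast_le.2 (mem_Iic.1 μ.2 j)
      nlinarith [neg_abs_le (log (w (u j))), abs_nonneg (log (w (u j))),
        Nat.cast_nonneg (α := ℝ) (μ.1 j)]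
  refine ⟨σ, (sum_le_sum fun l _ => h1 l).trans ?_⟩
  rw [sum_comm (s := univ) (t := univ) (f := fun (μ : Box b) j => (μ.1 j : ℝ) * _)] at h4
  simp only [sum_add_distrib, sum_const, card_univ, Fintype.card_fin, nsmul_eq_mul, add_mul,
    sum_mul, mul_assoc, ← mul_sum (a := (r : ℝ))] at h4 ⊢
  linarith

variable [NumberField k] {S : Finset (FinitePlace k)} {x P : Fin n × Fin N → k}
  {a₀ : Fin n → Fin N}

omit [NumberField k] in
theorem ls_blk (hu : ∀ j, u j ≠ 0) (hx : ∀ j, x (j, a₀ j) = 1) (hP : ∀ s, P s = u s.1 * x s)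
    (j : Fin n) (w : AbsoluteValue k ℝ) :
    ls (fun b => x (j, b)) w + log (w (u j)) ≤ ls (fun b => P (j, b)) w := by
  obtain ⟨i, h1, h2⟩ := exists_ls (x := fun b => x (j, b))
    (fun e => one_ne_zero ((hx j).symm.trans (congrFun e _))) w
  have := le_ls (fun b => P (j, b)) w (i := i) (by rw [hP]; exact mul_ne_zero (hu j) h1)
  rw [hP, map_mul, log_mul (w.pos (hu j)).ne' (w.pos h1).ne'] at this
  linarith

omit [NumberField k] in
theorem ls_blk' (hu : ∀ j, u j ≠ 0) (hx : ∀ j, x (j, a₀ j) = 1) (hP : ∀ s, P s = u s.1 * x s)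
    (j : Fin n) (w : AbsoluteValue k ℝ) :
    ls (fun b => P (j, b)) w ≤ ls (fun b => x (j, b)) w + log (w (u j)) :=
  ls_le (fun e => hu j (by simpa [hP, hx] using congrFun e (a₀ j))) fun i => by
    rw [hP, map_mul, exp_add, exp_log (w.pos (hu j)), mul_comm]
    exact mul_le_mul_of_nonneg_right (le_exp_ls (fun b => x (j, b)) w i) (w.nonneg _)

theorem lu_le (hu : ∀ j, u j ≠ 0) (hx : ∀ j, x (j, a₀ j) = 1) (hP : ∀ s, P s = u s.1 * x s)
    (j : Fin n) : iS S (fun w => log (w (u j))) ≤ oS S (ls fun b => x (j, b)) +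
      oS S fun w => |ls (fun b => P (j, b)) w| := by
  have h1 := oS_mono (S := S) ((fs_log (u j)).mul (-1)) ((fs_ls fun b => x (j, b)).add
    (fs_ls fun b => P (j, b)).abs) fun w _ => by
      linarith [ls_blk' hu hx hP j w.1, neg_abs_le (ls (fun b => P (j, b)) w.1)]
  rw [oS_mul _ (fs_log _), oS_add (fs_ls _) (fs_ls _).abs] at h1
  linarith [pf_split S (hu j)]

theorem abs_lu_le (hu : ∀ j, u j ≠ 0) (hx : ∀ j, x (j, a₀ j) = 1) (hP : ∀ s, P s = u s.1 * x s)
    (j : Fin n) : iS S (fun w => |log (w (u j))|) ≤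
      2 * logHeight fun o : Option (Fin n × Fin N) => o.elim 1 P := by
  have h1 : ∀ w : AbsoluteValue k ℝ, 0 ≤ ls (fun o : Option (Fin n × Fin N) => o.elim 1 P) w :=
    fun w => by
      simpa using le_ls (fun o : Option (Fin n × Fin N) => o.elim 1 P) w (i := none) one_ne_zero
  have h2 : ∀ w : AbsoluteValue k ℝ,
      log (w (u j)) ≤ ls (fun o : Option (Fin n × Fin N) => o.elim 1 P) w := fun w => by
    simpa [hP, hx] using le_ls (fun o : Option (Fin n × Fin N) => o.elim 1 P) w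
      (i := some (j, a₀ j)) (by simpa [hP, hx] using hu j)
  have h3 : iS S (fun w => |log (w (u j))|) ≤ iS S fun w =>
      2 * ls (fun o : Option (Fin n × Fin N) => o.elim 1 P) w - log (w (u j)) :=
    iS_mono fun s => abs_le.2 ⟨by linarith [h1 (av s)], by linarith [h2 (av s)]⟩
  have h4 := oS_mono (S := S) (fs_log (u j)) (fs_ls _) fun w _ => h2 w.1
  rw [iS_sub, iS_mul] at h3
  rw [ht_split S fun e => one_ne_zero (congrFun e none)]
  linarith [pf_split S (hu j), oS_nonneg (S := S) h1]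

theorem blk_le (hu : ∀ j, u j ≠ 0) (hP : ∀ s, P s = u s.1 * x s) (j : Fin n) :
    logHeight (fun b => x (j, b)) ≤ logHeight fun o : Option (Fin n × Fin N) => o.elim 1 P := by
  rw [← logHeight_smul_eq_logHeight _ (hu j)]
  refine le_of_eq_of_le (congrArg _ (funext fun b => ?_)) (logHeight_comp_le (fun b => some (j, b)) _)
  exact (hP (j, b)).symm

/-- The subspace inequality, with the forms replaced by their bounds. -/
theorem vol_ge (hr : r ≤ M) (hM : (Iic b).card = M) (hu : ∀ j, u j ≠ 0) (hx : ∀ j, x (j, a₀ j) = 1)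
    (hP : ∀ s, P s = u s.1 * x s) (hc : ∀ τ l (i : Fin M), i.1 < l.1 → c τ l (τ i) = 0)
    (hL : ∀ τ l, L τ l = (∏ j, u j ^ κ j) * ∑ μ, c τ l μ * ∏ j, u j ^ μ.1 j) (h0 : ∀ τ l, L τ l ≠ 0)
    {E : Pl S → ℝ} (hE : ∀ s τ l μ, av s (c τ l μ) ≤ exp (E s)) {ι : Type} [Finite ι] {z : ι → k}
    (hz : z ≠ 0) : ∃ τ : Pl S → Fin M → Box b, r * iS S (ls z) - (r * (∑ s, mu s * E s +
      iS S fun _ => M) + ∑ j, (r * κ j + ∑ μ : Box b, (μ.1 j : ℝ)) * (oS S (ls fun b => x (j, b)) +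
        oS S fun w => |ls (fun b => P (j, b)) w|) + ((M : ℝ) - r) * ∑ j, b j *
          (2 * logHeight fun o : Option (Fin n × Fin N) => o.elim 1 P)) ≤
      vol fun s l => lx (av s) z (L (τ s) l) := by
  choose τ hτ using fun s : Pl S => form_loc (av s) hr hM hu hc hL h0 (hE s)
  refine ⟨τ, ?_⟩
  have h1 : ∀ s l, lx (av s) z (L (τ s) l) = ls z (av s) - log (av s (L (τ s) l)) := fun s l => by
    obtain ⟨i, hi⟩ := Function.ne_iff.1 hz
    exact log_div (((av s).pos hi).trans_le (Finite.le_ciSup (fun i => av s (z i)) i)).ne'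
      ((av s).pos (h0 _ _)).ne'
  have h2 := sum_le_sum fun s (_ : s ∈ univ) =>
    mul_le_mul_of_nonneg_left (hτ s) (Nat.cast_nonneg (α := ℝ) (mu s))
  have h3 : ∑ j, (r * κ j + ∑ μ : Box b, (μ.1 j : ℝ)) * iS S (fun w => log (w (u j))) ≤ _ :=
    sum_le_sum fun j _ => mul_le_mul_of_nonneg_left (lu_le hu hx hP j) (by positivity)
  have h4 : ((M : ℝ) - r) * ∑ j, b j * iS S (fun w => |log (w (u j))|) ≤ _ :=
    mul_le_mul_of_nonneg_left (sum_le_sum fun j _ => mul_le_mul_of_nonneg_left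
      (abs_lu_le hu hx hP j) (Nat.cast_nonneg _)) (sub_nonneg.2 (Nat.cast_le.2 hr))
  simp only [← iS_mul, ← iS_sum] at h3 h4
  simp only [vol, h1, sum_sub_distrib, mul_sub, sum_const, card_univ, Fintype.card_fin,
    nsmul_eq_mul, mul_left_comm _ (r : ℝ), ← mul_sum]
  simp only [iS, mul_add, sum_add_distrib, mul_left_comm _ (r : ℝ), ← mul_sum (a := (r : ℝ))]
    at h2 h3 h4 ⊢
  linarith

end Pool.Agent.Lib.MP_651af7_nt.Tb
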