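import Pool.Agent.Lib.MP_651af7_nt.Tb.Su

/-! Counts of the points of boxes and their first and second differences. -/

namespace Pool.Agent.Lib.MP_651af7_nt.Tb

open Finset

variable {n : ℕ}

theorem card_box (b : Fin n →₀ ℕ) : (Iic b).card = ∏ j, (b j + 1) := by
  rw [Finsupp.card_Iic]
  simp only [Nat.card_Iic]
  exact prod_subset (subset_univ _) fun j _ hj => by rw [Finsupp.notMem_support_iff.1 hj, zero_add]

theorem sum_box (b : Fin n →₀ ℕ) (j : Fin n) : 2 * ∑ α : Box b, α.1 j = b j * (Iic b).card := by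
  rw [sum_coe_sort (Iic b) fun α => α j]
  have h : ∑ α ∈ Iic b, α j = ∑ α ∈ Iic b, (b - α) j :=
    sum_nbij' (fun α => b - α) (fun α => b - α) (fun α _ => mem_Iic.2 tsub_le_self)
      (fun α _ => mem_Iic.2 tsub_le_self) (fun α h => tsub_tsub_cancel_of_le (mem_Iic.1 h))
      (fun α h => tsub_tsub_cancel_of_le (mem_Iic.1 h))
      fun α h => by rw [tsub_tsub_cancel_of_le (mem_Iic.1 h)]
  rw [two_mul]
  nth_rewrite 2 [h]
  rw [← sum_add_distrib, mul_comm, ← smul_eq_mul, ← sum_const]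
  exact sum_congr rfl fun α h => by
    rw [Finsupp.tsub_apply, add_tsub_cancel_of_le (mem_Iic.1 h j)]

theorem num_diffs {ι : Type} (s : Finset ι) (d : ι → ℝ) {m D : ℝ} (hm : 0 ≤ m)
    (h0 : ∀ i, 0 ≤ d i) (h1 : ∀ i, d i ≤ D) (hD : 0 ≤ D) :
    (0 ≤ ∏ _i ∈ s, m ∧ ∏ _i ∈ s, m ≤ ∏ i ∈ s, (m + d i) ∧
      ∏ i ∈ s, (m + d i) ≤ ∏ i ∈ s, (m + 2 * d i) ∧
      ∏ i ∈ s, (m + 2 * d i) ≤ 2 ^ s.card * ∏ i ∈ s, (m + d i) ∧
      2 * ∏ i ∈ s, (m + d i) ≤ ∏ i ∈ s, (m + 2 * d i) + ∏ _i ∈ s, m) ∧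
    m * (∏ i ∈ s, (m + 2 * d i) - ∏ i ∈ s, (m + d i)) ≤ s.card * D * ∏ i ∈ s, (m + 2 * d i) ∧
    m * (∏ i ∈ s, (m + d i) - ∏ _i ∈ s, m) ≤ s.card * D * ∏ i ∈ s, (m + 2 * d i) ∧
    m * (m * (∏ i ∈ s, (m + 2 * d i) - 2 * ∏ i ∈ s, (m + d i) + ∏ _i ∈ s, m)) ≤
      (s.card * D) ^ 2 * ∏ i ∈ s, (m + 2 * d i) := by
  classical
  induction s using Finset.induction_on with
  | empty => norm_num
  | insert a s ha ih =>
    obtain ⟨⟨a1, a2, a3, a4, a5⟩, a6, a7, a8⟩ := ih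
    simp only [prod_insert ha, card_insert_of_notMem ha, Nat.cast_add, Nat.cast_one,
      pow_succ _ s.card]
    have b0 := h0 a
    have b1 := h1 a
    have b3 : (0 : ℝ) ≤ s.card := Nat.cast_nonneg _
    have b2 : (0 : ℝ) ≤ 2 ^ s.card := by positivity
    generalize ∏ _i ∈ s, m = A at *
    generalize ∏ i ∈ s, (m + d i) = B at *
    generalize ∏ i ∈ s, (m + 2 * d i) = C at *
    generalize (2 : ℝ) ^ s.card = E at *
    generalize (s.card : ℝ) = r at *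
    generalize d a = x at *
    have hB : 0 ≤ B := a1.trans a2
    have hC : 0 ≤ C := hB.trans a3
    have c1 : m * C * x ≤ m * C * D := mul_le_mul_of_nonneg_left b1 (by positivity)
    have c2 : 0 ≤ r * D * C * x := by positivity
    have c3 : 0 ≤ D * C * x := by positivity
    have c4 : m * B * x ≤ m * C * x := by gcongr
    refine ⟨⟨by positivity, by gcongr; linarith, by gcongr; linarith, ?_, ?_⟩, ?_, ?_, ?_⟩
    · calc (m + 2 * x) * C ≤ (2 * (m + x)) * (E * B) := by gcongr; linarith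
        _ = _ := by ring
    · linarith [mul_le_mul_of_nonneg_left a5 hm, mul_le_mul_of_nonneg_left a3 b0]
    · linarith [mul_le_mul_of_nonneg_left a6 (add_nonneg hm b0)]
    · linarith [mul_le_mul_of_nonneg_left a7 hm]
    · have c5 : x * m * (m * (C - B)) ≤ D * m * (r * D * C) :=
        mul_le_mul (by gcongr) a6 (mul_nonneg hm (by linarith)) (by positivity)
      have c6 : 0 ≤ m * D ^ 2 * C := by positivity
      have c7 : 0 ≤ ((r + 1) * D) ^ 2 * x * C := by positivity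
      linarith [mul_le_mul_of_nonneg_left a8 hm]

theorem num_cast (d : Fin n → ℕ) (M : ℕ) :
    (cb d M 0 : ℝ) = ∏ _j : Fin n, (M + 1 : ℝ) ∧ (cb d M 1 : ℝ) = ∏ j, (M + 1 + d j : ℝ) ∧
      (cb d M 2 : ℝ) = ∏ j, (M + 1 + 2 * d j : ℝ) := by
  unfold cb
  push_cast
  exact ⟨prod_congr rfl fun _ _ => by ring, prod_congr rfl fun _ _ => by ring,
    prod_congr rfl fun _ _ => by ring⟩

theorem num_le (d : Fin n → ℕ) (j : Fin n) : (d j : ℝ) ≤ ∑ i, (d i : ℝ) :=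
  single_le_sum (f := fun i => (d i : ℝ)) (fun _ _ => Nat.cast_nonneg _) (mem_univ j)

theorem cb_conv (d : Fin n → ℕ) (M : ℕ) : 2 * cb d M 1 ≤ cb d M 2 + cb d M 0 := by
  obtain ⟨e0, e1, e2⟩ := num_cast d M
  have h := (num_diffs univ (fun j => (d j : ℝ)) (m := M + 1) (by positivity)
    (fun _ => Nat.cast_nonneg _) (num_le d) (by positivity)).1.2.2.2.2
  rw [← e0, ← e1, ← e2] at h
  exact_mod_cast h

theorem exists_cb (d : Fin n → ℕ) {δ : ℝ} (hδ : 0 < δ) : ∃ M : ℕ,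
    (M + 1 : ℝ) * (cb d M 2 - 2 * cb d M 1 + cb d M 0) ≤ δ * cb d M 1 ∧
    (cb d M 2 : ℝ) - cb d M 1 ≤ δ * cb d M 1 ∧ (cb d M 1 : ℝ) - cb d M 0 ≤ δ * cb d M 1 := by
  obtain ⟨L, hL⟩ : ∃ L : ℝ, L = (univ : Finset (Fin n)).card * ∑ i, (d i : ℝ) := ⟨_, rfl⟩
  obtain ⟨E, hE⟩ : ∃ E : ℝ, E = 2 ^ (univ : Finset (Fin n)).card := ⟨_, rfl⟩
  have L0 : 0 ≤ L := hL ▸ by positivity
  have E0 : 0 ≤ E := hE ▸ by positivity
  obtain ⟨M, hM⟩ := exists_nat_ge ((L + L ^ 2) * E / δ)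
  obtain ⟨e0, e1, e2⟩ := num_cast d M
  obtain ⟨⟨a1, a2, -, a4, -⟩, a6, a7, a8⟩ := num_diffs univ (fun j => (d j : ℝ)) (m := M + 1)
    (by positivity) (fun _ => Nat.cast_nonneg _) (num_le d) (by positivity)
  rw [← hL] at a6 a7 a8
  rw [← hE] at a4
  refine ⟨M, ?_⟩
  rw [e0, e1, e2]
  generalize ∏ _j : Fin n, (M + 1 : ℝ) = A at *
  generalize ∏ j, (M + 1 + d j : ℝ) = B at *
  generalize ∏ j, (M + 1 + 2 * d j : ℝ) = C at *
  have hm : (0 : ℝ) < M + 1 := by positivity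
  have hB : 0 ≤ B := a1.trans a2
  rw [div_le_iff₀ hδ] at hM
  have h1 : (L + L ^ 2) * E * B ≤ (M + 1) * δ * B :=
    mul_le_mul_of_nonneg_right (by linarith) hB
  have h2 : L * C ≤ L * (E * B) := mul_le_mul_of_nonneg_left a4 L0
  have h3 : L ^ 2 * C ≤ L ^ 2 * (E * B) := mul_le_mul_of_nonneg_left a4 (by positivity)
  have h4 : 0 ≤ L * (E * B) := by positivity
  have h5 : 0 ≤ L ^ 2 * (E * B) := by positivity
  exact ⟨le_of_mul_le_mul_left (by linarith) hm, le_of_mul_le_mul_left (by linarith) hm,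
    le_of_mul_le_mul_left (by linarith) hm⟩

end Pool.Agent.Lib.MP_651af7_nt.Tb
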