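import Pool.Agent.Lib.MP_651af7_nt.Tb.Gc2
import Pool.Agent.Lib.MP_651af7_nt.Tb.Num

/-! The choice of the boxes and the inequality at one point. -/

namespace Pool.Agent.Lib.MP_651af7_nt.Tb

open MvPolynomial Finset Height NumberField Matrix Real
open Rt (Pl av mu)
open Es (vol)
open Ex (lx)

variable {k : Type} [Field k] {n N r M : ℕ}

/-- The numerical conditions on the three boxes. -/
structure Good (δ : ℝ) (a d : Fin n →₀ ℕ) (r : ℕ) : Prop where
  add : r + (Iic a).card = 2 * (Iic (a + d)).card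
  le : r ≤ (Iic (a + d + d)).card
  ge : (Iic a).card ≤ r
  sec : ∀ j, ∑ μ : Box (a + d + d), (μ.1 j : ℝ) - ∑ e : Bool × Box (a + d), (e.2.1 j : ℝ) +
    ∑ γ : Box a, (γ.1 j : ℝ) ≤ δ * r * (1 + d j)
  fst : (r : ℝ) - (Iic a).card ≤ δ * r * 2
  cod : ∀ j, (((Iic (a + d + d)).card : ℝ) - r) * (a + d + d : Fin n →₀ ℕ) j ≤ δ * r * (1 + 2 * d j)

theorem exists_good (d : Fin n →₀ ℕ) {δ : ℝ} (hδ : 0 < δ) : ∃ a r, Good δ a d r := by
  obtain ⟨M, h1, h2, h3⟩ := exists_cb d hδ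
  let a : Fin n →₀ ℕ := Finsupp.equivFunOnFinite.symm fun _ => M
  have ha : ∀ j, a j = M := fun _ => rfl
  have c0 : (Iic a).card = cb d M 0 := (card_box _).trans (prod_congr rfl fun j _ => by simp [ha])
  have c1 : (Iic (a + d)).card = cb d M 1 :=
    (card_box _).trans (prod_congr rfl fun j _ => by simp [ha])
  have c2 : (Iic (a + d + d)).card = cb d M 2 :=
    (card_box _).trans (prod_congr rfl fun j _ => by simp only [Finsupp.add_apply, ha]; ring)
  have c3 : cb d M 0 ≤ cb d M 1 := prod_le_prod' fun j _ => by omega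
  have c4 := cb_conv d M
  obtain ⟨r, hr⟩ : ∃ r, r + cb d M 0 = 2 * cb d M 1 := ⟨2 * cb d M 1 - cb d M 0, by omega⟩
  have r1 : (r : ℝ) + cb d M 0 = 2 * cb d M 1 := by exact_mod_cast hr
  have r2 : δ * cb d M 1 ≤ δ * r := mul_le_mul_of_nonneg_left (Nat.cast_le.2 (by omega)) hδ.le
  have r3 : (0 : ℝ) ≤ cb d M 2 - r := sub_nonneg.2 (Nat.cast_le.2 (by omega))
  have r4 : (M + 1 : ℝ) * (cb d M 2 - r) ≤ δ * r := by
    rw [show (cb d M 2 : ℝ) - r = cb d M 2 - 2 * cb d M 1 + cb d M 0 by linarith]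
    linarith
  have s : ∀ (b : Fin n →₀ ℕ) j, 2 * ∑ α : Box b, (α.1 j : ℝ) = b j * (Iic b).card := fun b j => by
    exact_mod_cast sum_box b j
  have hM := Nat.cast_nonneg (α := ℝ) M
  refine ⟨a, r, by rw [c0, c1, hr], by omega, by omega, fun j => ?_, by rw [c0]; linarith,
    fun j => ?_⟩
  · have s0 := s a j
    have s1 := s (a + d) j
    have s2 := s (a + d + d) j
    have hd := Nat.cast_nonneg (α := ℝ) (d j)
    simp only [Finsupp.add_apply, ha, Nat.cast_add, c0, c1, c2] at s0 s1 s2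
    rw [Fintype.sum_prod_type, Fintype.sum_bool]
    have e : (cb d M 0 : ℝ) = 2 * cb d M 1 - r := by linarith
    rw [e] at s0
    nlinarith [mul_le_mul_of_nonneg_left (h2.trans r2) hd]
  · have hd := Nat.cast_nonneg (α := ℝ) (d j)
    simp only [Finsupp.add_apply, ha, Nat.cast_add, c2]
    nlinarith [mul_le_mul_of_nonneg_left r4 hd, mul_nonneg (mul_nonneg hd hM) r3]

variable [NumberField k] {S : Finset (FinitePlace k)} {x P : Fin n × Fin N → k}
  {a₀ : Fin n → Fin N} {u : Fin n → k} {a d κ : Fin n →₀ ℕ}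

theorem out_le {g : Bool → k} {b : Fin n →₀ ℕ} {z : (Bool × Box b) × (Fin n → Fin N) → k}
    (hz : ∀ e, z e = (∏ j, P (j, e.2 j) ^ e.1.2.1 j) * g e.1.1) (h0 : z ≠ 0) :
    oS S (ls z) ≤ oS S (ls g) + ∑ j, b j * oS S fun w => |ls (fun b => P (j, b)) w| := by
  have f1 := fun j => (fs_ls fun b => P (j, b)).abs.mul (b j)
  have h1 := oS_mono (S := S) (fs_ls z) ((fs_ls g).add (FS.sum univ f1)) fun w _ =>
    ls_le h0 fun e => by
      rw [hz, map_mul, add_comm, exp_add]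
      refine mul_le_mul ((pw_le _ P _ _).trans (exp_le_exp.2 (sum_le_sum fun j _ => ?_)))
        (le_exp_ls g _ _) (w.1.nonneg _) (exp_pos _).le
      exact (mul_le_mul_of_nonneg_left (le_abs_self _) (Nat.cast_nonneg _)).trans
        (mul_le_mul_of_nonneg_right (Nat.cast_le.2 (mem_Iic.1 e.1.2.2 j)) (abs_nonneg _))
  rw [oS_add (fs_ls g) (FS.sum univ f1), oS_sum _ f1] at h1
  simpa only [oS_mul _ (fs_ls _).abs] using h1

theorem real_fin {r c δ ε H E y z γ T A B n D C₁ C₂ C₃ C₄ C₅ : ℝ} (hr : 1 ≤ r) (h0 : 0 ≤ c)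
    (hc : c ≤ r) (hε : 0 ≤ ε) (hH : 0 ≤ H) (hn : 0 ≤ n) (hD : 0 ≤ D) (hE : 0 ≤ E)
    (hy : y ≤ n * H) (hz : z ≤ D * H + C₄) (hE' : E ≤ ε * y + C₃)
    (h : -(r * γ) ≤ r * T + r * (E + C₅) + δ * r * A * H + δ * r * B * H + c * (ε * y + C₂) +
      (c + 1) * E + ε * (y + z) + C₁) :
    -γ ≤ (δ * (A + B) + ε * (5 * n + D)) * H + T + (|C₁| + |C₂| + 3 * |C₃| + ε * |C₄| + C₅) := by
  have y1 : ε * y ≤ ε * (n * H) := mul_le_mul_of_nonneg_left hy hε
  have y2 : 0 ≤ ε * (n * H) := by positivity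
  have e1 : E ≤ ε * (n * H) + |C₃| := by linarith [le_abs_self C₃]
  have t1 := mul_le_mul_of_nonneg_left e1 (zero_le_one.trans hr)
  have t2 : (c + 1) * E ≤ 2 * r * (ε * (n * H) + |C₃|) :=
    mul_le_mul (by linarith) e1 hE (by linarith)
  have t3 : c * (ε * y + C₂) ≤ r * (ε * (n * H) + |C₂|) :=
    (mul_le_mul_of_nonneg_left (by linarith [le_abs_self C₂]) h0).trans
      (mul_le_mul_of_nonneg_right hc (by positivity))
  have t4 : ε * (y + z) + C₁ ≤ r * (ε * (n * H) + ε * (D * H + |C₄|) + |C₁|) := by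
    refine le_trans ?_ (le_mul_of_one_le_left (by positivity) hr)
    have := mul_le_mul_of_nonneg_left (hz.trans (add_le_add_right (le_abs_self C₄) _)) hε
    linarith [le_abs_self C₁]
  refine le_of_mul_le_mul_left ?_ (zero_lt_one.trans_le hr)
  linarith

theorem gcd_pt {δ ε E C₁ C₂ C₃ C₄ C₅ hZ hm vl : ℝ} {D D' : ℕ} (G : Good δ a d r) (hδ : 0 ≤ δ)
    (hε : 0 ≤ ε) (hu : ∀ j, u j ≠ 0) (hx : ∀ j, x (j, a₀ j) = 1) (hP : ∀ s, P s = u s.1 * x s)
    {g : Bool → k} {z : (Bool × Box (a + d)) × (Fin n → Fin N) → k}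
    (hz : ∀ e, z e = (∏ j, P (j, e.2 j) ^ e.1.2.1 j) * g e.1.1) (h0 : z ≠ 0) (hE : 0 ≤ E)
    (h1 : vl + hm ≤ r * logHeight z + ε * ((∑ j, logHeight fun b => x (j, b)) + logHeight z) + C₁)
    (h2 : D * (∑ j, logHeight fun b => x (j, b)) - hZ ≤
      ε * (∑ j, logHeight fun b => x (j, b)) + C₂)
    (h3 : E ≤ ε * (∑ j, logHeight fun b => x (j, b)) + C₃)
    (h4 : logHeight z ≤ D' * logHeight (fun o : Option (Fin n × Fin N) => o.elim 1 P) + C₄)
    (h5 : (Iic a).card * (hZ - D * ∑ j, logHeight fun b => x (j, b)) +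
      ∑ j, (∑ e : Bool × Box (a + d), (e.2.1 j : ℝ) - ∑ γ : Box a, (γ.1 j : ℝ) +
        (Iic a).card * κ j) * oS S (ls fun b => x (j, b)) - ((Iic a).card + 1) * E ≤ hm)
    (h6 : r * iS S (ls z) - (r * (E + C₅) + ∑ j, (r * κ j + ∑ μ : Box (a + d + d), (μ.1 j : ℝ)) *
      (oS S (ls fun b => x (j, b)) + oS S fun w => |ls (fun b => P (j, b)) w|) +
      (((Iic (a + d + d)).card : ℝ) - r) * ∑ j, (a + d + d : Fin n →₀ ℕ) j *
        (2 * logHeight fun o : Option (Fin n × Fin N) => o.elim 1 P)) ≤ vl) :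
    -oS S (ls g) ≤ (δ * (∑ j, (1 + d j + 2 * κ j : ℝ) + ∑ j, 2 * (1 + 2 * d j : ℝ)) +
      ε * (5 * n + D')) * logHeight (fun o : Option (Fin n × Fin N) => o.elim 1 P) +
      (∑ j, (((a + d : Fin n →₀ ℕ) j : ℝ) + κ j + ∑ μ : Box (a + d + d), (μ.1 j : ℝ))) *
        oS S (fun w => ∑ j, |ls (fun b => P (j, b)) w|) +
      (|C₁| + |C₂| + 3 * |C₃| + ε * |C₄| + C₅) := by
  have x0 : ∀ j, (fun b => x (j, b)) ≠ 0 := fun j e => one_ne_zero ((hx j).symm.trans (congrFun e _))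
  have x1 : ∀ j w, 0 ≤ ls (fun b => x (j, b)) w := fun j w => by
    simpa only [hx, map_one, log_one] using
      le_ls (fun b => x (j, b)) w (i := a₀ j) (by rw [hx]; exact one_ne_zero)
  have r0 : (1 : ℝ) ≤ r := Nat.one_le_cast.2 ((card_pos.2 nonempty_Iic).trans_le G.ge)
  have r1 := zero_le_one.trans r0
  have hH := logHeight_nonneg fun o : Option (Fin n × Fin N) => o.elim 1 P
  have o1 : ∀ j, oS S (ls fun b => x (j, b)) ≤
      logHeight fun o : Option (Fin n × Fin N) => o.elim 1 P := fun j => by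
    linarith [blk_le hu hP j, ht_split S (x0 j), iS_nonneg (S := S) (x1 j)]
  have n0 : ∀ j, 0 ≤ oS S fun w => |ls (fun b => P (j, b)) w| := fun j =>
    oS_nonneg fun _ => abs_nonneg _
  have t5 : ∑ j, (r * κ j + ∑ μ : Box (a + d + d), (μ.1 j : ℝ)) * oS S (ls fun b => x (j, b)) -
      ∑ j, (∑ e : Bool × Box (a + d), (e.2.1 j : ℝ) - ∑ γ : Box a, (γ.1 j : ℝ) +
        (Iic a).card * κ j) * oS S (ls fun b => x (j, b)) ≤ δ * r * (∑ j, (1 + d j + 2 * κ j : ℝ)) *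
          logHeight fun o : Option (Fin n × Fin N) => o.elim 1 P := by
    rw [← sum_sub_distrib, mul_sum, sum_mul]
    refine sum_le_sum fun j _ => (sub_mul _ _ _).ge.trans
      (mul_le_mul ?_ (o1 j) (oS_nonneg (x1 j)) (by positivity))
    linarith [G.sec j, mul_le_mul_of_nonneg_right G.fst (Nat.cast_nonneg (α := ℝ) (κ j))]
  have t6 : (((Iic (a + d + d)).card : ℝ) - r) * ∑ j, (a + d + d : Fin n →₀ ℕ) j *
      (2 * logHeight fun o : Option (Fin n × Fin N) => o.elim 1 P) ≤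
      δ * r * (∑ j, 2 * (1 + 2 * d j : ℝ)) *
        logHeight fun o : Option (Fin n × Fin N) => o.elim 1 P := by
    rw [mul_sum, mul_sum, sum_mul]
    exact sum_le_sum fun j _ => by linarith [mul_le_mul_of_nonneg_right (G.cod j) hH]
  have t7 : r * ∑ j, ((a + d : Fin n →₀ ℕ) j : ℝ) * oS S (fun w => |ls (fun b => P (j, b)) w|) +
      ∑ j, (r * κ j + ∑ μ : Box (a + d + d), (μ.1 j : ℝ)) *
        oS S (fun w => |ls (fun b => P (j, b)) w|) ≤
      r * ((∑ j, (((a + d : Fin n →₀ ℕ) j : ℝ) + κ j + ∑ μ : Box (a + d + d), (μ.1 j : ℝ))) *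
        oS S fun w => ∑ j, |ls (fun b => P (j, b)) w|) := by
    rw [oS_sum _ fun j => (fs_ls _).abs, mul_sum, ← sum_add_distrib, sum_mul, mul_sum]
    refine sum_le_sum fun j _ => le_trans ?_ (mul_le_mul_of_nonneg_left
      (mul_le_mul_of_nonneg_left (single_le_sum (fun j _ => n0 j) (mem_univ j)) (by positivity)) r1)
    have := mul_le_mul_of_nonneg_right (le_mul_of_one_le_left
      (show 0 ≤ ∑ μ : Box (a + d + d), (μ.1 j : ℝ) by positivity) r0) (n0 j)
    linarith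
  have t8 := mul_le_mul_of_nonneg_left (out_le (S := S) hz h0) r1
  refine real_fin r0 (Nat.cast_nonneg (Iic a).card) (Nat.cast_le.2 G.ge) hε hH (Nat.cast_nonneg n)
    (Nat.cast_nonneg D') hE ((sum_le_card_nsmul _ _ _ fun j _ => blk_le hu hP j).trans_eq
      (by simp)) h4 h3 ?_
  have t9 := mul_le_mul_of_nonneg_left h2 (Nat.cast_nonneg (α := ℝ) (Iic a).card)
  have t10 := congrArg (fun t => (r : ℝ) * t) (ht_split S h0)
  simp only [mul_add _ (oS S _) (oS S _), sum_add_distrib] at h6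
  linarith

end Pool.Agent.Lib.MP_651af7_nt.Tb
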