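import Pool.Agent.Lib.MP_651af7_nt.Tb.Su

/-! The Koszul relations of two coprime polynomials, on boxes. -/

namespace Pool.Agent.Lib.MP_651af7_nt.Tb

open MvPolynomial Finset Matrix

variable {F : Type} [Field F] {n : ℕ} {f : Bool → MvPolynomial (Fin n) F} {a d : Fin n →₀ ℕ}

theorem sum_box_coeff {b : Fin n →₀ ℕ} {P : MvPolynomial (Fin n) F} (hP : ∀ ν ∈ P.support, ν ≤ b) :
    ∑ α : Box b, monomial α.1 (coeff α.1 P) = P := by
  rw [sum_coe_sort (Iic b) fun α => monomial α (coeff α P)]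
  conv_rhs => rw [P.as_sum]
  exact (sum_subset (fun ν hν => mem_Iic.2 (hP ν hν)) fun ν _ hν => by
    rw [notMem_support_iff.1 hν, map_zero]).symm

theorem coeff_box {b : Fin n →₀ ℕ} (c : Box b → F) (α : Box b) :
    coeff α.1 (∑ β : Box b, monomial β.1 (c β)) = c α := by
  simp [coeff_sum, coeff_monomial]

theorem degreeOf_box {b : Fin n →₀ ℕ} (c : Box b → F) (j : Fin n) :
    degreeOf j (∑ β : Box b, monomial β.1 (c β)) ≤ b j := by
  refine (degreeOf_sum_le _ _ _).trans (Finset.sup_le fun β _ => degreeOf_le_iff.2 fun ν hν => ?_)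
  rw [mem_singleton.1 (support_monomial_subset hν)]
  exact mem_Iic.1 β.2 j

theorem sum_zz {b : Fin n →₀ ℕ} (c : Bool × Box b → F) : ∑ e, c e • zz f b e =
    (∑ α : Box b, monomial α.1 (c (true, α))) * f true +
      (∑ α : Box b, monomial α.1 (c (false, α))) * f false := by
  simp only [Fintype.sum_prod_type, Fintype.sum_bool, zz, sum_mul, ← smul_mul_assoc, smul_monomial,
    smul_eq_mul, mul_one]

theorem kos_one (hd : ∀ b, ∀ ν ∈ (f b).support, ν ≤ d) (γ : Box a) :
    ∑ e, Lam f a (a + d) γ e • zz f (a + d) e = 0 := by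
  have h : ∀ (c : F) b, ∀ ν ∈ (monomial γ.1 c * f b).support, ν ≤ a + d := fun c b ν hν => by
    obtain ⟨μ, h1, μ', h2, rfl⟩ := mem_add.1 (support_mul _ _ hν)
    rw [mem_singleton.1 (support_monomial_subset h1)]
    exact add_le_add (mem_Iic.1 γ.2) (hd b μ' h2)
  have e1 : ∀ α, Lam f a (a + d) γ (true, α) = coeff α.1 (monomial γ.1 1 * f false) :=
    fun _ => rfl
  have e2 : ∀ α, Lam f a (a + d) γ (false, α) = coeff α.1 (monomial γ.1 (-1) * f true) :=
    fun _ => rfl
  rw [sum_zz]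
  simp only [e1, e2]
  rw [sum_box_coeff (h 1 false), sum_box_coeff (h (-1) true), map_neg]
  ring

theorem kos_two (hf : IsRelPrime (f false) (f true)) (h0 : ∀ b, f b ≠ 0)
    (hd : ∀ j, d j = max (degreeOf j (f false)) (degreeOf j (f true)))
    (c : Bool × Box (a + d) → F) (hc : ∑ e, c e • zz f (a + d) e = 0) :
    ∃ b : Box a → F, c = b ᵥ* Lam f a (a + d) := by
  rw [sum_zz] at hc
  obtain ⟨P, hP⟩ : ∃ P : Bool → MvPolynomial (Fin n) F,
      ∀ s, P s = ∑ α : Box (a + d), monomial α.1 (c (s, α)) := ⟨_, fun _ => rfl⟩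
  rw [← hP, ← hP] at hc
  obtain ⟨Q, hQ⟩ : f false ∣ P true :=
    hf.dvd_of_dvd_mul_right ⟨-P false, by linear_combination hc⟩
  have hQ' : P false = f true * -Q := mul_right_cancel₀ (h0 false) (by
    rw [hQ] at hc
    linear_combination hc)
  have hs : ∀ ν ∈ Q.support, ν ≤ a := fun ν hν j => by
    have hQ0 : Q ≠ 0 := support_nonempty.1 ⟨ν, hν⟩
    have h1 := degreeOf_box (fun α => c (true, α)) j
    have h2 := degreeOf_box (fun α => c (false, α)) j
    rw [← hP, hQ, degreeOf_mul_eq (h0 _) hQ0] at h1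
    rw [← hP, hQ', degreeOf_mul_eq (h0 _) (neg_ne_zero.2 hQ0), degreeOf_neg] at h2
    have h3 := monomial_le_degreeOf j hν
    have h4 := hd j
    rw [Finsupp.add_apply] at h1 h2
    change ν j ≤ a j
    omega
  refine ⟨fun γ => coeff γ.1 Q, funext fun ⟨s, α⟩ => ?_⟩
  have h2 : ∀ (u : F) (g : MvPolynomial (Fin n) F),
      ∑ γ : Box a, coeff γ.1 Q • (monomial γ.1 u * g) = C u * Q * g := fun u g => by
    conv_rhs => rw [← sum_box_coeff hs, mul_sum, sum_mul]
    exact sum_congr rfl fun γ _ => by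
      rw [C_mul_monomial, ← smul_mul_assoc, smul_monomial, smul_eq_mul, mul_comm u]
  have h1 : P s = ∑ γ : Box a, coeff γ.1 Q • (monomial γ.1 (if s then 1 else -1) * f !s) := by
    rw [h2]
    cases s
    · simp [hQ', mul_comm]
    · simp [hQ, mul_comm]
  rw [← coeff_box (fun α => c (s, α)) α, ← hP, h1, coeff_sum]
  simp only [coeff_smul, smul_eq_mul]
  rfl

end Pool.Agent.Lib.MP_651af7_nt.Tb
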