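import Pool.Agent.Lib.MP_651af7_nt.Tb.Gc4
import Pool.Agent.Lib.MP_651af7_nt.Tb.Kos
import Pool.Agent.Lib.MP_651af7_nt.Tb.Cop
import Pool.Agent.Lib.MP_651af7_nt.Tb.Cod
import Pool.Agent.Lib.MP_651af7_nt.Tb.Cod0

/-! The greatest common divisor outside `S` on a torus bundle over an abelian variety. -/

namespace Pool.Agent.Lib.MP_651af7_nt.Tb

open MvPolynomial Finset Height NumberField Matrix Filter Bx Fc Real
open IntermediateField (adjoin)
open Rt (Pl av mu)

variable {k K β : Type} [Field k] [Field K] [Algebra k K] {n N r : ℕ}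
  {I : Ideal (MvPolynomial (Fin n × Fin N) k)} {ξ : Fin n × Fin N → K}
  {y : (Fin n → Fin N) → K} {t : Fin n → K} {η : Fin n × Fin N → adjoin k (Set.range y)}
  {𝓕 : Filter β} {v : β → K → k}

theorem exists_kos {F : Type} [Field F] {f : Bool → MvPolynomial (Fin n) F} {a d : Fin n →₀ ℕ}
    (hf : IsRelPrime (f false) (f true)) (h0 : ∀ b, f b ≠ 0)
    (hd : ∀ j, d j = max (degreeOf j (f false)) (degreeOf j (f true)))
    (hd' : ∀ b, ∀ ν ∈ (f b).support, ν ≤ d) (hr : r + (Iic a).card = 2 * (Iic (a + d)).card) :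
    ∃ (θ : Fin r ⊕ Box a ≃ Bool × Box (a + d)) (B : Matrix (Bool × Box (a + d)) (Fin r) F),
      ((Lam f a (a + d)).submatrix id fun γ => θ (.inr γ)).det ≠ 0 ∧
      LinearIndependent F (fun l => zz f (a + d) (θ (.inl l))) ∧
      (∀ e, zz f (a + d) e = ∑ l, B e l • zz f (a + d) (θ (.inl l))) ∧
      B.submatrix (fun l => θ (.inl l)) id = 1 ∧ Lam f a (a + d) * B = 0 := by
  classical
  obtain ⟨ν, hν⟩ := exists_coeff_ne_zero (h0 true)
  obtain ⟨c, c1, c2, -⟩ := ultra AbsoluteValue.trivial (fun x y => by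
    rcases eq_or_ne x 0 with rfl | hx
    · rw [zero_add]
      exact le_max_right _ _
    · refine le_trans ?_ (le_max_left _ _)
      rw [AbsoluteValue.trivial_apply hx]
      rcases eq_or_ne (x + y) 0 with e | e
      · rw [e, map_zero]
        exact zero_le_one
      · rw [AbsoluteValue.trivial_apply e]) hd' a 0 hν
  obtain ⟨θ, hθ⟩ := exists_theta (r := r) (by simpa using hr) c1
  rw [← show (fun γ => θ (.inr γ)) = c from funext hθ] at c2
  obtain ⟨i1, B, hB⟩ := kos_basis _ _ (kos_one hd') (kos_two hf h0 hd) θ c2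
  exact ⟨θ, B, c2, i1, hB⟩

theorem Su.t_ne (U : Su I ξ y t η) (j : Fin n) : t j ≠ 0 := fun e =>
  U.ind.transcendental j (e ▸ isAlgebraic_zero)

theorem Su.row (U : Su I ξ y t η) {f : Bool → MvPolynomial (Fin n × Fin N) k} {κ b : Fin n →₀ ℕ}
    {g : Bool → MvPolynomial (Fin n) (adjoin k (Set.range y))}
    (hg : ∀ b, Ph η (f b) = monomial κ 1 * g b) {e₀ : Fin r → Bool × Box b}
    {B : Matrix (Bool × Box b) (Fin r) (adjoin k (Set.range y))}
    (hB : ∀ e, zz g b e = ∑ l, B e l • zz g b (e₀ l)) (e : (Bool × Box b) × (Fin n → Fin N)) :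
    ∑ m, twi η (fun e => e.2.1) B e m • aeval t (monomial κ 1 * zz g b (e₀ m)) =
      (∏ j, ξ (j, e.2 j) ^ e.1.2.1 j) * aeval ξ (f e.1.1) := by
  simp only [twi, mul_smul, ← smul_sum, ← map_smul, ← mul_smul_comm, ← map_sum, ← mul_sum, ← hB]
  rw [mul_smul_comm, map_smul, zz, mul_left_comm, ← hg, aeval_mon, U.aeval_Ph, Algebra.smul_def, ← mul_assoc]
  simp only [map_prod, map_pow, ← prod_mul_distrib, ← mul_pow, U.mul, mul_comm (t _)]
  rfl

variable [NumberField k]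

theorem Su.gcd (U : Su I ξ y t η) (h : Sp 𝓕 v) {g : ℕ} (hs : Smooth (base I) g)
    {f : Bool → MvPolynomial (Fin n × Fin N) k} (hf : Ht2 I f) (h0 : ∀ b, f b ∉ I) {ε : ℝ}
    (hε : 0 < ε) : ∃ c : ℝ, ∃ W ∈ 𝓕, ∀ S : Finset (FinitePlace k), ∃ C : ℝ, ∀ p ∈ W,
      -oS S (ls fun b => v p (aeval ξ (f b))) ≤
        ε * logHeight (fun o : Option (Fin n × Fin N) => o.elim 1 fun s => v p (ξ s)) +
          c * oS S (fun w => ∑ j, |ls (fun b => v p (ξ (j, b))) w|) + C := by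
  classical
  obtain ⟨κ, f', k1, k2⟩ := U.cop hf h0
  have f0 : ∀ b, f' b ≠ 0 := fun b e => h0 b ((U.Ph_eq_zero _).1 (by rw [k1, e, mul_zero]))
  obtain ⟨d, d1⟩ : ∃ d : Fin n →₀ ℕ, ∀ j, d j = max (degreeOf j (f' false)) (degreeOf j (f' true)) :=
    ⟨Finsupp.equivFunOnFinite.symm _, fun _ => rfl⟩
  have hd : ∀ b, ∀ ν ∈ (f' b).support, ν ≤ d := fun b ν hν j => by
    refine (monomial_le_degreeOf j hν).trans (d1 j ▸ ?_)
    cases b
    exacts [le_max_left _ _, le_max_right _ _]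
  obtain ⟨A, hA⟩ : ∃ A : ℝ, A = ∑ j, (1 + d j + 2 * κ j : ℝ) + ∑ j, 2 * (1 + 2 * d j : ℝ) := ⟨_, rfl⟩
  have A0 : 0 ≤ A := by rw [hA]; positivity
  obtain ⟨a, r, G⟩ := exists_good d (δ := ε / 2 / (A + 1)) (by positivity)
  obtain ⟨θ, B, b0, i1, b1, b2, b3⟩ := exists_kos k2 f0 d1 hd G.add
  choose a₀ ha₀ using U.one
  let T : Fin r → K := fun l => aeval t (monomial κ 1 * zz f' (a + d) (θ (.inl l)))
  have T1 : ∀ c : Fin r → adjoin k (Set.range y), ∑ m, c m • T m =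
      aeval t (monomial κ 1 * ∑ m, c m • zz f' (a + d) (θ (.inl m))) := fun c => by
    simp only [T, mul_sum, mul_smul_comm, map_sum, map_smul]
  have i2 : LinearIndependent (adjoin k (Set.range y)) T :=
    Fintype.linearIndependent_iff.2 fun c hc => Fintype.linearIndependent_iff.1 i1 c
      ((mul_eq_zero.1 (algebraicIndependent_iff.1 U.ind _ (T1 c ▸ hc))).resolve_left (by simp))
  choose Gm g1 g2 using fun τ : Fin (Iic (a + d + d)).card → Box (a + d + d) =>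
    flag (Matrix.of fun l i => coeff (τ i).1 (zz f' (a + d) (θ (.inl l))))
  let Q := fun τ l => ∑ m, Gm τ l m • zz f' (a + d) (θ (.inl m))
  have Q1 : ∀ τ l (i : Fin _), i.1 < l.1 → coeff (τ i).1 (Q τ l) = 0 := fun τ l i e => by
    simpa only [Q, coeff_sum, coeff_smul, smul_eq_mul, Matrix.mul_apply, of_apply] using g2 τ l i e
  obtain ⟨D', C₄, p4⟩ := ht_poly fun e : (Bool × Box (a + d)) × (Fin n → Fin N) =>
    (∏ j, X (j, e.2 j) ^ e.1.2.1 j) * f e.1.1
  have hε' : 0 < ε / 2 / (5 * n + D' + 1) := by positivity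
  have m1 : mne (twi η (fun e => e.2.1) B) (fun l => (θ (.inl l), a₀)) ≠ 0 := by
    rw [mne_twi, mne, b2]
    simp [ha₀]
  obtain ⟨W₁, w1, p1⟩ := U.dt.sub h i2 _ m1 Gm g1 hε'
  have hν : ∀ b μ, coeff μ (Ph η (f b)) ≠ 0 → μ ∈ Set.range fun q : Box d => κ + q.1 :=
    fun b μ e => by
      rw [k1, coeff_monomial_mul'] at e
      split_ifs at e with e'
      · exact ⟨⟨μ - κ, mem_Iic.2 (hd b _ (mem_support_iff.2 (right_ne_zero_of_mul e)))⟩,
          add_tsub_cancel_of_le e'⟩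
      · exact absurd rfl e
  obtain ⟨W₂, w2, C₂, p2⟩ := g.eq_zero_or_pos.elim
    (fun e => U.cod0 h (e ▸ hs) hf _ hν (∑ j, (κ j + d j)) hε') fun hg =>
      U.cod h hg hs hf _ hν _ (fun q => sum_le_sum fun j _ =>
        Nat.add_le_add_left (mem_Iic.1 q.2 j) _) hε'
  obtain ⟨W₃, w3, p3⟩ := ev_all (fun _ => logHeight_nonneg _) (fun i => U.dt.fal h (Sum.elim
    (fun u : (Fin (Iic (a + d + d)).card → Box (a + d + d)) × Fin r × Box (a + d + d) =>
      coeff u.2.2.1 (Q u.1 u.2.1)) (fun o : Option (Bool × Box d) => o.elim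
        ((Lam f' a (a + d)).submatrix id fun γ => θ (.inr γ)).det⁻¹
        fun u => coeff u.2.1 (f' u.1)) i)) _ hε'
  have v1 : ∀ᶠ p in 𝓕, v p 0 = 0 ∧ v p 1 = 1 ∧ (∀ j, v p (t j) ≠ 0) ∧
      (∀ s, v p (ξ s) = v p (t s.1) * v p (η s)) ∧ (∀ b, v p (aeval ξ (f b)) ≠ 0) ∧
      (∀ b, v p (aeval ξ (f b)) = eval (fun s => v p (ξ s)) (f b)) ∧
      ∀ a, v p (y a) = ∏ j, v p (η (j, a j)) :=
    h.zero.and (h.one.and ((eventually_all.2 fun j => h.ne (U.t_ne j)).and
      ((eventually_all.2 fun s => U.mul s ▸ h.mul _ _).and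
        ((eventually_all.2 fun b => h.ne (mt (U.ker _).1 (h0 b))).and
          ((eventually_all.2 fun b => h.aeval ξ (f b)).and
            (eventually_all.2 fun a => U.seg a ▸ h.prod _ _))))))
  have v2 := (sp_lam h hd a (a + d)).and ((sp_mul h (Lam f' a (a + d)) B).and
    ((sp_twi h η (fun e => e.2.1) B).and ((sp_det h ((Lam f' a (a + d)).submatrix id
      fun γ => θ (.inr γ))).and ((h.ne fun e => b0 (Subtype.ext e)).and
        (h.inv (((Lam f' a (a + d)).submatrix id fun γ => θ (.inr γ)).det :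
          adjoin k (Set.range y)))))))
  have v3 := (eventually_all.2 fun e : (Bool × Box (a + d)) × (Fin n → Fin N) =>
    sp_mon h (fun j => ξ (j, e.2 j)) e.1.2.1 (aeval ξ (f e.1.1))).and
    ((eventually_all.2 fun u : _ × Fin r => sp_box h t κ (supp_zz hd (Gm u.1 u.2)
      fun m => θ (.inl m))).and (eventually_all.2 fun u : _ × Fin r =>
        h.ne (a := ∑ m, Gm u.1 u.2 m • T m) fun e => g1 u.1
          (det_eq_zero_of_row_eq_zero u.2 (Fintype.linearIndependent_iff.1 i2 _ e))))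
  refine ⟨∑ j, (((a + d : Fin n →₀ ℕ) j : ℝ) + κ j + ∑ μ : Box (a + d + d), (μ.1 j : ℝ)), _,
    inter_mem (inter_mem w1 (inter_mem w2 w3)) (v1.and (v2.and v3)), fun S => ?_⟩
  obtain ⟨C₁, q1⟩ := p1 S
  obtain ⟨C₃, q3⟩ := p3 S
  refine ⟨|C₁| + |C₂| + 3 * |C₃| + ε / 2 / (5 * n + D' + 1) * |C₄| +
    iS S fun _ => (Iic (a + d + d)).card, ?_⟩
  rintro p ⟨⟨x1, x2, x3⟩, ⟨y0, y1, y2, y3, y4, y5, y6⟩, ⟨z1, z2, z3, z4, z5, z6⟩, u1, u2, u3⟩
  obtain ⟨E, e0, e1, e2⟩ := q3 p x3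
  have hx : ∀ j, v p (η (j, a₀ j)) = 1 := fun j => by rw [ha₀]; exact y1
  have hy : logHeight (fun a => v p (y a)) = ∑ j, logHeight fun b => v p (η (j, b)) := by
    rw [← logHeight_fun_prod_eq (x := fun j b => v p (η (j, b)))
      fun j e => one_ne_zero ((hx j).symm.trans (congrFun e _))]
    exact congrArg _ (funext y6)
  obtain ⟨s1, s2⟩ := p2 p x2 (fun q => coeff q.1.2.1 (spz (v p) d (f' q.1.1)) *
    ∏ j, v p (η (j, q.2 j)) ^ (∑ j, (κ j + d j) - (κ + q.1.2.1) j)) fun q => by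
      rw [coeff_spz y0 (hd _), k1, coeff_monomial_mul, one_mul]
  have hz : ∀ e, v p (∑ m, twi η (fun e => e.2.1) B e m • T m) =
      (∏ j, v p (ξ (j, e.2 j)) ^ e.1.2.1 j) * v p (aeval ξ (f e.1.1)) := fun e => by
    rw [U.row k1 b1, u1]
  have z0 : (fun e => v p (∑ m, twi η (fun e => e.2.1) B e m • T m)) ≠ 0 := fun e => by
    have := (hz ((true, ⟨0, mem_Iic.2 bot_le⟩), a₀)).symm.trans (congrFun e _)
    simp [y4] at this
  have z7 : ((Lam (fun b => spz (v p) d (f' b)) a (a + d)).submatrix id fun γ => θ (.inr γ)).det =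
      v p (((Lam f' a (a + d)).submatrix id fun γ => θ (.inr γ)).det : adjoin k (Set.range y)) := by
    rw [z1, z4]
    rfl
  have h5 := min_ge (S := S) (x := fun s => v p (η s)) (B := B.map fun z => v p z) (θ₀ := θ)
    (φ := fun b => spz (v p) d (f' b)) (κ := κ) hx (fun b => supp_spz _ _ _)
    (by rw [z1, ← z2, b3]; exact Matrix.ext fun _ _ => y0)
    (by rw [submatrix_map, b2]; exact Matrix.map_one _ y0 y1) (z7 ▸ z5)
    (fun j => single_le_sum (f := fun j => κ j + d j) (fun _ _ => Nat.zero_le _) (mem_univ j))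
    (fun _ => rfl) s1 (E := E) (fun s b ν => by
      by_cases e : ν ≤ d
      · rw [coeff_spz y0 (hd _)]
        exact e2 s _ le_rfl (.inr (some (b, ⟨ν, mem_Iic.2 e⟩)))
      · rw [notMem_support_iff.1 (mt (supp_spz _ _ _ ν) e), map_zero]
        exact (exp_pos _).le) fun s => by
      rw [z7, ← z6]
      exact e2 s _ le_rfl (.inr none)
  obtain ⟨τ, h6⟩ := vol_ge (S := S) (x := fun s => v p (η s)) (P := fun s => v p (ξ s))
    (c := fun τ l μ => v p (coeff μ.1 (Q τ l) : adjoin k (Set.range y)))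
    (L := fun τ l => v p (∑ m, Gm τ l m • T m)) G.le rfl y2 hx y3
    (fun τ l i e => by rw [Q1 τ l i e]; exact y0) (fun τ l => by rw [T1]; exact u2 (τ, l))
    (fun τ l => u3 (τ, l)) (fun s τ l μ => e2 s _ le_rfl (.inl (τ, l, μ))) z0
  have h1 := q1 p x1 τ
  rw [z3, hy] at h1
  rw [hy] at s2
  replace e1 := e1.trans_eq (congrArg (fun z => _ * z + C₃) hy)
  refine (gcd_pt (x := fun s => v p (η s)) (P := fun s => v p (ξ s)) (D' := D') (C₄ := C₄) G
    (by positivity) hε'.le y2 hx y3 hz z0 (sum_nonneg fun s _ => mul_nonneg (Nat.cast_nonneg _)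
      (e0 s)) h1 s2 e1 (le_of_eq_of_le (congrArg _ (funext fun e => ?_)) (p4 _)) h5 h6).trans ?_
  · rw [hz, y5]
    simp
  · refine add_le_add_left (add_le_add_left (mul_le_mul_of_nonneg_right ?_
      (logHeight_nonneg _)) _) _
    have a1 : ε / 2 / (A + 1) * A ≤ ε / 2 := by
      rw [div_mul_eq_mul_div, div_le_iff₀ (by positivity)]
      linarith
    have a2 : ε / 2 / (5 * n + D' + 1) * (5 * n + D') ≤ ε / 2 := by
      rw [div_mul_eq_mul_div, div_le_iff₀ (by positivity)]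
      linarith
    rw [← hA]
    linarith

end Pool.Agent.Lib.MP_651af7_nt.Tb
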