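import Pool.Agent.Lib.MP_651af7_nt.Tb.Su

/-! Existence of the generic point of a multicone with its fibre coordinates. -/

namespace Pool.Agent.Lib.MP_651af7_nt.Tb

open MvPolynomial Bx Ds
open IntermediateField (adjoin)

variable {k : Type} [Field k] {n N : ℕ} {I : Ideal (MvPolynomial (Fin n × Fin N) k)}

theorem gen_pt {σ : Type} {I : Ideal (MvPolynomial σ k)} (hp : I.IsPrime) :
    ∃ (K : Type) (_ : Field K) (_ : Algebra k K) (ξ : σ → K), (∀ P, aeval ξ P = 0 ↔ P ∈ I) ∧
      adjoin k (Set.range ξ) = ⊤ ∧ ∀ (L : Type) [Field L] [Algebra k L] (x : σ → L),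
        (∀ P, aeval x P = 0 ↔ P ∈ I) → ∃ Ψ : K →ₐ[k] L, ∀ s, Ψ (ξ s) = x s := by
  let A := MvPolynomial σ k ⧸ I
  let K := FractionRing A
  let π : MvPolynomial σ k →ₐ[k] K := (IsScalarTower.toAlgHom k A K).comp (Ideal.Quotient.mkₐ k I)
  have h1 : ∀ P, aeval (fun s => π (X s)) P = algebraMap A K (Ideal.Quotient.mk I P) := fun P =>
    (DFunLike.congr_fun (aeval_unique π) P).symm
  refine ⟨K, inferInstance, inferInstance, fun s => π (X s), fun P => ?_, ?_, fun L _ _ x hx => ?_⟩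
  · rw [h1, map_eq_zero_iff _ (IsFractionRing.injective A K), Ideal.Quotient.eq_zero_iff_mem]
  · refine eq_top_iff.2 fun z _ => (IntermediateField.mem_adjoin_range_iff k _ _).2 ?_
    obtain ⟨a, b, -, rfl⟩ := IsFractionRing.div_surjective (A := A) z
    obtain ⟨a, rfl⟩ := Ideal.Quotient.mk_surjective a
    obtain ⟨b, rfl⟩ := Ideal.Quotient.mk_surjective b
    exact ⟨a, b, by rw [h1, h1]⟩
  · let g : A →ₐ[k] L := Ideal.Quotient.liftₐ I (aeval x) fun P hP => (hx P).2 hP
    have hg : Function.Injective g := (injective_iff_map_eq_zero g).2 fun a ha => by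
      obtain ⟨a, rfl⟩ := Ideal.Quotient.mk_surjective a
      exact Ideal.Quotient.eq_zero_iff_mem.2 ((hx a).1 ha)
    exact ⟨IsFractionRing.liftAlgHom hg, fun s =>
      (IsFractionRing.lift_algebraMap (g := g.toRingHom) hg _).trans (aeval_X x s)⟩

theorem gen_blk {M : ℕ} {J : Ideal (MvPolynomial (Fin M) (AlgebraicClosure k))}
    (hb : Birat ((base I).map (MvPolynomial.map (algebraMap k (AlgebraicClosure k)))) J) :
    ∃ a : Fin n → Fin N, ∀ j, X (j, a j) ∉ I := by
  obtain ⟨φ, ψ, h1, h2⟩ := hb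
  obtain ⟨a, ha⟩ := h1.ne
  refine ⟨a, fun j hj => ha (h1.map _ ?_)⟩
  have h3 : X a ∈ base I := by
    rw [base, Ideal.mem_comap, aeval_X]
    exact Ideal.mem_of_dvd _ (Finset.dvd_prod_of_mem _ (Finset.mem_univ j)) hj
  have h4 := h2.map _ (Ideal.mem_map_of_mem _ h3)
  rwa [map_X, aeval_X] at h4

theorem gen_scale {R : Type} [CommRing R] [Algebra k R] (e : Fin n × Fin N → R) (c : Fin n → R)
    (μ : Fin n → ℕ) (P : MvPolynomial (Fin n × Fin N) k) :
    aeval (fun s => e s * c s.1) (cp μ P) = (∏ j, c j ^ μ j) * aeval e (cp μ P) := by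
  have h : ∀ d : Fin n × Fin N →₀ ℕ, (d.prod fun s m => c s.1 ^ m) =
      ∏ j, c j ^ Finsupp.weight (fun s : Fin n × Fin N => (Pi.single s.1 1 : Fin n → ℕ)) d j := by
    intro d
    induction d using Finsupp.induction_linear with
    | zero => simp
    | add f g hf hg =>
      rw [Finsupp.prod_add_index' (fun _ => pow_zero _) fun _ _ _ => pow_add _ _ _, hf, hg,
        map_add, ← Finset.prod_mul_distrib]
      exact Finset.prod_congr rfl fun j _ => (pow_add _ _ _).symm
    | single s m =>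
      rw [Finsupp.prod_single_index (by exact pow_zero _), Finsupp.weight_single,
        Finset.prod_eq_single s.1 (fun j _ hj => by simp [hj]) (by simp)]
      simp
  rw [(cp μ P).as_sum, map_sum, map_sum, Finset.mul_sum]
  refine Finset.sum_congr rfl fun d hd => ?_
  rw [aeval_monomial, aeval_monomial, ← weightedHomogeneousComponent_isWeightedHomogeneous μ P
    (mem_support_iff.1 hd), ← h, mul_left_comm, ← Finsupp.prod_mul]
  simp only [mul_pow, mul_comm]

theorem gen_cl {F K : Type} [Field F] [Field K] [Algebra F K]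
    (Ψ : K →ₐ[F] FractionRing (MvPolynomial (Fin n) F)) {z : K} (hz : IsAlgebraic F z) :
    ∃ c : F, algebraMap F K c = z := by
  rcases eq_or_ne z 0 with rfl | h0
  · exact ⟨0, map_zero _⟩
  have h : ∀ w : K, IsAlgebraic F w → ∃ p : MvPolynomial (Fin n) F, algebraMap _ _ p = Ψ w :=
    fun w hw => IsIntegrallyClosed.isIntegral_iff.1 (hw.isIntegral.map Ψ).tower_top
  obtain ⟨p, hp⟩ := h z hz
  obtain ⟨q, hq⟩ := h z⁻¹ hz.inv
  have h1 : p * q = 1 := IsFractionRing.injective _ (FractionRing (MvPolynomial (Fin n) F)) (by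
    rw [map_mul, hp, hq, ← map_mul, mul_inv_cancel₀ h0, map_one, map_one])
  obtain ⟨c, -, rfl⟩ := isUnit_iff_eq_C_of_isReduced.1 (IsUnit.of_mul_eq_one _ h1)
  refine ⟨c, Ψ.toRingHom.injective ((Ψ.commutes c).trans (Eq.trans ?_ hp))⟩
  exact IsScalarTower.algebraMap_apply F (MvPolynomial (Fin n) F) _ c

theorem exists_su [CharZero k] {M : ℕ} (hp : I.IsPrime) (hI : ∀ P ∈ I, ∀ μ, cp μ P ∈ I)
    (hJ : Var (base I)) {J : Ideal (MvPolynomial (Fin M) (AlgebraicClosure k))} (hA : Abelian J)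
    (hb : Birat ((base I).map (MvPolynomial.map (algebraMap k (AlgebraicClosure k)))) J) :
    ∃ (K : Type) (_ : Field K) (_ : Algebra k K) (ξ : Fin n × Fin N → K)
      (y : (Fin n → Fin N) → K) (t : Fin n → K) (η : Fin n × Fin N → adjoin k (Set.range y)),
      Su I ξ y t η := by
  classical
  obtain ⟨a, ha⟩ := gen_blk hb
  obtain ⟨K, _, _, ξ, hk, htop, hl⟩ := gen_pt hp
  obtain ⟨t, ht⟩ : ∃ t : Fin n → K, ∀ j, t j = ξ (j, a j) := ⟨_, fun _ => rfl⟩
  have h0 : ∀ j, t j ≠ 0 := fun j h => ha j ((hk _).1 (by rw [aeval_X, ← ht, h]))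
  obtain ⟨e, he⟩ : ∃ e : Fin n × Fin N → K, ∀ s, e s * t s.1 = ξ s :=
    ⟨fun s => ξ s / t s.1, fun s => div_mul_cancel₀ _ (h0 _)⟩
  have h1 : ∀ j, e (j, a j) = 1 := fun j =>
    mul_right_cancel₀ (h0 j) ((he (j, a j)).trans (by rw [one_mul, ht]))
  obtain ⟨y, hy⟩ : ∃ y : (Fin n → Fin N) → K, ∀ b, y b = ∏ j, e (j, b j) := ⟨_, fun _ => rfl⟩
  have hm : ∀ s, e s ∈ adjoin k (Set.range y) := fun s =>
    IntermediateField.subset_adjoin _ _ ⟨Function.update a s.1 s.2, by
      rw [hy, Finset.prod_eq_single s.1 (fun j _ hj => by rw [Function.update_of_ne hj, h1])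
        (by simp), Function.update_self]⟩
  let F := adjoin k (Set.range y)
  let η : Fin n × Fin N → F := fun s => ⟨e s, hm s⟩
  let L := FractionRing (MvPolynomial (Fin n) F)
  let ι := IsScalarTower.toAlgHom k (MvPolynomial (Fin n) F) L
  have hι : Function.Injective ι := IsFractionRing.injective (MvPolynomial (Fin n) F) L
  have hξ : (fun s => e s * t s.1) = ξ := funext he
  have h2 : ∀ P, Ph η P = 0 ↔ P ∈ I := fun P => by
    refine ⟨fun h => (hk P).1 ?_, fun h => ?_⟩
    · have : ((aeval t : MvPolynomial (Fin n) F →ₐ[F] K).restrictScalars k).comp (Ph η) =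
          aeval ξ := MvPolynomial.algHom_ext fun s => by simpa [Ph] using he s
      rw [← this, AlgHom.comp_apply, h, map_zero]
    · rw [← sum_weightedHomogeneousComponent (fun s : Fin n × Fin N =>
        (Pi.single s.1 1 : Fin n → ℕ)) P, finsum_eq_sum _ (weightedHomogeneousComponent_finsupp P),
        map_sum]
      refine Finset.sum_eq_zero fun μ _ => (gen_scale _ _ μ P).trans ?_
      have h3 := (hk _).2 (hI P h μ)
      rw [← hξ, gen_scale, mul_eq_zero] at h3
      have h4 : aeval η (cp μ P) = 0 := (algebraMap F K).injective (by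
        rw [map_zero, ← aeval_algebraMap_apply]
        exact h3.resolve_left (Finset.prod_ne_zero_iff.2 fun j _ => pow_ne_zero _ (h0 j)))
      have h5 := aeval_algebraMap_apply (MvPolynomial (Fin n) F) η (cp μ P)
      rw [h4, map_zero] at h5
      exact mul_eq_zero_of_right _ h5
  obtain ⟨Ψ, hΨ⟩ := hl L (fun s => ι (C (η s) * X s.1)) fun P => by
    rw [← h2, ← map_eq_zero_iff ι hι, Ph, ← AlgHom.comp_apply, comp_aeval]
  have h6 : ∀ j, Ψ (t j) = ι (X j) := fun j => by
    rw [ht, hΨ, show η (j, a j) = 1 from Subtype.ext (h1 j), C_1, one_mul]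
  have h7 : ∀ s, Ψ (e s) = ι (C (η s)) := fun s =>
    mul_right_cancel₀ ((map_ne_zero Ψ).2 (h0 s.1)) (by rw [← map_mul, he, hΨ, h6, map_mul])
  have h8 : Ψ.comp F.val = ι.comp (IsScalarTower.toAlgHom k F _) :=
    IntermediateField.adjoin_algHom_ext k (by
      rintro _ ⟨b, rfl⟩
      have : (⟨y b, IntermediateField.subset_adjoin _ _ ⟨b, rfl⟩⟩ : F) = ∏ j, η (j, b j) :=
        Subtype.ext ((hy b).trans (map_prod F.val (fun j => η (j, b j)) _).symm)
      rw [this, map_prod, map_prod]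
      exact Finset.prod_congr rfl fun j _ => h7 _)
  let Φ : K →ₐ[F] L := { Ψ.toRingHom with
    commutes' := fun c => (DFunLike.congr_fun h8 c).trans
      (IsScalarTower.algebraMap_apply F (MvPolynomial (Fin n) F) L c).symm }
  refine ⟨K, _, _, ξ, y, t, η, hI, ⟨hJ, ⟨M, J, hA, hb⟩, ⟨a, ?_⟩, fun P d hP => ?_, fun z hz => ?_⟩,
    hk, htop, fun s => (he s).symm.trans (mul_comm _ _), fun j => ⟨a j, Subtype.ext (h1 j)⟩, hy, ?_⟩
  · rw [hy]
    exact Finset.prod_eq_one fun j _ => h1 j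
  · have h9 : (fun b : Fin n → Fin N => aeval ξ (∏ j, X (j, b j) : MvPolynomial _ k)) =
        fun b => (∏ j, t j) * y b := funext fun b => by
      rw [hy, map_prod, ← Finset.prod_mul_distrib]
      exact Finset.prod_congr rfl fun j _ => by rw [aeval_X, ← he, mul_comm]
    rw [base, Ideal.mem_comap, ← hk, bir1_aeval, h9, Av.aeval_mul_of_hom hP, mul_eq_zero]
    exact (or_iff_right (pow_ne_zero _ (Finset.prod_ne_zero_iff.2 fun j _ => h0 j))).symm
  · obtain ⟨c, rfl⟩ := gen_cl Φ hz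
    exact c.2
  · refine AlgebraicIndependent.of_comp Φ ?_
    rw [show Φ ∘ t = IsScalarTower.toAlgHom F (MvPolynomial (Fin n) F) L ∘ X from funext h6]
    exact (algebraicIndependent_X (Fin n) F).map' hι

end Pool.Agent.Lib.MP_651af7_nt.Tb
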