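import Pool.Agent.Lib.MP_651af7_nt.Tb.Su

/-! Linear algebra: complementary minors and flags. -/

namespace Pool.Agent.Lib.MP_651af7_nt.Tb

open Finset Matrix

variable {F : Type} [Field F] {E Γ : Type} [Fintype E] [Fintype Γ] [DecidableEq Γ] {r : ℕ}

omit [DecidableEq Γ] in
theorem exists_theta (hr : r + Fintype.card Γ = Fintype.card E) {c : Γ → E}
    (hc : Function.Injective c) : ∃ θ : Fin r ⊕ Γ ≃ E, ∀ γ, θ (.inr γ) = c γ := by
  classical
  have h1 : Fintype.card (Fin r) = Fintype.card ↥(Set.range c)ᶜ := by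
    rw [Fintype.card_compl_set, Set.card_range_of_injective hc, Fintype.card_fin]
    omega
  exact ⟨((Fintype.equivOfCardEq h1).sumCongr (Equiv.ofInjective c hc)).trans
    ((Equiv.sumComm _ _).trans (Equiv.Set.sumCompl (Set.range c))), fun γ => by simp⟩

omit [DecidableEq Γ] in
theorem sum_theta {M : Type} [AddCommMonoid M] (θ : Fin r ⊕ Γ ≃ E) (g : E → M) :
    ∑ e, g e = ∑ l, g (θ (.inl l)) + ∑ γ, g (θ (.inr γ)) := by
  rw [← θ.sum_comp, Fintype.sum_sum_type]

theorem kos_basis {V : Type} [AddCommGroup V] [Module F V] (z : E → V) (Λ : Matrix Γ E F)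
    (h1 : ∀ γ, ∑ e, Λ γ e • z e = 0)
    (h2 : ∀ c : E → F, ∑ e, c e • z e = 0 → ∃ b : Γ → F, c = b ᵥ* Λ) (θ : Fin r ⊕ Γ ≃ E)
    (hθ : (Λ.submatrix id fun γ => θ (.inr γ)).det ≠ 0) :
    LinearIndependent F (fun l => z (θ (.inl l))) ∧ ∃ B : Matrix E (Fin r) F,
      (∀ e, z e = ∑ l, B e l • z (θ (.inl l))) ∧ B.submatrix (fun l => θ (.inl l)) id = 1 ∧
      Λ * B = 0 := by
  set A : Matrix Γ Γ F := Λ.submatrix id fun γ => θ (.inr γ) with hA
  have hi : LinearIndependent F fun l => z (θ (.inl l)) := by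
    refine Fintype.linearIndependent_iff.2 fun c hc l => ?_
    obtain ⟨b, hb⟩ := h2 (fun e => Sum.elim c 0 (θ.symm e)) (by
      rw [sum_theta θ]
      simpa using hc)
    have hb0 : b = 0 := eq_zero_of_vecMul_eq_zero hθ (funext fun γ => by
      have h3 := (congrFun hb (θ (.inr γ))).symm
      rw [θ.symm_apply_apply] at h3
      exact h3)
    simpa [hb0] using congrFun hb (θ (.inl l))
  let D : Matrix Γ (Fin r) F := -(A⁻¹ * Λ.submatrix id fun l => θ (.inl l))
  have hD : (Λ.submatrix id fun l => θ (.inl l)) + A * D = 0 := by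
    simp only [D, Matrix.mul_neg]
    rw [← Matrix.mul_assoc, mul_nonsing_inv _ (Ne.isUnit hθ), Matrix.one_mul, add_neg_cancel]
  refine ⟨hi, (fromRows (1 : Matrix (Fin r) (Fin r) F) D).submatrix θ.symm id, fun e => ?_,
    by ext i j; simp, ?_⟩
  · obtain ⟨e, rfl⟩ := θ.surjective e
    rcases e with l | γ
    · simp [one_apply]
    · have h3 : ∑ δ, A⁻¹ γ δ • ∑ e, Λ δ e • z e = 0 := by simp [h1]
      have h4 : ∀ e, ∑ δ, A⁻¹ γ δ * Λ δ e = (A⁻¹ * Λ) γ e := fun e => rfl
      simp only [smul_sum, smul_smul] at h3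
      rw [sum_comm] at h3
      simp only [← sum_smul, h4] at h3
      have h5 : ∀ δ, (A⁻¹ * Λ) γ (θ (.inr δ)) = (1 : Matrix Γ Γ F) γ δ := fun δ => by
        rw [← nonsing_inv_mul _ (Ne.isUnit hθ)]
        rfl
      have h6 : ∀ l, (A⁻¹ * Λ) γ (θ (.inl l)) = -D γ l := fun l => (neg_neg _).symm
      rw [sum_theta θ] at h3
      simp only [h5, h6, one_apply, ite_smul, one_smul, zero_smul, sum_ite_eq, mem_univ, if_true,
        neg_smul, sum_neg_distrib] at h3
      simpa using (neg_add_eq_zero.1 h3).symm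
  · ext γ l
    have := congrFun (congrFun hD γ) l
    rw [mul_apply, sum_theta θ]
    simpa [one_apply, mul_apply, hA] using this

theorem dual (w : AbsoluteValue F ℝ) (B : Matrix E (Fin r) F) (Λ : Matrix Γ E F) (h : Λ * B = 0)
    (θ₀ θ : Fin r ⊕ Γ ≃ E) (h1 : B.submatrix (fun l => θ₀ (.inl l)) id = 1) :
    w (mne B fun l => θ (.inl l)) * w (Λ.submatrix id fun γ => θ₀ (.inr γ)).det =
      w (Λ.submatrix id fun γ => θ (.inr γ)).det := by
  classical
  let P : Matrix (Fin r ⊕ Γ) E F := fromRows ((1 : Matrix E E F).submatrix (fun l => θ (.inl l)) id) Λ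
  let Q : Matrix E (Fin r ⊕ Γ) F := fromCols B ((1 : Matrix E E F).submatrix id fun γ => θ₀ (.inr γ))
  have e1 : (P.submatrix id θ).det = (Λ.submatrix id fun γ => θ (.inr γ)).det := by
    have : P.submatrix id θ = fromBlocks 1 0 (Λ.submatrix id fun l => θ (.inl l))
        (Λ.submatrix id fun γ => θ (.inr γ)) := by
      ext (i | i) (j | j) <;> simp [P, one_apply]
    rw [this, det_fromBlocks_zero₁₂, det_one, one_mul]
  have e2 : (Q.submatrix θ₀ id).det = 1 := by
    have : Q.submatrix θ₀ id = fromBlocks 1 0 (B.submatrix (fun γ => θ₀ (.inr γ)) id) 1 := by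
      ext (i | i) (j | j)
      · exact congrFun (congrFun h1 i) j
      all_goals simp [Q, one_apply]
    rw [this, det_fromBlocks_zero₁₂, det_one, det_one, one_mul]
  have e3 : (P * Q).det = mne B (fun l => θ (.inl l)) *
      (Λ.submatrix id fun γ => θ₀ (.inr γ)).det := by
    rw [fromRows_mul_fromCols, h, det_fromBlocks_zero₂₁]
    congr 2 <;> ext i j <;> simp [mul_apply, one_apply]
  have e4 : w (Q.submatrix θ id).det = 1 := by
    have : Q.submatrix θ id = (Q.submatrix θ₀ id).submatrix (θ.trans θ₀.symm) id := by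
      ext i j
      simp
    rw [this, det_permute, e2, mul_one]
    rcases Int.units_eq_one_or (Equiv.Perm.sign (θ.trans θ₀.symm)) with h | h <;> simp [h]
  rw [← map_mul, ← e3, ← e1, ← mul_one (w (P.submatrix id θ).det), ← e4, ← map_mul, ← det_mul,
    submatrix_mul_equiv]
  rfl

theorem flag {M : ℕ} (φ : Matrix (Fin r) (Fin M) F) : ∃ G : Matrix (Fin r) (Fin r) F,
    G.det ≠ 0 ∧ ∀ (l : Fin r) (i : Fin M), i.1 < l.1 → (G * φ) l i = 0 := by
  have key : ∀ s m, m + s = r → ∃ g : Fin s → Fin r → F, LinearIndependent F g ∧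
      ∀ (l : Fin s) (i : Fin M), i.1 < m + l.1 → (g l ᵥ* φ) i = 0 := by
    intro s
    induction s with
    | zero => exact fun _ _ => ⟨Fin.elim0, linearIndependent_empty_type, fun l => l.elim0⟩
    | succ s ih =>
      intro m hm
      obtain ⟨g, h1, h2⟩ := ih (m + 1) (by omega)
      let ψ : Matrix (Fin r) (Fin m) F := fun l i => if h : i.1 < M then φ l ⟨i, h⟩ else 0
      obtain ⟨x, hx, hx'⟩ : ∃ x ∈ LinearMap.ker ψ.vecMulLinear,
          x ∉ Submodule.span F (Set.range g) := by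
        by_contra hc
        push Not at hc
        have e1 := Submodule.finrank_mono (show LinearMap.ker ψ.vecMulLinear ≤ _ from hc)
        have e2 := LinearMap.finrank_range_add_finrank_ker ψ.vecMulLinear
        have e3 := Submodule.finrank_le (LinearMap.range ψ.vecMulLinear)
        rw [finrank_span_eq_card h1] at e1
        simp only [Module.finrank_fintype_fun_eq_card, Fintype.card_fin] at e1 e2 e3
        omega
      refine ⟨Fin.cons x g, linearIndependent_finCons.2 ⟨h1, hx'⟩, Fin.cases (fun i hi => ?_)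
        fun l i hi => h2 l i (by simp only [Fin.val_succ] at hi; omega)⟩
      have : (x ᵥ* ψ) ⟨i, hi⟩ = 0 := congrFun (LinearMap.mem_ker.1 hx) ⟨i, hi⟩
      simpa [ψ, vecMul, dotProduct] using this
  obtain ⟨g, h1, h2⟩ := key r 0 (zero_add r)
  exact ⟨of g, ((isUnit_iff_isUnit_det _).1 (linearIndependent_rows_iff_isUnit.1 h1)).ne_zero,
    fun l i hi => h2 l i (by omega)⟩

end Pool.Agent.Lib.MP_651af7_nt.Tb
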