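import Pool.Agent.Lib.MP_651af7_nt.Tb.Su

/-! Two combinations whose common zeros still have codimension at least two. -/

namespace Pool.Agent.Lib.MP_651af7_nt.Tb

open MvPolynomial Finset

variable {k : Type} [Field k] {n N : ℕ} {I : Ideal (MvPolynomial (Fin n × Fin N) k)}

theorem pair_avoid [CharZero k] {m : ℕ} {V τ : Type} [AddCommGroup V] [Module k V] [Finite τ]
    (G : Fin m → V) (W : τ → Submodule k V) (h : ∀ t, ∃ i, G i ∉ W t) :
    ∃ c : Fin m → k, ∀ t, ∑ i, c i • G i ∉ W t := by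
  obtain ⟨c, hc⟩ := Submodule.exists_forall_notMem_of_forall_ne_top
    (fun t => (W t).comap (Fintype.linearCombination k G)) fun t ht => by
      obtain ⟨i, hi⟩ := h t
      have h1 : Pi.single i 1 ∈ (W t).comap (Fintype.linearCombination k G) :=
        ht ▸ Submodule.mem_top
      rw [Submodule.mem_comap, Fintype.linearCombination_apply_single, one_smul] at h1
      exact hi h1
  exact ⟨c, fun t ht => hc t (by rwa [Submodule.mem_comap, Fintype.linearCombination_apply])⟩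

theorem exists_pair [CharZero k] (hp : I.IsPrime) (hb : ∀ j, ∃ b, X (j, b) ∉ I) {m : ℕ}
    {G : Fin m → MvPolynomial (Fin n × Fin N) k} (hG : Ht2 I G) (Δ : Finset (Fin n → ℕ))
    (hΔ : ∀ μ ∈ Δ, ∃ i, cp μ (G i) ∉ I) :
    ∃ c : Bool → Fin m → k, Ht2 I (fun b => ∑ i, c b i • G i) ∧ (∀ b, ∑ i, c b i • G i ∉ I) ∧
      ∀ μ ∈ Δ, cp μ (∑ i, c true i • G i) ∉ I := by
  classical
  have h1 : ∀ 𝔮 : Ideal (MvPolynomial (Fin n × Fin N) k ⧸ I), 𝔮.IsPrime → 𝔮.height ≤ 1 →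
      (∀ j, ∃ b, Ideal.Quotient.mk I (X (j, b)) ∉ 𝔮) → ∃ i, Ideal.Quotient.mk I (G i) ∉ 𝔮 :=
    fun 𝔮 hq h2 h3 => by
      by_contra! h4
      exact absurd ((hG 𝔮 hq h4 h3).trans h2) (by norm_num)
  obtain ⟨i₀, h0⟩ := h1 ⊥ Ideal.isPrime_bot (by simp) fun j =>
    (hb j).imp fun b h h' => h (Ideal.Quotient.eq_zero_iff_mem.1 h')
  have h0' : G i₀ ∉ I := fun h => h0 (Ideal.Quotient.eq_zero_iff_mem.2 h)
  let P := {𝔮 ∈ (Ideal.span {Ideal.Quotient.mk I (G i₀)}).minimalPrimes |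
    ∀ j, ∃ b, Ideal.Quotient.mk I (X (j, b)) ∉ 𝔮}
  have : Finite P := (Ideal.finite_minimalPrimes_of_isNoetherianRing _ _).subset fun _ h => h.1
  obtain ⟨c, hc⟩ := pair_avoid (k := k) (τ := Option (P ⊕ Δ)) G
    (fun t => t.elim (I.restrictScalars k) (Sum.elim
      (fun 𝔮 => (𝔮.1.comap (Ideal.Quotient.mk I)).restrictScalars k)
      fun μ => (I.restrictScalars k).comap
        (weightedHomogeneousComponent (fun s : Fin n × Fin N => Pi.single s.1 1) μ.1))) (by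
      rintro (_ | 𝔮 | μ)
      · exact ⟨i₀, h0'⟩
      · exact h1 𝔮.1 𝔮.2.1.isPrime
          (Ideal.height_le_one_of_isPrincipal_of_mem_minimalPrimes _ _ 𝔮.2.1) 𝔮.2.2
      · exact hΔ μ.1 μ.2)
  have e : ∑ i, (Pi.single i₀ 1 : Fin m → k) i • G i = G i₀ := by
    rw [← Fintype.linearCombination_apply, Fintype.linearCombination_apply_single, one_smul]
  refine ⟨fun b => cond b c (Pi.single i₀ 1), fun 𝔭 h2 h3 h4 => ?_, ?_,
    fun μ hμ => hc (some (.inr ⟨μ, hμ⟩))⟩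
  · have h5 := h3 false
    simp only [cond_false, e] at h5
    obtain ⟨𝔮, h6, h7⟩ := Ideal.exists_minimalPrimes_le
      ((Ideal.span_singleton_le_iff_mem 𝔭).2 h5)
    have := h6.isPrime
    have h8 : 𝔮 < 𝔭 := lt_of_le_of_ne h7 fun h => hc
      (some (.inl ⟨𝔮, h6, fun j => (h4 j).imp fun b hb' h' => hb' (h7 h')⟩)) (h ▸ h3 true :)
    have h9 : ⊥ < 𝔮 := bot_lt_iff_ne_bot.2 fun h =>
      h0 (h ▸ h6.le (Ideal.mem_span_singleton_self _) :)
    have := Ideal.isPrime_bot (α := MvPolynomial (Fin n × Fin N) k ⧸ I)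
    have h10 := Ideal.height_add_one_le_of_lt_of_isPrime h9
    calc (2 : ℕ∞) = 0 + 1 + 1 := by norm_num
      _ ≤ 𝔮.height + 1 := by
        gcongr
        exact le_trans (by gcongr; exact zero_le) h10
      _ ≤ 𝔭.height := Ideal.height_add_one_le_of_lt_of_isPrime h8
  · rintro (_ | _)
    · simpa only [cond_false, e] using h0'
    · exact hc none

end Pool.Agent.Lib.MP_651af7_nt.Tb
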