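import Pool.Agent.Lib.MP_651af7_nt.Tb.SMin

/-! The proximity to a divisor on a torus bundle. -/

namespace Pool.Agent.Lib.MP_651af7_nt.Tb

open MvPolynomial Finset Height NumberField Matrix Filter Fc Real
open IntermediateField (adjoin)
open Rt (Pl av mu)
open Es (vol)
open Ex (lx)
open Vj (gsum FinS)

variable {k K ι β ρ μ σ : Type} [Field k] [Fintype σ]

theorem sup_mul (w : AbsoluteValue k ℝ) (c : k) (x : μ → k) :
    ⨆ b, w (c * x b) = w c * ⨆ b, w (x b) := by
  simp only [map_mul]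
  exact (Real.mul_iSup_of_nonneg (w.nonneg c) _).symm

variable [Fintype μ]

/-- The size of a monomial is bounded by the sizes of the blocks. -/
theorem mon_le [NumberField k] (w : AbsoluteValue k ℝ) (u : σ × μ → k) (a : σ → μ) (m : σ → ℕ) :
    w (∏ j, u (j, a j) ^ m j) ≤ ∏ j, (⨆ b, w (u (j, b))) ^ m j := by
  rw [map_prod]
  exact prod_le_prod (fun _ _ => w.nonneg _) fun j _ => (map_pow w _ _).trans_le
    (pow_le_pow_left₀ (w.nonneg _) (Es.le_sup_av w (fun b => u (j, b)) _) _)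

theorem abs_le_of_le {m : σ → ℕ} {d : ℕ} (h : ∀ j, m j ≤ d) (l : σ → ℝ) :
    |∑ j, m j * l j| ≤ d * ∑ j, |l j| := by
  rw [mul_sum]
  refine (abs_sum_le_sum_abs _ _).trans (sum_le_sum fun j _ => ?_)
  rw [abs_mul, Nat.abs_cast]
  exact mul_le_mul_of_nonneg_right (Nat.cast_le.2 (h j)) (abs_nonneg _)

variable [NumberField k] [Fintype ρ] [DecidableEq σ]

/-- The height of the vector of monomials. -/
theorem ht_mon {u : σ × μ → k} {m : ρ → σ → ℕ} {d : ℕ} (hm : ∀ l j, m l j ≤ d) :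
    logHeight (fun q : ρ × (σ → μ) => ∏ j, u (j, q.2 j) ^ m q.1 j) ≤
      Fintype.card σ * d * logHeight fun o : Option (σ × μ) => o.elim 1 u := by
  by_cases h0 : (fun q : ρ × (σ → μ) => ∏ j, u (j, q.2 j) ^ m q.1 j) = 0
  · rw [h0, logHeight_zero]
    positivity [logHeight_nonneg fun o : Option (σ × μ) => o.elim 1 u]
  have h1 : (fun o : Option (σ × μ) => o.elim 1 u) ≠ 0 :=
    Function.ne_iff.2 ⟨none, one_ne_zero⟩
  rw [← Es.gsum_sup h0, ← Es.gsum_sup h1, ← Vj.gsum_const_mul (Es.finS_sup _)]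
  refine Vj.pf_gsum_mono (Es.finS_sup _) ((Es.finS_sup _).const_mul _) fun w => ?_
  have h2 : 1 ≤ ⨆ o : Option (σ × μ), w (o.elim 1 u) :=
    (map_one w).ge.trans (Es.le_sup_av w (fun o : Option (σ × μ) => o.elim 1 u) none)
  rw [← Nat.cast_mul, ← log_pow]
  refine log_le_log (Es.sup_pos w h0) (Real.iSup_le (fun q => ?_) (by positivity))
  rw [map_prod, mul_comm, pow_mul, ← card_univ, ← prod_const]
  exact prod_le_prod (fun _ _ => w.nonneg _) fun j _ => (map_pow w _ _).trans_le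
    ((pow_le_pow_left₀ (w.nonneg _) (Es.le_sup_av w (fun o : Option (σ × μ) => o.elim 1 u)
      (some (j, q.2 j))) _).trans (pow_le_pow_right₀ h2 (hm _ _)))

/-- The heights of the line bundles cancel. -/
theorem cancel [DecidableEq ρ] [Nonempty ρ] (S : Finset (FinitePlace k)) {τ : σ → k}
    (hτ : ∀ j, τ j ≠ 0) {x : σ × μ → k} (hx : ∀ j, ∃ b, x (j, b) = 1) {m : ρ → σ → ℕ}
    {d : ℕ} (hm : ∀ l j, m l j ≤ d) :
    Fintype.card ρ * logHeight (fun q : ρ × (σ → μ) => ∏ j, (τ j * x (j, q.2 j)) ^ m q.1 j) ≤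
      logHeight (fun e : ρ → ρ × (σ → μ) => ((tw x m (1 : Matrix ρ ρ k)).submatrix e id).det) +
      vol (fun (s : Pl S) l => lx (av s)
        (fun q : ρ × (σ → μ) => ∏ j, (τ j * x (j, q.2 j)) ^ m q.1 j) (∏ j, τ j ^ m l j)) +
      Fintype.card ρ * (2 * d) * ∑ᶠ w ∈ (S : Set (FinitePlace k))ᶜ,
        ∑ j, |log (⨆ b, w (τ j * x (j, b)))| := by
  choose a ha using hx
  have hx' : ∀ j, ∃ b, x (j, b) ≠ 0 := fun j => ⟨a j, ha j ▸ one_ne_zero⟩
  obtain ⟨Z, hZ⟩ : ∃ Z, Z = fun q : ρ × (σ → μ) => ∏ j, (τ j * x (j, q.2 j)) ^ m q.1 j :=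
    ⟨_, rfl⟩
  obtain ⟨N, hN⟩ : ∃ N, N = fun e : ρ → ρ × (σ → μ) =>
    ((tw x m (1 : Matrix ρ ρ k)).submatrix e id).det := ⟨_, rfl⟩
  have hτ' : ∀ l, ∏ j, τ j ^ m l j ≠ 0 := fun l => prod_ne_zero_iff.2 fun j _ => pow_ne_zero _ (hτ j)
  have z0 : Z ≠ 0 := Function.ne_iff.2 ⟨(Classical.arbitrary ρ, a), by simpa [hZ, ha] using hτ' _⟩
  have n0 : N ≠ 0 := Function.ne_iff.2 ⟨fun l => (l, a), by
    have := det_tw x m (1 : Matrix ρ ρ k) id a
    simp only [hN, id] at this ⊢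
    simp [this, ha]⟩
  have x1 : ∀ (w : AbsoluteValue k ℝ) j, 1 ≤ ⨆ b, w (x (j, b)) := fun w j =>
    ((congrArg w (ha j)).trans (map_one w)).ge.trans (Es.le_sup_av w (fun b => x (j, b)) (a j))
  have n1 : ∀ w : AbsoluteValue k ℝ,
      ∑ l, ∑ j, m l j * log (⨆ b, w (x (j, b))) ≤ log (⨆ e, w (N e)) := fun w => by
    have h1 := min_tw w hx' m (1 : Matrix ρ ρ k) id
    rw [submatrix_id_id, det_one, map_one, mul_one] at h1
    have h2 : ∀ l j, 0 < (⨆ b, w (x (j, b))) ^ m l j := fun l j =>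
      pow_pos (one_pos.trans_le (x1 w j)) _
    refine le_trans (le_of_eq ?_) (log_le_log (prod_pos fun l _ => prod_pos fun j _ => h2 l j)
      (by rw [hN]; exact h1))
    rw [log_prod fun l _ => (prod_pos fun j _ => h2 l j).ne']
    exact sum_congr rfl fun l _ => by
      rw [log_prod fun j _ => (h2 l j).ne']
      simp only [log_pow]
  have f1 : ∀ l, FinS fun w : AbsoluteValue k ℝ => log (⨆ q, w (Z q)) - log (w (∏ j, τ j ^ m l j)) :=
    fun l => finS_sub (Es.finS_sup Z) (Vj.finS_log _)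
  have f2 := Vj.finS_sum univ fun l _ => f1 l
  have f3 : FinS fun w : AbsoluteValue k ℝ => ∑ j, |log (⨆ b, w (τ j * x (j, b)))| :=
    Vj.finS_sum univ fun j _ => finS_abs (Es.finS_sup fun b => τ j * x (j, b))
  have h1 := gsum_le_out S (finS_sub f2 (Es.finS_sup N))
    (f3.const_mul (Fintype.card ρ * (2 * d))) (fun s => ∑ l, lx (av s) Z (∏ j, τ j ^ m l j))
    (fun s => by
      have h2 := (sum_nonneg fun l _ => sum_nonneg fun j _ => mul_nonneg (m l j).cast_nonneg
        (log_nonneg (x1 (av s) j))).trans (n1 (av s))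
      simp only [lx, log_div (Es.sup_pos (av s) z0).ne' ((av s).pos (hτ' _)).ne']
      linarith)
    fun w _ => by
      have : Nonempty (σ → μ) := ⟨a⟩
      obtain ⟨q, hq⟩ := exists_eq_ciSup_of_finite (f := fun q => w.1 (Z q))
      have h2 : ∀ j, log (⨆ b, w.1 (τ j * x (j, b))) =
          log (w.1 (τ j)) + log (⨆ b, w.1 (x (j, b))) := fun j => by
        rw [sup_mul, log_mul (w.1.pos (hτ j)).ne' (one_pos.trans_le (x1 w.1 j)).ne']
      have h3 : ∀ j, 0 < ⨆ b, w.1 (τ j * x (j, b)) := fun j => by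
        rw [sup_mul]
        exact mul_pos (w.1.pos (hτ j)) (one_pos.trans_le (x1 w.1 j))
      have h4 : log (⨆ q, w.1 (Z q)) ≤ ∑ j, m q.1 j * log (⨆ b, w.1 (τ j * x (j, b))) := by
        refine (log_le_log (Es.sup_pos w.1 z0) (hq.ge.trans ((congrArg w.1 (congrFun hZ q)).trans_le
          (mon_le w.1 (fun s => τ s.1 * x s) q.2 (m q.1))))).trans_eq ?_
        rw [log_prod fun j _ => (pow_pos (h3 j) _).ne']
        simp only [log_pow]
      have h5 : ∀ l, log (⨆ q, w.1 (Z q)) - log (w.1 (∏ j, τ j ^ m l j)) -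
          ∑ j, m l j * log (⨆ b, w.1 (x (j, b))) ≤
          2 * d * ∑ j, |log (⨆ b, w.1 (τ j * x (j, b)))| := fun l => by
        have h6 := abs_le.1 (abs_le_of_le (hm l) fun j => log (⨆ b, w.1 (τ j * x (j, b))))
        have h7 := abs_le.1 (abs_le_of_le (hm q.1) fun j => log (⨆ b, w.1 (τ j * x (j, b))))
        have h8 : ∑ j, m l j * log (⨆ b, w.1 (τ j * x (j, b))) = log (w.1 (∏ j, τ j ^ m l j)) +
            ∑ j, m l j * log (⨆ b, w.1 (x (j, b))) := by
          rw [map_prod, log_prod fun j _ => (w.1.pos (pow_ne_zero _ (hτ j))).ne']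
          simp only [h2, mul_add, sum_add_distrib, map_pow, log_pow]
        linarith [h6.1, h7.2]
      have h9 := sum_le_sum fun l (_ : l ∈ univ) => h5 l
      rw [sum_sub_distrib, sum_const, card_univ, nsmul_eq_mul] at h9
      linarith [n1 w.1]
  rw [gsum_sub f2 (Es.finS_sup N), Vj.gsum_sum univ fun l _ => f1 l, Es.gsum_sup n0] at h1
  simp only [gsum_sub (Es.finS_sup Z) (Vj.finS_log _), Es.gsum_sup z0, Vj.gsum_log (hτ' _),
    sub_zero, sum_const, card_univ, nsmul_eq_mul] at h1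
  have h2 : ∑ᶠ w ∈ (S : Set (FinitePlace k))ᶜ, (Fintype.card ρ * (2 * d) : ℝ) *
      ∑ j, |log (⨆ b, w.1 (τ j * x (j, b)))| = Fintype.card ρ * (2 * d) *
      ∑ᶠ w ∈ (S : Set (FinitePlace k))ᶜ, ∑ j, |log (⨆ b, w (τ j * x (j, b)))| := by
    have h3 := gsum_split S f3
    have h4 := gsum_split S (f3.const_mul (Fintype.card ρ * (2 * d)))
    rw [Vj.gsum_const_mul f3, h3, mul_add, mul_sum] at h4
    simp only [mul_left_comm (mu _ : ℝ), add_right_inj] at h4
    exact h4.symm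
  rw [← hZ, ← hN, vol, ← h2]
  linarith

variable [Field K] [Algebra k K] [Fintype ι] {J : Ideal (MvPolynomial ι k)}
  {y : ι → K} {𝓕 : Filter β} {v : β → K → k}

/-- The proximity to the zeros of a polynomial in the fibre coordinates. -/
theorem Dt.prox (D : Dt J y) (h : Sp 𝓕 v) {t : σ → K}
    (ht : AlgebraicIndependent (adjoin k (Set.range y)) t)
    (η : σ × μ → adjoin k (Set.range y)) (hη : ∀ j, ∃ b, η (j, b) = 1)
    {Q : MvPolynomial σ (adjoin k (Set.range y))} (hQ : Q ≠ 0) :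
    ∃ c : ℝ, 0 ≤ c ∧ ∀ ε : ℝ, 0 < ε → ∃ W ∈ 𝓕, ∀ S : Finset (FinitePlace k), ∃ C : ℝ, ∀ p ∈ W,
      ∑ s : Pl S, mu s * log ((⨆ q : Q.support × (σ → μ),
        av s (∏ j, v p (t j * η (j, q.2 j)) ^ q.1.1 j)) / av s (v p (aeval t Q))) ≤
      ε * (logHeight (fun a => v p (y a)) +
        logHeight fun o : Option (σ × μ) => o.elim 1 fun s => v p (t s.1 * η s)) +
      c * ∑ᶠ w ∈ (S : Set (FinitePlace k))ᶜ, ∑ j, |log (⨆ b, w (v p (t j * η (j, b))))| + C := by
  classical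
  obtain ⟨d, hm⟩ : ∃ d, ∀ (l : Q.support) j, l.1 j ≤ d := ⟨Q.totalDegree, fun l j =>
    (monomial_le_degreeOf j l.2).trans (degreeOf_le_totalDegree Q j)⟩
  have : Nonempty Q.support := (support_nonempty.2 hQ).to_subtype
  have e0 : ∀ l : σ →₀ ℕ, aeval t (monomial l (1 : adjoin k (Set.range y))) = ∏ j, t j ^ l j :=
    fun l => by rw [aeval_monomial, map_one, one_mul, Finsupp.prod_fintype _ _ fun _ => pow_zero _]
  have hT : LinearIndependent (adjoin k (Set.range y)) fun l : Q.support => ∏ j, t j ^ l.1 j := by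
    have h1 := ((basisMonomials σ (adjoin k (Set.range y))).linearIndependent.map'
      (aeval t).toLinearMap (LinearMap.ker_eq_bot.2 ht)).comp _
        (Subtype.val_injective (p := (· ∈ Q.support)))
    simpa only [Function.comp_def, coe_basisMonomials, AlgHom.toLinearMap_apply, e0] using h1
  have e1 : ∑ l : Q.support, coeff l.1 Q • ∏ j, t j ^ l.1 j = aeval t Q := by
    conv_rhs => rw [Q.as_sum, map_sum, ← sum_coe_sort]
    refine sum_congr rfl fun l _ => ?_
    rw [← e0, ← map_smul, smul_monomial, smul_eq_mul, mul_one]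
  have e2 : ∀ i : Q.support, ∑ l : Q.support, (1 : Matrix _ _ (adjoin k (Set.range y))) i l •
      ∏ j, t j ^ l.1 j = ∏ j, t j ^ i.1 j := fun i => by simp [one_apply]
  have hG : ∀ τ : Q.support, ((1 : Matrix _ _ (adjoin k (Set.range y))).updateRow τ
      fun l => coeff l.1 Q).det ≠ 0 := fun τ => by
    have h1 := det_updateRow_sum (1 : Matrix _ _ (adjoin k (Set.range y))) τ fun l => coeff l.1 Q
    have h2 : ∑ l : Q.support, coeff l.1 Q •
        (1 : Matrix Q.support Q.support (adjoin k (Set.range y))) l =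
        fun l : Q.support => coeff l.1 Q := funext fun i => by simp [one_apply]
    rw [h2, det_one, smul_eq_mul, mul_one] at h1
    exact h1 ▸ mem_support_iff.1 τ.2
  refine ⟨Fintype.card Q.support * (2 * d), by positivity, fun ε hε => ?_⟩
  have hδ : 0 < ε / 2 / (Fintype.card σ * d + 1) := by positivity
  obtain ⟨W₁, w1, b1⟩ := D.subT h hT η (fun j => (hη j).imp fun b hb => by simp [hb])
    (fun l => l.1) 1 ⟨id, by simp⟩ _ hG hδ
  obtain ⟨W₂, w2, b2⟩ := ev_all (fun _ => logHeight_nonneg _)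
    (fun s => D.fal h (η s)) _ hδ
  have w3 : ∀ l : Q.support, ∀ᶠ p in 𝓕, v p (∏ j, t j ^ l.1 j) = ∏ j, v p (t j) ^ l.1 j :=
    fun l => by simpa using h.aeval t (∏ j, X j ^ l.1 j)
  refine ⟨_, inter_mem w1 (inter_mem w2 ((h.zero.and h.one).and ((eventually_all.2 w3).and
    ((eventually_all.2 fun j => h.ne (ht.ne_zero j)).and
      ((eventually_all.2 fun s : σ × μ => h.mul (t s.1) (η s)).and
        (h.ne (a := aeval t Q) ((map_ne_zero_iff _ ht).2 hQ))))))), fun S => ?_⟩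
  obtain ⟨C₁, b1⟩ := b1 S
  obtain ⟨C₂, b2⟩ := b2 S
  refine ⟨C₁ + Fintype.card σ * d * C₂, fun p ⟨p1, p2, ⟨p3, p4⟩, p5, p6, p7, p8⟩ => ?_⟩
  obtain ⟨E, k0, k1, k2⟩ := b2 p p2
  have p9 : ∀ j b, v p (t j * η (j, b)) = v p (t j) * v p (η (j, b)) := fun j b => p7 (j, b)
  have x1 : ∀ j, ∃ b, v p (η (j, b)) = 1 := fun j => (hη j).imp fun b hb => by rw [hb]; exact p4
  have c1 := cancel S p6 (x := fun s => v p (η s)) x1 hm
  have c2 := ht_mon (u := fun s => v p (t s.1) * v p (η s)) hm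
  have e3 : zt (v p) η (fun l : Q.support => l.1) 1 (fun l : Q.support => ∏ j, t j ^ l.1 j) =
      fun q => ∏ j, (v p (t j) * v p (η (j, q.2 j))) ^ q.1.1 j := funext fun q => by
    rw [zt, e2, p5, ← prod_mul_distrib]
    exact prod_congr rfl fun j _ => by rw [mul_pow, mul_comm]
  choose a ha using x1
  have : Nonempty (σ → μ) := ⟨a⟩
  choose q hq using fun s : Pl S => exists_eq_ciSup_of_finite
    (f := fun q : Q.support × (σ → μ) => av s (∏ j, (v p (t j) * v p (η (j, q.2 j))) ^ q.1.1 j))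
  have c3 := b1 p p1 fun s => (q s).1
  rw [e3, Matrix.map_one (fun z : adjoin k (Set.range y) => v p z) p3 p4] at c3
  simp only [p9, p7]
  obtain ⟨Z, hZ⟩ : ∃ Z, Z = fun q : Q.support × (σ → μ) =>
    ∏ j, (v p (t j) * v p (η (j, q.2 j))) ^ q.1.1 j := ⟨_, rfl⟩
  have c4 : ∀ s : Pl S, ∑ l : Q.support, lx (av s) Z (∏ j, v p (t j) ^ l.1 j) +
      lx (av s) Z (v p (aeval t Q)) ≤ ∑ l, lx (av s) Z (v p (∑ m : Q.support,
        (1 : Matrix Q.support Q.support (adjoin k (Set.range y))).updateRow (q s).1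
          (fun l => coeff l.1 Q) l m • ∏ j, t j ^ m.1 j)) + Fintype.card σ * d * E s := fun s => by
    rw [← add_sum_erase _ _ (mem_univ (q s).1), ← add_sum_erase univ
      (fun l => lx (av s) Z (v p _)) (mem_univ (q s).1), updateRow_self, e1,
      sum_congr (g := fun l => lx (av s) Z (∏ j, v p (t j) ^ l.1 j)) (f := fun l => lx _ _ (v p _))
        rfl fun l hl => by rw [updateRow_ne (ne_of_mem_erase hl), e2, p5]]
    have k3 : lx (av s) Z (∏ j, v p (t j) ^ (q s).1.1 j) ≤ Fintype.card σ * d * E s := by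
      have k4 : 0 < av s (∏ j, v p (t j) ^ (q s).1.1 j) :=
        (av s).pos (prod_ne_zero_iff.2 fun j _ => pow_ne_zero _ (p6 j))
      rw [lx, hZ, ← hq]
      simp only [mul_pow, prod_mul_distrib, map_mul]
      rw [mul_div_cancel_left₀ _ k4.ne']
      rcases ((av s).nonneg (∏ j, v p (η (j, (q s).2 j)) ^ (q s).1.1 j)).eq_or_lt with k5 | k5
      · rw [← k5, log_zero]
        positivity [k0 s]
      rw [log_le_iff_le_exp k5, map_prod, mul_assoc, exp_nat_mul, ← card_univ, ← prod_const]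
      refine prod_le_prod (fun _ _ => (av s).nonneg _) fun j _ => ?_
      rw [map_pow, exp_nat_mul]
      exact (pow_le_pow_left₀ ((av s).nonneg _)
        (k2 s _ le_rfl (j, (q s).2 j)) _).trans
        (pow_le_pow_right₀ (one_le_exp (k0 s)) (hm _ _))
    linarith
  have c5 := sum_le_sum fun s (_ : s ∈ univ) =>
    mul_le_mul_of_nonneg_left (c4 s) ((mu s).cast_nonneg (α := ℝ))
  simp only [mul_add, sum_add_distrib, mul_left_comm (mu _ : ℝ) (Fintype.card σ * d : ℝ), ← mul_sum] at c5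
  rw [← hZ] at c1 c2 c3
  simp only [vol] at c1 c3
  beta_reduce at k1
  have c6 := logHeight_nonneg fun a => v p (y a)
  have c7 := logHeight_nonneg fun o : Option (σ × μ) =>
    o.elim 1 fun s => v p (t s.1) * v p (η s)
  have c8 := mul_le_mul_of_nonneg_left k1 (show (0 : ℝ) ≤ Fintype.card σ * d by positivity)
  have c9 := mul_le_mul_of_nonneg_left c2 hδ.le
  have d1 : ε / 2 / (Fintype.card σ * d + 1) * (Fintype.card σ * d + 1) = ε / 2 := by field_simp
  generalize ε / 2 / (Fintype.card σ * d + 1) = δ at *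
  have d2 := congrArg (· * logHeight fun a => v p (y a)) d1
  have d3 := congrArg (· * logHeight fun o : Option (σ × μ) =>
    o.elim 1 fun s => v p (t s.1) * v p (η s)) d1
  have d4 := mul_nonneg hδ.le c7
  have d5 := mul_nonneg hε.le c7
  have d6 := mul_nonneg hε.le c6
  simp only [lx, hZ] at c5 c1 c3
  simp only [hZ] at c9
  beta_reduce at d2 d3
  linarith

end Pool.Agent.Lib.MP_651af7_nt.Tb
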