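import Pool.Agent.Lib.MP_651af7_nt.Tb.Ph
import Pool.Agent.Lib.MP_651af7_nt.Tb.SPrx

/-! The proximity to a divisor, for the generic point of a multicone. -/

namespace Pool.Agent.Lib.MP_651af7_nt.Tb

open MvPolynomial Finset Height NumberField Filter Fc Real
open IntermediateField (adjoin)
open Rt (Pl av mu)

variable {k K β : Type} [Field k] [NumberField k] [Field K] [Algebra k K] {n N : ℕ}
  {I : Ideal (MvPolynomial (Fin n × Fin N) k)} {ξ : Fin n × Fin N → K}
  {y : (Fin n → Fin N) → K} {t : Fin n → K} {η : Fin n × Fin N → adjoin k (Set.range y)}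
  {𝓕 : Filter β} {v : β → K → k}

/-- The height of the point on the base. -/
theorem Su.ht_y (U : Su I ξ y t η) (h : Sp 𝓕 v) : ∀ᶠ p in 𝓕, logHeight (fun a => v p (y a)) ≤
    n * logHeight fun o : Option (Fin n × Fin N) => o.elim 1 fun s => v p (ξ s) := by
  filter_upwards [h.ne (prod_ne_zero_iff.2 fun j (_ : j ∈ univ) => U.ind.ne_zero j),
    eventually_all.2 fun a => h.mul (∏ j, t j) (y a),
    eventually_all.2 fun a : Fin n → Fin N => h.prod univ fun j => ξ (j, a j)] with p h1 h2 h3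
  have h4 := ht_mon (u := fun s => v p (ξ s)) (m := fun (_ : Unit) _ => 1) (d := 1) fun _ _ => le_rfl
  rw [← logHeight_comp_equiv (Equiv.punitProd _).symm, Fintype.card_fin, Nat.cast_one,
    mul_one] at h4
  refine le_trans (le_of_eq ?_) h4
  rw [← logHeight_smul_eq_logHeight _ h1]
  refine congrArg logHeight (funext fun a => ?_)
  rw [Pi.smul_apply, smul_eq_mul, ← h2, U.seg, ← prod_mul_distrib]
  simpa [U.mul] using h3 a

theorem Su.prox (U : Su I ξ y t η) (h : Sp 𝓕 v) {R : MvPolynomial (Fin n × Fin N) k} (hR : R ∉ I)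
    (Δ : Finset (Fin n → ℕ)) (hΔ : ∀ μ ∈ Δ, cp μ R ∉ I) {ε : ℝ} (hε : 0 < ε) :
    ∃ c : ℝ, ∃ W ∈ 𝓕, ∀ S : Finset (FinitePlace k), ∃ C : ℝ, ∀ p ∈ W,
      iS S (fun w => log ((⨆ q, w (mon Δ (fun s => v p (ξ s)) q)) / w (v p (aeval ξ R)))) ≤
        ε * logHeight (fun o : Option (Fin n × Fin N) => o.elim 1 fun s => v p (ξ s)) +
          c * oS S (fun w => ∑ j, |ls (fun b => v p (ξ (j, b))) w|) + C := by
  rcases Δ.eq_empty_or_nonempty with rfl | ⟨m, hm⟩
  · refine ⟨0, _, univ_mem, fun S => ⟨0, fun p _ => ?_⟩⟩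
    simpa [iS] using mul_nonneg hε.le (logHeight_nonneg _)
  obtain ⟨c, -, h1⟩ := U.dt.prox h U.ind η U.one (mt (U.Ph_eq_zero R).1 hR)
  have hδ : 0 < ε / (n + 1) := by positivity
  obtain ⟨W, hW, h2⟩ := h1 _ hδ
  choose a ha using U.one
  have h3 : ∀ j, ξ (j, a j) ≠ 0 := fun j => by simpa [U.mul, ha] using U.ind.ne_zero j
  refine ⟨c, _, inter_mem hW ((U.ht_y h).and ((eventually_all.2 fun j => h.ne (h3 j)).and
    (h.ne (mt (U.ker R).1 hR)))), fun S => (h2 S).imp fun C hC p ⟨p1, p2, p3, p4⟩ => ?_⟩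
  have h4 := hC p p1
  have e1 : ∀ j b, t j * η (j, b) = ξ (j, b) := fun j b => (U.mul (j, b)).symm
  simp only [← U.mul, e1, U.aeval_Ph] at h4
  have h5 := mul_le_mul_of_nonneg_left p2 hδ.le
  have e2 : ε / (n + 1) * (n + 1) = ε := by field_simp
  have e3 := congrArg (· * logHeight fun o : Option (Fin n × Fin N) =>
    o.elim 1 fun s => v p (ξ s)) e2
  refine le_trans (sum_le_sum fun s _ => mul_le_mul_of_nonneg_left ?_ (Nat.cast_nonneg _))
    (h4.trans ?_)
  · refine log_le_log (div_pos (Es.sup_pos _ (Function.ne_iff.2 ⟨(⟨m, hm⟩, a),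
      prod_ne_zero_iff.2 fun j _ => pow_ne_zero _ (p3 j)⟩)) ((av s).pos p4))
      (div_le_div_of_nonneg_right (Real.iSup_le (fun q => ?_)
        (iSup_nonneg fun _ => (av s).nonneg _)) ((av s).nonneg _))
    exact Es.le_sup_av (av s) (fun q : (Ph η R).support × (Fin n → Fin N) =>
      ∏ j, v p (ξ (j, q.2 j)) ^ q.1.1 j) (⟨Finsupp.equivFunOnFinite.symm q.1.1,
        mem_support_iff.2 (mt (U.coeff_eq_zero R _).1 (hΔ _ q.1.2))⟩, q.2)
  · beta_reduce at e3
    exact add_le_add_left (add_le_add (by linarith) le_rfl) _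

end Pool.Agent.Lib.MP_651af7_nt.Tb
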