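import Pool.Agent.Lib.MP_651af7_nt.Tb.Gen
import Pool.Agent.Lib.MP_651af7_nt.Tb.Pair
import Pool.Agent.Lib.MP_651af7_nt.Tb.Gcd
import Pool.Agent.Lib.MP_651af7_nt.Tb.Prx

/-! The inequality at the points of a multicone over an abelian variety. -/

namespace Pool.Agent.Lib.MP_651af7_nt.Tb

open Height MvPolynomial NumberField Bx Ds Filter Finset
open Fc (gen exists_sp)

section Loc

variable {k : Type} [Field k] {n N m : ℕ} {Δ : Finset (Fin n → ℕ)} {p : Fin n × Fin N → k}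

theorem mon_ne (hp : ∀ j, (fun b => p (j, b)) ≠ 0) (hΔ : Δ.Nonempty) : mon Δ p ≠ 0 := by
  choose a ha using fun j => Function.ne_iff.1 (hp j)
  obtain ⟨μ, hμ⟩ := hΔ
  exact Function.ne_iff.2 ⟨(⟨μ, hμ⟩, a), prod_ne_zero_iff.2 fun j _ => pow_ne_zero _ (ha j)⟩

theorem ls_mon (hp : ∀ j, (fun b => p (j, b)) ≠ 0) (hΔ : Δ.Nonempty) (w : AbsoluteValue k ℝ) :
    ls (mon Δ p) w ≤ (∑ μ ∈ Δ, ∑ j, μ j : ℕ) * ∑ j, |ls (fun b => p (j, b)) w| := by
  refine ls_le (mon_ne hp hΔ) fun q => ?_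
  rw [mon, map_prod, mul_sum, Real.exp_sum]
  refine prod_le_prod (fun j _ => w.nonneg _) fun j _ => ?_
  have h1 : q.1.1 j ≤ ∑ μ ∈ Δ, ∑ j, μ j :=
    (single_le_sum (f := fun j => q.1.1 j) (fun _ _ => Nat.zero_le _) (mem_univ j)).trans
      (single_le_sum (f := fun μ : Fin n → ℕ => ∑ j, μ j) (fun _ _ => Nat.zero_le _) q.1.2)
  rw [map_pow, Real.exp_nat_mul]
  refine (pow_le_pow_left₀ (w.nonneg _) ((le_exp_ls (fun b => p (j, b)) w (q.2 j)).trans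
    (Real.exp_le_exp.2 (le_abs_self _))) _).trans ?_
  exact pow_le_pow_right₀ (Real.one_le_exp (abs_nonneg _)) h1

theorem log_comb {G c : Fin m → k} (h0 : ∑ i, c i * G i ≠ 0) (w : AbsoluteValue k ℝ) :
    Real.log (w (∑ i, c i * G i)) ≤ Real.log (∑ i, w (c i)) + ls G w := by
  have h1 : w (∑ i, c i * G i) ≤ (∑ i, w (c i)) * Real.exp (ls G w) := by
    rw [sum_mul]
    refine (w.sum_le _ _).trans (sum_le_sum fun i _ => ?_)
    rw [map_mul]
    exact mul_le_mul_of_nonneg_left (le_exp_ls G w i) (w.nonneg _)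
  have h2 := w.pos h0
  have h3 : ∑ i, w (c i) ≠ 0 := fun e => by
    rw [e, zero_mul] at h1
    exact h2.not_ge h1
  refine (Real.log_le_log h2 h1).trans_eq ?_
  rw [Real.log_mul h3 (Real.exp_ne_zero _), Real.log_exp]

variable [NumberField k]

theorem ls_comb {G : Fin m → k} {c : Bool → Fin m → k} (h0 : ∑ i, c true i * G i ≠ 0)
    (w : FinitePlace k) : ls (fun b => ∑ i, c b i * G i) w.1 ≤
      ls (fun q : Bool × Fin m => c q.1 q.2) w.1 + ls G w.1 := by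
  refine ls_le (Function.ne_iff.2 ⟨true, h0⟩) fun b => ?_
  refine sum_induction _ (fun x => w.1 x ≤ _) (fun x y hx hy => (w.add_le x y).trans
    (max_le hx hy)) (by rw [map_zero]; exact (Real.exp_pos _).le) fun i _ => ?_
  rw [map_mul, Real.exp_add]
  exact mul_le_mul (le_exp_ls (fun q : Bool × Fin m => c q.1 q.2) w.1 (b, i)) (le_exp_ls G w.1 i)
    (w.1.nonneg _) (Real.exp_pos _).le

theorem main_loc (S : Finset (FinitePlace k)) (hp : ∀ j, (fun b => p (j, b)) ≠ 0)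
    (hΔ : Δ.Nonempty) {G : Fin m → k} (hG : G ≠ 0) {c : Bool → Fin m → k}
    (h0 : ∑ i, c true i * G i ≠ 0) : logHeight (mon Δ p) - logHeight G ≤
      iS S (fun w => Real.log ((⨆ q, w (mon Δ p q)) / w (∑ i, c true i * G i))) -
        oS S (ls fun b => ∑ i, c b i * G i) +
        (∑ μ ∈ Δ, ∑ j, μ j : ℕ) * oS S (fun w => ∑ j, |ls (fun b => p (j, b)) w|) +
        (iS S (fun w => Real.log (∑ i, w (c true i))) +
          oS S (ls fun q : Bool × Fin m => c q.1 q.2)) := by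
  have hm := mon_ne hp hΔ
  have f1 : FS fun w => ∑ j, |ls (fun b => p (j, b)) w| := FS.sum _ fun j => (fs_ls _).abs
  have h1 : iS S (fun w => ls (mon Δ p) w - ls G w) ≤
      iS S fun w => Real.log ((⨆ q, w (mon Δ p q)) / w (∑ i, c true i * G i)) +
        Real.log (∑ i, w (c true i)) := iS_mono fun s => by
    obtain ⟨q, hq⟩ := Function.ne_iff.1 hm
    have h2 := ((Rt.av s).pos hq).trans_le (Finite.le_ciSup (fun a => Rt.av s (mon Δ p a)) q)
    have h3 := log_comb h0 (Rt.av s)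
    rw [Real.log_div h2.ne' ((Rt.av s).pos h0).ne', ls]
    linarith
  have h2 := oS_mono (S := S) (fs_ls (mon Δ p)) (f1.mul _) fun w _ => ls_mon hp hΔ w.1
  have h3 := oS_mono (S := S) (fs_ls _) ((fs_ls _).add (fs_ls _)) fun w _ => ls_comb h0 w
  rw [iS_sub, iS_add] at h1
  rw [oS_mul _ f1] at h2
  rw [oS_add (fs_ls _) (fs_ls _)] at h3
  rw [ht_split S hm, ht_split S hG]
  linarith

end Loc

theorem main (k : Type) [Field k] [NumberField k] (n N M g m : ℕ)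
    (I : Ideal (MvPolynomial (Fin n × Fin N) k)) (hp : I.IsPrime)
    (hI : ∀ P ∈ I, ∀ μ, cp μ P ∈ I) (hJ : Var (base I))
    (hs : Smooth (base I) g)
    (J : Ideal (MvPolynomial (Fin M) (AlgebraicClosure k))) (hA : Abelian J)
    (hb : Birat ((base I).map (MvPolynomial.map (algebraMap k (AlgebraicClosure k)))) J)
    (G : Fin m → MvPolynomial (Fin n × Fin N) k)
    (hc : ∀ 𝔭 : Ideal (MvPolynomial (Fin n × Fin N) k ⧸ I), 𝔭.IsPrime →
      (∀ i, Ideal.Quotient.mk I (G i) ∈ 𝔭) → (∀ j, ∃ b, Ideal.Quotient.mk I (X (j, b)) ∉ 𝔭) →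
      2 ≤ 𝔭.height)
    (Δ : Finset (Fin n → ℕ)) (hΔ : ∀ μ ∈ Δ, ∃ i, cp μ (G i) ∉ I)
    (R : MvPolynomial (Fin n × Fin N) k) (hR : R ∉ I)
    (Δ' : Finset (Fin n → ℕ)) (hΔ' : ∀ μ ∈ Δ', cp μ R ∉ I) (ε : ℝ) (hε : 0 < ε) :
    ∃ Θ ∉ I, ∃ c : ℝ, ∀ S : Finset (FinitePlace k), ∃ C : ℝ, ∀ v : Fin n × Fin N → k,
      (∀ P ∈ I, eval v P = 0) → eval v Θ ≠ 0 →
      (∀ j, (fun b => v (j, b)) ≠ 0) ∧ eval v R ≠ 0 ∧ (fun i => eval v (G i)) ≠ 0 ∧
      (∑ w : InfinitePlace k, w.mult * Real.log ((⨆ q, w (mon Δ' v q)) / w (eval v R)) +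
        ∑ w ∈ S, Real.log ((⨆ q, w (mon Δ' v q)) / w (eval v R))) +
        (logHeight (mon Δ v) - logHeight fun i => eval v (G i)) ≤
      ε * logHeight (fun o : Option (Fin n × Fin N) => o.elim 1 v) +
        c * ∑ᶠ w ∈ (S : Set (FinitePlace k))ᶜ, ∑ j, |Real.log (⨆ b, w (v (j, b)))| + C := by
  obtain ⟨K, _, _, ξ, y, t, η, U⟩ := exists_su hp hI hJ hA hb
  have h1 : ∀ j, ∃ b, ξ (j, b) ≠ 0 := fun j => (U.one j).imp fun b hb => by
    rw [U.mul, hb, OneMemClass.coe_one, mul_one]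
    exact fun e => U.ind.transcendental j (e ▸ isAlgebraic_zero)
  obtain ⟨c, c1, c2, c3⟩ := exists_pair hp (fun j => (h1 j).imp fun b hb e => hb (by
    simpa using (U.ker _).2 e)) (G := G) hc Δ hΔ
  obtain ⟨v, h, hv⟩ := exists_sp U.top
  have hε' : 0 < ε / 3 := by positivity
  obtain ⟨a₁, W₁, w1, H1⟩ := U.prox h hR Δ' hΔ' hε'
  obtain ⟨a₂, W₂, w2, H2⟩ := U.prox h (c2 true) Δ c3 hε'
  obtain ⟨a₃, W₃, w3, H3⟩ := U.gcd h hs c1 c2 hε'
  have e1 : ∀ᶠ p in gen k ξ, (fun s => v p (ξ s)) = p := (eventually_all.2 hv).mono fun _ => funext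
  have e2 : ∀ P ∉ I, ∀ᶠ p in gen k ξ, v p (aeval ξ P) = eval p P ∧ eval p P ≠ 0 := fun P hP => by
    filter_upwards [e1, h.aeval ξ P, h.ne (mt (U.ker P).1 hP)] with p h2 h3 h4
    rw [h2] at h3
    exact ⟨h3, h3 ▸ h4⟩
  have e3 : ∀ j, ∀ᶠ p in gen k ξ, (fun b => p (j, b)) ≠ 0 := fun j => by
    obtain ⟨b, hb⟩ := h1 j
    filter_upwards [hv (j, b), h.ne hb] with p h2 h3
    exact Function.ne_iff.2 ⟨b, h2 ▸ h3⟩
  obtain ⟨Θ, t1, t2⟩ := (e1.and ((e2 R hR).and ((eventually_all.2 fun b => e2 _ (c2 b)).and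
    ((eventually_all.2 e3).and (inter_mem w1 (inter_mem w2 w3))))) :)
  refine ⟨Θ, mt (U.ker Θ).2 t1, |a₁| + |a₂ + a₃ + (∑ μ ∈ Δ, ∑ j, μ j : ℕ)|, fun S => ?_⟩
  obtain ⟨C₁, H1⟩ := H1 S
  obtain ⟨C₂, H2⟩ := H2 S
  obtain ⟨C₃, H3⟩ := H3 S
  refine ⟨C₁ + |C₂ + C₃ + (iS S (fun w => Real.log (∑ i, w (c true i))) +
    oS S (ls fun q : Bool × Fin m => c q.1 q.2))|, fun p p1 p2 => ?_⟩
  obtain ⟨q1, q2, q3, q4, q5, q6, q7⟩ := t2 p (fun P hP => p1 P ((U.ker P).1 hP)) p2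
  have q8 : ∀ b, eval p (∑ i, c b i • G i) = ∑ i, c b i * eval p (G i) := fun b => by
    simp only [map_sum, smul_eval]
  have h0 : ∑ i, c true i * eval p (G i) ≠ 0 := q8 true ▸ (q3 true).2
  have hG : (fun i => eval p (G i)) ≠ 0 := fun e => h0 (sum_eq_zero fun i _ => by
    rw [congrFun e i, Pi.zero_apply, mul_zero])
  refine ⟨q4, q2.2, hG, ?_⟩
  have k1 := H1 p q5
  have k2 := H2 p q6
  have k3 := H3 p q7
  simp only [fun s => congrFun q1 s, q2.1, fun b => (q3 b).1, q8] at k1 k2 k3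
  rw [iS_eq] at k1
  change _ ≤ _ + _ * oS S (fun w => ∑ j, |ls (fun b => p (j, b)) w|) + _
  have n1 : 0 ≤ oS S fun w => ∑ j, |ls (fun b => p (j, b)) w| :=
    oS_nonneg fun w => sum_nonneg fun _ _ => abs_nonneg _
  have n2 := mul_nonneg hε'.le
    (logHeight_nonneg fun o : Option (Fin n × Fin N) => o.elim 1 p)
  have n3 := mul_le_mul_of_nonneg_right (le_abs_self a₁) n1
  have k4 : logHeight (mon Δ p) - (logHeight fun i => eval p (G i)) ≤
      2 * (ε / 3 * logHeight fun o : Option (Fin n × Fin N) => o.elim 1 p) +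
      |a₂ + a₃ + (∑ μ ∈ Δ, ∑ j, μ j : ℕ)| * oS S (fun w => ∑ j, |ls (fun b => p (j, b)) w|) +
      |C₂ + C₃ + (iS S (fun w => Real.log (∑ i, w (c true i))) +
        oS S (ls fun q : Bool × Fin m => c q.1 q.2))| := by
    rcases Δ.eq_empty_or_nonempty with rfl | hne
    · rw [logHeight_eq_zero_of_subsingleton]
      refine le_trans (sub_nonpos.2 (logHeight_nonneg _)) ?_
      positivity
    · have k5 := main_loc S q4 hne hG h0
      have k6 := mul_le_mul_of_nonneg_right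
        (le_abs_self (a₂ + a₃ + (∑ μ ∈ Δ, ∑ j, μ j : ℕ))) n1
      have k7 := le_abs_self (C₂ + C₃ + (iS S (fun w => Real.log (∑ i, w (c true i))) +
        oS S (ls fun q : Bool × Fin m => c q.1 q.2)))
      linarith
  refine (add_le_add k1 k4).trans ?_
  linarith

end Pool.Agent.Lib.MP_651af7_nt.Tb
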