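import Pool.Agent.Lib.MP_651af7_nt.Es.ANorm

/-! Almost primitive representatives whose affine height is the projective height. -/

namespace Pool.Agent.Lib.MP_651af7_nt.Tb

open Height NumberField

theorem norm_cnt (K : Type) [Field K] [NumberField K] (ι : Type) [Fintype ι] :
    ∃ C : ℝ, 0 ≤ C ∧ ∀ x : ι → K, x ≠ 0 → ∃ c : K, c ≠ 0 ∧
      (∀ w : FinitePlace K, ⨆ l, w (c * x l) ≤ 1) ∧
      (fun w : FinitePlace K => |Real.log (⨆ l, w (c * x l))|).support.Finite ∧
      (∀ T : Set (FinitePlace K), ∑ᶠ w ∈ T, |Real.log (⨆ l, w (c * x l))| ≤ C) ∧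
      logHeight (fun o : Option ι => o.elim 1 fun l => c * x l) ≤ logHeight x + C := by
  classical
  obtain ⟨C, hC, H⟩ := Es.normalize (K := K) ι
  have hd : (0 : ℝ) < Module.finrank ℚ K := Nat.cast_pos.2 Module.finrank_pos
  refine ⟨Module.finrank ℚ K * C, by positivity, fun x hx => ?_⟩
  obtain ⟨c, hc, h1, h2⟩ := H x hx
  obtain ⟨i, hi⟩ := Function.ne_iff.1 hx
  have : Nonempty ι := ⟨i⟩
  have hi' : c * x i ≠ 0 := mul_ne_zero hc hi
  have f1 : ∀ (w : FinitePlace K) l, w (c * x l) ≤ 1 := fun w l => by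
    have := FinitePlace.norm_le_one K w.maximalIdeal ⟨c * x l, h1 l⟩
    rwa [FinitePlace.norm_embedding_eq] at this
  have f2 : ∀ w : FinitePlace K, ⨆ l, w (c * x l) ≤ 1 := fun w => ciSup_le (f1 w)
  have f3 : ∀ w : FinitePlace K, w (c * x i) ≤ ⨆ l, w (c * x l) := fun w =>
    le_ciSup (f := fun l => w (c * x l)) (Finite.bddAbove_range _) i
  have f4 : ∀ w : FinitePlace K, 0 < ⨆ l, w (c * x l) := fun w =>
    (w.1.pos hi').trans_le (f3 w)
  have f5 : (fun w : FinitePlace K => |Real.log (⨆ l, w (c * x l))|).support.Finite := by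
    refine (FinitePlace.hasFiniteMulSupport hi').subset fun w hw h => hw ?_
    have h' : w (c * x i) = 1 := h
    have h3 := f3 w
    rw [h'] at h3
    simp only [le_antisymm (f2 w) h3, Real.log_one, abs_zero]
  have hE : ∏ w : InfinitePlace K, Real.exp (C + logHeight x / Module.finrank ℚ K) ^ w.mult =
      Real.exp (logHeight x + Module.finrank ℚ K * C) := by
    rw [Finset.prod_pow_eq_pow_sum, InfinitePlace.sum_mult_eq, ← Real.exp_nat_mul]
    congr 1
    field_simp
    ring
  have hy : (fun l => c * x l) ≠ 0 := fun h => hi' (congrFun h i)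
  have g1 : ∑ᶠ w : FinitePlace K, |Real.log (⨆ l, w (c * x l))| ≤ Module.finrank ℚ K * C := by
    have e1 : logHeight (fun l => c * x l) = logHeight x := logHeight_smul_eq_logHeight x hc
    have e2 : ∀ w : InfinitePlace K, 0 < ⨆ l, w (c * x l) := fun w =>
      (w.1.pos hi').trans_le (le_ciSup (f := fun l => w (c * x l)) (Finite.bddAbove_range _) i)
    have e3 : 0 < ∏ᶠ w : FinitePlace K, ⨆ l, w (c * x l) := finprod_induction _ one_pos
      (fun _ _ => mul_pos) f4
    have e4 : 0 < ∏ w : InfinitePlace K, (⨆ l, w (c * x l)) ^ w.mult :=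
      Finset.prod_pos fun w _ => pow_pos (e2 w) _
    have e5 : ∏ w : InfinitePlace K, (⨆ l, w (c * x l)) ^ w.mult ≤
        Real.exp (logHeight x + Module.finrank ℚ K * C) := by
      rw [← hE]
      exact Finset.prod_le_prod (fun w _ => (pow_pos (e2 w) _).le) fun w _ =>
        pow_le_pow_left₀ (e2 w).le (ciSup_le (h2 w)) _
    rw [logHeight_eq_log_mulHeight, NumberField.mulHeight_eq hy, Real.log_mul e4.ne' e3.ne',
      Real.log_finprod f4] at e1
    have e6 := (Real.log_le_iff_le_exp e4).2 e5
    have e7 : ∀ w : FinitePlace K, |Real.log (⨆ l, w (c * x l))| =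
        -Real.log (⨆ l, w (c * x l)) := fun w => abs_of_nonpos (Real.log_nonpos (f4 w).le (f2 w))
    simp only [e7, finsum_neg_distrib]
    linarith
  refine ⟨c, hc, f2, f5, fun T => le_trans ?_ g1, ?_⟩
  · rw [finsum_mem_def]
    refine finsum_le_finsum' (f5.subset fun w hw h => hw ?_) f5 fun w =>
      Set.indicator_le_self' (fun _ _ => abs_nonneg _) w
    exact Set.indicator_apply_eq_zero.2 fun _ => h
  · have hz : (fun o : Option ι => o.elim (1 : K) fun l => c * x l) ≠ 0 := fun h =>
      one_ne_zero (congrFun h none)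
    have e1 : ∀ w : FinitePlace K,
        ⨆ o : Option ι, w (o.elim (1 : K) fun l => c * x l) = 1 := fun w => by
      refine le_antisymm (ciSup_le fun o => ?_) ?_
      · cases o with
        | none => simp
        | some l => exact f1 w l
      · refine le_trans ?_ (le_ciSup (f := fun o : Option ι => w (o.elim (1 : K) fun l => c * x l))
          (Finite.bddAbove_range _) none)
        simp
    rw [logHeight_eq_log_mulHeight, Real.log_le_iff_le_exp (mulHeight_pos _),
      NumberField.mulHeight_eq hz, finprod_eq_one_of_forall_eq_one e1, mul_one, ← hE]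
    refine Finset.prod_le_prod (fun w _ => pow_nonneg (Real.iSup_nonneg fun _ => apply_nonneg _ _) _)
      fun w _ => pow_le_pow_left₀ (Real.iSup_nonneg fun _ => apply_nonneg _ _)
        (ciSup_le fun o => ?_) _
    cases o with
    | none =>
      have := logHeight_nonneg x
      simpa using Real.one_le_exp (by positivity)
    | some l => exact h2 w l

end Pool.Agent.Lib.MP_651af7_nt.Tb
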