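import Pool.Agent.Lib.MP_651af7_nt.Tb.Su

/-! The polynomial in the fibre coordinates: coefficients, kernel, denominators. -/

namespace Pool.Agent.Lib.MP_651af7_nt.Tb

open MvPolynomial
open IntermediateField (adjoin)

variable {k K : Type} [Field k] [Field K] [Algebra k K] {n N : ℕ}
  {I : Ideal (MvPolynomial (Fin n × Fin N) k)} {ξ : Fin n × Fin N → K}
  {y : (Fin n → Fin N) → K} {t : Fin n → K} {η : Fin n × Fin N → adjoin k (Set.range y)}

theorem Ph_X {F : Type} [Field F] [Algebra k F] (η : Fin n × Fin N → F) (s : Fin n × Fin N) :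
    Ph (k := k) η (X s) = C (η s) * X s.1 := aeval_X _ _

theorem Ph_monomial {F : Type} [Field F] [Algebra k F] (η : Fin n × Fin N → F)
    (s : Fin n × Fin N →₀ ℕ) (a : k) :
    Ph η (monomial s a) = monomial (s.mapDomain Prod.fst) (aeval η (monomial s a)) := by
  rw [Ph, aeval_monomial, aeval_monomial, monomial_eq,
    Finsupp.prod_mapDomain_index (by simp) (by simp [pow_add])]
  simp only [Finsupp.prod, mul_pow, Finset.prod_mul_distrib, map_mul, map_prod, map_pow, mul_assoc]
  rfl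

theorem weight_blk (s : Fin n × Fin N →₀ ℕ) :
    Finsupp.weight (fun s : Fin n × Fin N => (Pi.single s.1 1 : Fin n → ℕ)) s =
      ⇑(s.mapDomain Prod.fst) := by
  induction s using Finsupp.induction_linear with
  | zero => simp
  | add a b ha hb => rw [map_add, ha, hb, Finsupp.mapDomain_add, Finsupp.coe_add]
  | single i c =>
    rw [Finsupp.weight_single, Finsupp.mapDomain_single, Finsupp.single_eq_pi_single,
      ← Pi.single_smul, smul_eq_mul, mul_one]

theorem coeff_Ph {F : Type} [Field F] [Algebra k F] (η : Fin n × Fin N → F)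
    (P : MvPolynomial (Fin n × Fin N) k) (μ : Fin n →₀ ℕ) :
    coeff μ (Ph η P) = aeval η (cp μ P) := by
  induction P using MvPolynomial.induction_on' with
  | monomial s a =>
    have h := isWeightedHomogeneous_monomial
      (fun s : Fin n × Fin N => (Pi.single s.1 1 : Fin n → ℕ)) s a (weight_blk s)
    rw [Ph_monomial, coeff_monomial, cp]
    split_ifs with e
    · rw [← e, h.weightedHomogeneousComponent_same]
    · rw [h.weightedHomogeneousComponent_ne _ fun e' => e (DFunLike.coe_injective e'.symm),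
        map_zero]
  | add P Q hP hQ => simp only [cp, map_add, coeff_add] at hP hQ ⊢; rw [hP, hQ]

theorem Ph_cp {F : Type} [Field F] [Algebra k F] (η : Fin n × Fin N → F)
    (P : MvPolynomial (Fin n × Fin N) k) (μ : Fin n →₀ ℕ) :
    Ph η (cp μ P) = monomial μ (coeff μ (Ph η P)) := by
  have h := weightedHomogeneousComponent_isWeightedHomogeneous
    (w := fun s : Fin n × Fin N => (Pi.single s.1 1 : Fin n → ℕ)) (⇑μ) P
  ext ν
  rw [coeff_monomial, coeff_Ph, coeff_Ph]
  unfold cp
  split_ifs with e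
  · rw [← e, h.weightedHomogeneousComponent_same]
  · rw [h.weightedHomogeneousComponent_ne _ fun e' => e (DFunLike.coe_injective e'.symm), map_zero]

theorem Su.aeval_Ph (U : Su I ξ y t η) (P : MvPolynomial (Fin n × Fin N) k) :
    aeval t (Ph η P) = aeval ξ P := by
  have e : ((aeval t : MvPolynomial (Fin n) (adjoin k (Set.range y)) →ₐ[_] K).restrictScalars
      k).comp (Ph η) = aeval ξ := by
    ext s
    simp [Ph_X, U.mul s, mul_comm]
  exact AlgHom.congr_fun e P

theorem Su.Ph_eq_zero (U : Su I ξ y t η) (P : MvPolynomial (Fin n × Fin N) k) :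
    Ph η P = 0 ↔ P ∈ I := by
  rw [← U.ker, ← U.aeval_Ph]
  exact (map_eq_zero_iff _ U.ind).symm

theorem Su.coeff_eq_zero (U : Su I ξ y t η) (P : MvPolynomial (Fin n × Fin N) k)
    (μ : Fin n →₀ ℕ) : coeff μ (Ph η P) = 0 ↔ cp μ P ∈ I := by
  rw [← U.Ph_eq_zero, Ph_cp, monomial_eq_zero]

/-- `Q` is a quotient of two values of `Ph`, the denominator being a monomial. -/
def Gd {F : Type} [Field F] [Algebra k F] (η : Fin n × Fin N → F) (Q : MvPolynomial (Fin n) F) :
    Prop :=
  ∃ (P₀ P : MvPolynomial (Fin n × Fin N) k) (μ : Fin n →₀ ℕ) (c : F),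
    c ≠ 0 ∧ Ph η P₀ = monomial μ c ∧ Ph η P = Ph η P₀ * Q

section
variable {F : Type} [Field F] [Algebra k F] {η : Fin n × Fin N → F}
  {Q Q' : MvPolynomial (Fin n) F}

theorem gd_Ph (P : MvPolynomial (Fin n × Fin N) k) : Gd (k := k) η (Ph η P) :=
  ⟨1, P, 0, 1, one_ne_zero, map_one _, by simp⟩

theorem Gd.add (h : Gd (k := k) η Q) (h' : Gd (k := k) η Q') : Gd (k := k) η (Q + Q') := by
  obtain ⟨A, P, μ, c, h1, h2, h3⟩ := h
  obtain ⟨A', P', μ', c', h1', h2', h3'⟩ := h'
  refine ⟨A * A', P * A' + A * P', μ + μ', c * c', mul_ne_zero h1 h1', ?_, ?_⟩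
  · rw [map_mul, h2, h2', monomial_mul]
  · simp only [map_add, map_mul, h3, h3']
    ring

theorem Gd.mul (h : Gd (k := k) η Q) (h' : Gd (k := k) η Q') : Gd (k := k) η (Q * Q') := by
  obtain ⟨A, P, μ, c, h1, h2, h3⟩ := h
  obtain ⟨A', P', μ', c', h1', h2', h3'⟩ := h'
  refine ⟨A * A', P * P', μ + μ', c * c', mul_ne_zero h1 h1', ?_, ?_⟩
  · rw [map_mul, h2, h2', monomial_mul]
  · simp only [map_mul, h3, h3']
    ring

theorem Gd.inv {z : F} (h : Gd (k := k) η (C z)) : Gd (k := k) η (C z⁻¹) := by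
  rcases eq_or_ne z 0 with rfl | hz
  · rwa [inv_zero]
  obtain ⟨A, P, μ, c, h1, h2, h3⟩ := h
  refine ⟨P, A, μ, z * c, mul_ne_zero hz h1, ?_, ?_⟩
  · rw [h3, h2, mul_comm, C_mul_monomial]
  · rw [h3, mul_assoc, ← C_mul, mul_inv_cancel₀ hz, C_1, mul_one]

theorem Ph_prod (a : Fin n → Fin N) :
    Ph (k := k) η (∏ j, X (j, a j)) = monomial (∑ j, Finsupp.single j 1) (∏ j, η (j, a j)) := by
  rw [map_prod, monomial_sum_index]
  simp only [Ph_X, Finset.prod_mul_distrib, map_prod]
  rfl

end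

theorem Su.gd_C (U : Su I ξ y t η) (z : adjoin k (Set.range y)) : Gd (k := k) η (C z) := by
  obtain ⟨z, hz⟩ := z
  induction hz using IntermediateField.adjoin_induction with
  | mem x hx =>
    obtain ⟨a, rfl⟩ := hx
    choose b hb using U.one
    refine ⟨∏ j, X (j, b j), ∏ j, X (j, a j), _, _, ?_, Ph_prod b, ?_⟩
    · simp [hb]
    · have e : (⟨y a, IntermediateField.subset_adjoin _ _ ⟨a, rfl⟩⟩ : adjoin k (Set.range y)) =
          ∏ j, η (j, a j) := Subtype.ext (by simp [U.seg a])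
      rw [e, Ph_prod, Ph_prod, mul_comm, C_mul_monomial]
      simp [hb]
  | algebraMap x => exact (AlgHom.commutes (Ph η) x) ▸ gd_Ph (η := η) (algebraMap k _ x)
  | add a b ha hb h1 h2 =>
    have h := h1.add h2
    rwa [← C_add] at h
  | inv a ha h => exact h.inv
  | mul a b ha hb h1 h2 =>
    have h := h1.mul h2
    rwa [← C_mul] at h

theorem Su.exists_Ph (U : Su I ξ y t η) (Q : MvPolynomial (Fin n) (adjoin k (Set.range y))) :
    ∃ (P₀ P : MvPolynomial (Fin n × Fin N) k) (μ : Fin n →₀ ℕ) (c : adjoin k (Set.range y)),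
      c ≠ 0 ∧ Ph η P₀ = monomial μ c ∧ Ph η P = Ph η P₀ * Q := by
  change Gd (k := k) η Q
  induction Q using MvPolynomial.induction_on with
  | C a => exact U.gd_C a
  | add P Q hP hQ => exact hP.add hQ
  | mul_X P j hP =>
    obtain ⟨b, hb⟩ := U.one j
    have h := gd_Ph (k := k) (η := η) (X (j, b))
    rw [Ph_X, hb, C_1, one_mul] at h
    exact hP.mul h

end Pool.Agent.Lib.MP_651af7_nt.Tb
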