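import Pool.Agent.Lib.MP_651af7_nt.Tb.Sub

/-! The subspace inequality for a matrix twisted by monomials in sections of line bundles. -/

namespace Pool.Agent.Lib.MP_651af7_nt.Tb

open MvPolynomial Finset Height NumberField Matrix Filter Fc Real
open IntermediateField (adjoin)
open Rt (Pl av mu)
open Es (vol)
open Ex (lx)
open Vj (gsum FinS)

variable {k K ι β E ρ μ σ : Type} [Field k] [Fintype σ]

/-- The row `i` of `B` is multiplied by the monomials with exponent `α i`, one entry of `η` being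
taken from each block. -/
def tw {R : Type} [CommRing R] (η : σ × μ → R) (α : E → σ → ℕ) (B : Matrix E ρ R) :
    Matrix (E × (σ → μ)) ρ R := of fun i l => (∏ j, η (j, i.2 j) ^ α i.1 j) * B i.1 l

theorem det_tw {R : Type} [CommRing R] [Fintype ρ] [DecidableEq ρ] (η : σ × μ → R)
    (α : E → σ → ℕ) (B : Matrix E ρ R) (e : ρ → E) (a : σ → μ) :
    ((tw η α B).submatrix (fun l => (e l, a)) id).det =
      (∏ l, ∏ j, η (j, a j) ^ α (e l) j) * (B.submatrix e id).det :=
  det_mul_column (fun l => ∏ j, η (j, a j) ^ α (e l) j) (B.submatrix e id)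

theorem exists_top [Fintype μ] (w : AbsoluteValue k ℝ) {x : σ × μ → k}
    (hx : ∀ j, ∃ b, x (j, b) ≠ 0) : ∃ a : σ → μ, ∀ j, w (x (j, a j)) = ⨆ b, w (x (j, b)) := by
  have h1 : ∀ j, ∃ a, w (x (j, a)) = ⨆ b, w (x (j, b)) := fun j => by
    have : Nonempty μ := (hx j).nonempty
    exact exists_eq_ciSup_of_finite (f := fun b => w (x (j, b)))
  exact Classical.skolem.1 h1

/-- A lower bound for the maximal minors of a twisted matrix. -/
theorem min_tw [NumberField k] [DecidableEq σ] [Fintype μ] [Fintype E] [Fintype ρ] [DecidableEq ρ] (w : AbsoluteValue k ℝ)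
    {x : σ × μ → k} (hx : ∀ j, ∃ b, x (j, b) ≠ 0) (α : E → σ → ℕ) (B : Matrix E ρ k)
    (e : ρ → E) : (∏ l, ∏ j, (⨆ b, w (x (j, b))) ^ α (e l) j) * w (B.submatrix e id).det ≤
      ⨆ f : ρ → E × (σ → μ), w ((tw x α B).submatrix f id).det := by
  obtain ⟨a, ha⟩ := exists_top w hx
  refine le_trans (le_of_eq ?_) (Es.le_sup_av w
    (fun f : ρ → E × (σ → μ) => ((tw x α B).submatrix f id).det) fun l => (e l, a))
  simp only [det_tw, map_mul, map_prod, map_pow, ha]

section sums

variable [NumberField k] {f g : AbsoluteValue k ℝ → ℝ}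

theorem gsum_split (S : Finset (FinitePlace k)) (hf : FinS f) :
    gsum f = ∑ s : Pl S, mu s * f (av s) + ∑ᶠ w ∈ (S : Set (FinitePlace k))ᶜ, f w.1 := by
  have hf' : (Function.support fun v : FinitePlace k => f v.1).Finite := hf
  rw [gsum, sum_archAbsVal_eq, sum_nonarchAbsVal_eq f, Fintype.sum_sum_type, ← finsum_mem_univ,
    ← Set.union_compl_self (S : Set (FinitePlace k)),
    finsum_mem_union' disjoint_compl_right (hf'.inter_of_right _) (hf'.inter_of_right _),
    finsum_mem_coe_finset, ← sum_coe_sort S]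
  simp only [nsmul_eq_mul, mu, av, Sum.elim_inl, Sum.elim_inr, Nat.cast_one, one_mul, add_assoc]

theorem gsum_le_out (S : Finset (FinitePlace k)) (hf : FinS f) (hg : FinS g) (c : Pl S → ℝ)
    (h1 : ∀ s, f (av s) ≤ c s) (h2 : ∀ w : FinitePlace k, w ∉ S → f w.1 ≤ g w.1) :
    gsum f ≤ ∑ s, mu s * c s + ∑ᶠ w ∈ (S : Set (FinitePlace k))ᶜ, g w.1 := by
  have h3 := Es.gsum_le_S S hf hg (fun s => c s - g (av s)) (fun s => by linarith [h1 s]) h2
  simp only [gsum_split S hg, mul_sub, sum_sub_distrib] at h3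
  linarith

theorem finS_abs (hf : FinS f) : FinS fun w => |f w| :=
  Vj.pf_of_le hf fun w hw => by rw [hw, abs_zero]

theorem finS_sub (hf : FinS f) (hg : FinS g) : FinS fun w => f w - g w := by
  simpa only [neg_mul, one_mul, ← sub_eq_add_neg] using hf.add (hg.const_mul (-1))

theorem gsum_sub (hf : FinS f) (hg : FinS g) : gsum (fun w => f w - g w) = gsum f - gsum g := by
  have h1 := Vj.gsum_add hf (hg.const_mul (-1))
  rw [Vj.gsum_const_mul hg] at h1
  simpa only [neg_mul, one_mul, ← sub_eq_add_neg] using h1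

end sums

variable [NumberField k] [Field K] [Algebra k K] [Fintype ι] {J : Ideal (MvPolynomial ι k)}
  {y : ι → K} {𝓕 : Filter β} {v : β → K → k}

/-- The subspace inequality with coefficients in the function field of the base. -/
theorem Dt.subG (D : Dt J y) (h : Sp 𝓕 v) {T : Type} [Fintype ρ] [DecidableEq ρ] [Fintype E]
    [Fintype T] {t : ρ → K} (ht : LinearIndependent (adjoin k (Set.range y)) t)
    (B : Matrix E ρ (adjoin k (Set.range y))) (hB : ∃ e : ρ → E, (B.submatrix e id).det ≠ 0)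
    (G : T → Matrix ρ ρ (adjoin k (Set.range y))) (hG : ∀ τ, (G τ).det ≠ 0) {ε : ℝ}
    (hε : 0 < ε) : ∃ W ∈ 𝓕, ∀ S : Finset (FinitePlace k), ∃ C : ℝ, ∀ p ∈ W, ∀ c : Pl S → T,
      vol (fun s l => lx (av s) (fun i => v p (∑ m, B i m • t m)) (v p (∑ m, G (c s) l m • t m))) +
        logHeight (fun e : ρ → E => ((B.map fun z => v p z).submatrix e id).det) ≤
        Fintype.card ρ * logHeight (fun i => v p (∑ m, B i m • t m)) +
          ε * (logHeight (fun a => v p (y a)) + logHeight fun i => v p (∑ m, B i m • t m)) + C := by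
  obtain ⟨e, he⟩ := hB
  let a := (Fintype.equivFin ρ).symm
  have e0 : ∀ {R : Type} [CommRing R] (M : Matrix E ρ R) (f : Fin _ → E),
      mne (M.submatrix id a) f = (M.submatrix (f ∘ a.symm) id).det := fun M f => by
    rw [← det_submatrix_equiv_self a]
    simp only [mne, submatrix_submatrix, Function.comp_assoc, a.symm_comp_self, Function.comp_id,
      Function.id_comp]
  obtain ⟨W, hW, h1⟩ := D.sub h (ht.comp a a.injective) (B.submatrix id a) (f := e ∘ a)
    (by
      rw [e0]
      simpa only [Function.comp_assoc, a.self_comp_symm, Function.comp_id] using he)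
    (fun τ => (G τ).submatrix a a) (fun τ => (det_submatrix_equiv_self a _).trans_ne (hG τ)) hε
  refine ⟨W, hW, fun S => (h1 S).imp fun C hC p hp c => ?_⟩
  have h2 := hC p hp c
  have e1 : ∀ w : ρ → adjoin k (Set.range y), ∑ m, w (a m) • t (a m) = ∑ m, w m • t m :=
    fun w => a.sum_comp fun m => w m • t m
  have e2 : mne ((B.submatrix id a).map fun z => v p z) =
      (fun e : ρ → E => ((B.map fun z => v p z).submatrix e id).det) ∘
        a.arrowCongr (Equiv.refl E) := funext fun f => e0 (B.map fun z => v p z) f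
  simp only [submatrix_apply, Function.comp_apply, e1, e2, logHeight_comp_equiv, id] at h2
  have e4 : ∀ s : Pl S, ∑ l, lx (av s) (fun i => v p (∑ m, B i m • t m))
      (v p (∑ m, G (c s) (a l) m • t m)) = ∑ l, lx (av s) (fun i => v p (∑ m, B i m • t m))
      (v p (∑ m, G (c s) l m • t m)) := fun s =>
    a.sum_comp fun l => lx (av s) (fun i => v p (∑ m, B i m • t m)) (v p (∑ m, G (c s) l m • t m))
  simpa only [vol, e4] using h2

/-- The values of the combinations given by the rows of `B`, multiplied by monomials. -/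
def zt {F : IntermediateField k K} [Fintype ρ] (v : K → k) (η : σ × μ → F) (α : E → σ → ℕ)
    (B : Matrix E ρ F) (t : ρ → K) (q : E × (σ → μ)) : k :=
  (∏ j, v (η (j, q.2 j)) ^ α q.1 j) * v (∑ m, B q.1 m • t m)

/-- The subspace inequality for the twisted matrix. -/
theorem Dt.subT (D : Dt J y) (h : Sp 𝓕 v) {T : Type} [Fintype ρ] [DecidableEq ρ] [Fintype E]
    [DecidableEq σ] [Fintype μ] [Fintype T] {t : ρ → K} (ht : LinearIndependent (adjoin k (Set.range y)) t)
    (η : σ × μ → adjoin k (Set.range y)) (hη : ∀ j, ∃ b, η (j, b) ≠ 0) (α : E → σ → ℕ)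
    (B : Matrix E ρ (adjoin k (Set.range y))) (hB : ∃ e : ρ → E, (B.submatrix e id).det ≠ 0)
    (G : T → Matrix ρ ρ (adjoin k (Set.range y))) (hG : ∀ τ, (G τ).det ≠ 0) {ε : ℝ}
    (hε : 0 < ε) : ∃ W ∈ 𝓕, ∀ S : Finset (FinitePlace k), ∃ C : ℝ, ∀ p ∈ W, ∀ c : Pl S → T,
      vol (fun s l => lx (av s) (zt (v p) η α B t) (v p (∑ m, G (c s) l m • t m))) +
        logHeight (fun e : ρ → E × (σ → μ) =>
          ((tw (fun s => v p (η s)) α (B.map fun z => v p z)).submatrix e id).det) ≤
        Fintype.card ρ * logHeight (zt (v p) η α B t) +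
          ε * (logHeight (fun a => v p (y a)) + logHeight (zt (v p) η α B t)) + C := by
  obtain ⟨e, he⟩ := hB
  choose a ha using hη
  obtain ⟨W, hW, h1⟩ := D.subG h ht (tw η α B) ⟨fun l => (e l, a), by
    rw [det_tw]
    exact mul_ne_zero (prod_ne_zero_iff.2 fun l _ => prod_ne_zero_iff.2 fun j _ =>
      pow_ne_zero _ (ha j)) he⟩ G hG hε
  have b1 : ∀ q : E × (σ → μ), ∀ᶠ p in 𝓕,
      v p ((∏ j, η (j, q.2 j) ^ α q.1 j : adjoin k (Set.range y)) : K) =
        ∏ j, v p (η (j, q.2 j)) ^ α q.1 j := fun q => by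
    filter_upwards [h.prod univ fun j => (η (j, q.2 j) : K) ^ α q.1 j,
      eventually_all.2 fun j => h.pow (η (j, q.2 j) : K) (α q.1 j)] with p h2 h3
    push_cast
    rw [h2]
    exact prod_congr rfl fun j _ => h3 j
  have b2 : ∀ q : E × (σ → μ), ∀ᶠ p in 𝓕,
      v p (∑ m, tw η α B q m • t m) = zt (v p) η α B t q := fun q => by
    filter_upwards [b1 q, h.mul ((∏ j, η (j, q.2 j) ^ α q.1 j : adjoin k (Set.range y)) : K)
      (∑ m, B q.1 m • t m)] with p h2 h3
    rw [zt, ← h2, ← h3]
    simp only [tw, of_apply, mul_smul, ← smul_sum]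
    rfl
  have b3 : ∀ u : (E × (σ → μ)) × ρ, ∀ᶠ p in 𝓕, v p ↑(tw η α B u.1 u.2) =
      tw (fun s => v p (η s)) α (B.map fun z => v p z) u.1 u.2 := fun u => by
    filter_upwards [b1 u.1, h.mul ((∏ j, η (j, u.1.2 j) ^ α u.1.1 j : adjoin k (Set.range y)) : K)
      (B u.1.1 u.2)] with p h2 h3
    rw [h2] at h3
    exact h3
  refine ⟨_, inter_mem hW ((eventually_all.2 b2).and (eventually_all.2 b3)), fun S => (h1 S).imp ?_⟩
  rintro C hC p ⟨p1, p2, p3⟩ c
  have h2 := hC p p1 c
  have e1 : ((tw η α B).map fun z => v p z) =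
      tw (fun s => v p (η s)) α (B.map fun z => v p z) := by
    ext i l
    exact p3 (i, l)
  rwa [e1, funext p2] at h2

end Pool.Agent.Lib.MP_651af7_nt.Tb
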