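import Pool.Agent.Lib.MP_651af7_nt.Tb.Sub
import Pool.Agent.Lib.MP_651af7_nt.Tb.Defs
import Pool.Agent.Lib.MP_651af7_nt.Tb.Pl

/-! The generic point of a multicone, fibre coordinates, Koszul matrices: definitions. -/

namespace Pool.Agent.Lib.MP_651af7_nt.Tb

open MvPolynomial
open IntermediateField (adjoin)

variable {k K : Type} [Field k] [Field K] [Algebra k K] {n N : ℕ}

/-- `ξ` is the generic point of `I`, `y` that of the base, `t` are the fibre coordinates. -/
structure Su (I : Ideal (MvPolynomial (Fin n × Fin N) k)) (ξ : Fin n × Fin N → K)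
    (y : (Fin n → Fin N) → K) (t : Fin n → K) (η : Fin n × Fin N → adjoin k (Set.range y)) :
    Prop where
  hom : ∀ P ∈ I, ∀ μ, cp μ P ∈ I
  dt : Dt (base I) y
  ker : ∀ P, aeval ξ P = 0 ↔ P ∈ I
  top : adjoin k (Set.range ξ) = ⊤
  mul : ∀ s, ξ s = t s.1 * η s
  one : ∀ j, ∃ b, η (j, b) = 1
  seg : ∀ a, y a = ∏ j, (η (j, a j) : K)
  ind : AlgebraicIndependent (adjoin k (Set.range y)) t

/-- The polynomial in the fibre coordinates. -/
noncomputable def Ph {F : Type} [Field F] [Algebra k F] (η : Fin n × Fin N → F) :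
    MvPolynomial (Fin n × Fin N) k →ₐ[k] MvPolynomial (Fin n) F :=
  aeval fun s => C (η s) * X s.1

/-- The common zeros of the `G i` with no zero block have codimension at least two. -/
def Ht2 (I : Ideal (MvPolynomial (Fin n × Fin N) k)) {τ : Type}
    (G : τ → MvPolynomial (Fin n × Fin N) k) : Prop :=
  ∀ 𝔭 : Ideal (MvPolynomial (Fin n × Fin N) k ⧸ I), 𝔭.IsPrime →
    (∀ i, Ideal.Quotient.mk I (G i) ∈ 𝔭) → (∀ j, ∃ b, Ideal.Quotient.mk I (X (j, b)) ∉ 𝔭) →
    2 ≤ 𝔭.height

/-- The exponents in the box with upper corner `b`. -/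
abbrev Box (b : Fin n →₀ ℕ) : Type := ↥(Finset.Iic b)

/-- The Koszul relations between the polynomials `X ^ α * f e`. -/
noncomputable def Lam {R : Type} [CommRing R] (f : Bool → MvPolynomial (Fin n) R)
    (a b : Fin n →₀ ℕ) : Matrix (Box a) (Bool × Box b) R :=
  fun γ e => coeff e.2.1 (monomial γ.1 (if e.1 then 1 else -1) * f !e.1)

/-- The polynomials `X ^ α * f e`. -/
noncomputable def zz {R : Type} [CommRing R] (f : Bool → MvPolynomial (Fin n) R)
    (b : Fin n →₀ ℕ) (e : Bool × Box b) : MvPolynomial (Fin n) R := monomial e.2.1 1 * f e.1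

/-- The number of points of the box with sides `M + x * d j`. -/
def cb (d : Fin n → ℕ) (M x : ℕ) : ℕ := ∏ j, (M + x * d j + 1)

end Pool.Agent.Lib.MP_651af7_nt.Tb
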